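import Pool.Agent.H45.SQ.Targets1

/-!
# Targets, part 2: planar statistics, rank one stage, the 99 percent theorem, inverse theorem
-/

namespace Pool.Agent.H45.SQ

open Finset Polynomial
open scoped BigOperators ComplexConjugate ComplexOrder

section
variable {G : Type} [AddCommGroup G] [Fintype G]

/-- Energy of a function relative to the cosets of `H`. -/
noncomputable def En [Module (ZMod 2) G] (φ : G → ℂ) (H : Submodule (ZMod 2) G) : ℝ :=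
  𝔼 x, ‖𝔼 h ∈ hs H, φ (x + h)‖ ^ 2

/-- Mean square of the Fourier coefficient at `ℓ` on the cosets of `H`. -/
noncomputable def Fc [Module (ZMod 2) G] (φ : G → ℂ) (H : Submodule (ZMod 2) G)
    (l : Module.Dual (ZMod 2) G) : ℝ :=
  𝔼 x, ‖𝔼 h ∈ hs H, φ (x + h) * sg (l h)‖ ^ 2

/-- The defect of the cocycle identity. -/
noncomputable def dC (F : G → G → ℂ) (y s z : G) : ℂ :=
  F y s * F (y + s) z * conj (F s z) * conj (F y (s + z))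

end

/-- INC: energy increment for `H ⊓ ker l`. -/
def T_INC : Prop :=
  ∀ (G : Type) [AddCommGroup G] [Fintype G] [DecidableEq G] [Module (ZMod 2) G]
    (H : Submodule (ZMod 2) G) (l : Module.Dual (ZMod 2) G), (∃ h ∈ H, l h ≠ 0) →
    (hs H).card = 2 * (hs (H ⊓ LinearMap.ker l)).card ∧
    ∀ φ : G → ℂ, En φ (H ⊓ LinearMap.ker l) = En φ H + Fc φ H l

/-- REGH: existence of regular subspaces of bounded index. -/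
def T_REGH : Prop :=
  ∀ (κ C : ℝ) (m : ℕ), 0 < κ → ∃ n₀ : ℕ,
    ∀ (G : Type) [AddCommGroup G] [Fintype G] [DecidableEq G] [Module (ZMod 2) G]
      (Ω : Fin m → Type) [∀ i, Fintype (Ω i)] (c : ∀ i, Ω i → ℝ) (φ : ∀ i, Ω i → G → ℂ),
      (∀ i w, 0 ≤ c i w) → (∀ i, ∑ w, c i w ≤ C) → (∀ i w x, ‖φ i w x‖ ≤ 1) →
      ∃ H : Submodule (ZMod 2) G, Fintype.card G ≤ n₀ * (hs H).card ∧
        ∀ i (l : Module.Dual (ZMod 2) G), (∃ h ∈ H, l h ≠ 0) →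
          ∑ w, c i w * Fc (φ i w) H l ≤ κ

/-- RES: resampling one row. -/
def T_RES : Prop :=
  ∀ (G : Type) [AddCommGroup G] [Fintype G] [DecidableEq G] [Module (ZMod 2) G]
    (H : Submodule (ZMod 2) G) (Ω : Type) [Fintype Ω] (c : Ω → ℂ) (φ π : Ω → G → ℂ)
    (κ C : ℝ), (∀ w x, ‖φ w x‖ ≤ 1) → (∀ w x, ‖π w x‖ ≤ 1) → (∑ w, ‖c w‖) ≤ C →
    (∀ l : Module.Dual (ZMod 2) G, (∃ h ∈ H, l h ≠ 0) → ∑ w, ‖c w‖ * Fc (φ w) H l ≤ κ) →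
    0 ≤ κ →
    𝔼 h ∈ hs H, 𝔼 h' ∈ hs H, ‖(∑ w, c w * 𝔼 y, φ w (h + y) * π w y) -
      (∑ w, c w * 𝔼 y, φ w (h' + y) * π w y)‖ ^ 2 ≤ 2 * κ * C

/-- LEMC: planar statistics are nearly constant on cosets of a subspace of bounded index. -/
def T_LEMC : Prop :=
  ∀ (ι : Type) [Fintype ι] [DecidableEq ι] (J : ℕ) (C κ : ℝ), 0 < κ → ∃ n₀ : ℕ,
    ∀ (G : Type) [AddCommGroup G] [Fintype G] [DecidableEq G] [Module (ZMod 2) G]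
      (g : Fin J → (ι → G) → ℂ), (∀ j, Planar C (g j)) →
      ∃ H : Submodule (ZMod 2) G, Fintype.card G ≤ n₀ * (hs H).card ∧
        ∀ j (c : ι → G), 𝔼 h ∈ Fintype.piFinset (fun _ : ι => hs H),
          𝔼 h' ∈ Fintype.piFinset (fun _ : ι => hs H), ‖g j (c + h) - g j (c + h')‖ ^ 2 ≤ κ

/-- PTR: traces of separated families are planar. -/
def T_PTR : Prop :=
  ∀ (G : Type) [AddCommGroup G] [Fintype G] [DecidableEq G] [Module (ZMod 2) G]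
    (ι : Type) [Fintype ι] [DecidableEq ι] (i j : ι) (L : Fam G) (C : ℝ), i ≠ j → Sep C L →
    Planar C (fun r : ι → G => (mat L (r i + r j)).trace)

/-- PTH: `Theta` of separated families is planar. -/
def T_PTH : Prop :=
  ∀ (G : Type) [AddCommGroup G] [Fintype G] [DecidableEq G] [Module (ZMod 2) G]
    (ι : Type) [Fintype ι] [DecidableEq ι] (i j k : ι) (A B C : Fam G) (cA cB cC : ℝ),
    i ≠ j → j ≠ k → i ≠ k → Sep cA A → Sep cB B → Sep cC C →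
    Planar (cA * cB * cC) (fun r : ι → G => Th (r i + r j) (r j + r k) (mat A (r i + r j))
      (mat B (r j + r k)) (mat C (r i + r k)))

/-- PCU: the cube statistic is planar. -/
def T_PCU : Prop :=
  ∀ (G : Type) [AddCommGroup G] [Fintype G] [DecidableEq G] [Module (ZMod 2) G]
    (A B C : Fam G) (c : ℝ), Sep c A → Sep c B → Sep c C → Planar (c ^ 12) (Cub A B C)

/-- CID: the cube statistic of kernels that are nearly of rank one. -/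
def T_CID : Prop :=
  ∀ (G : Type) [AddCommGroup G] [Fintype G] [DecidableEq G] [Module (ZMod 2) G]
    (A B C : Fam G) (e X g : G → G → ℂ) (r : Fin 3 × Fin 2 → G) (b ε : ℝ),
    1 ≤ b → 0 ≤ ε → ε ≤ 1 → (∀ s y, ‖e s y‖ ≤ b) → (∀ s y, ‖X s y‖ ≤ b) →
    (∀ s y, ‖g s y‖ ≤ b) →
    (∀ i j o u, ‖A o u (u + (r (0, i) + r (1, j))) -
      e (r (0, i) + r (1, j)) u * conj (e (r (0, i) + r (1, j)) (u + o))‖ ≤ ε) →
    (∀ j k o u, ‖B o u (u + (r (1, j) + r (2, k))) -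
      X (r (1, j) + r (2, k)) u * conj (X (r (1, j) + r (2, k)) (u + o))‖ ≤ ε) →
    (∀ i k o u, ‖C o u (u + (r (0, i) + r (2, k))) -
      g (r (0, i) + r (2, k)) u * conj (g (r (0, i) + r (2, k)) (u + o))‖ ≤ ε) →
    ‖Cub A B C r - ∏ i : Fin 2, ∏ j : Fin 2, ∏ k : Fin 2, cj (i.val + j.val + k.val)
      (Tri (r (0, i) + r (1, j)) (r (1, j) + r (2, k)) (e (r (0, i) + r (1, j)))
        (X (r (1, j) + r (2, k))) (g (r (0, i) + r (2, k))))‖ ≤ 12 * (b ^ 2 + 1) ^ 11 * ε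

/-- CPOS: cube averages are nonnegative reals. -/
def T_CPOS : Prop :=
  ∀ (G : Type) [AddCommGroup G] [Fintype G] [DecidableEq G] [Module (ZMod 2) G]
    (H : Submodule (ZMod 2) G) (φ : G → G → ℂ), 0 ≤ (OctH H φ).re ∧ (OctH H φ).im = 0

/-- CUBE: a bounded function of nearly constant modulus and nearly constant cube products. -/
def T_CUBE : Prop :=
  ∀ (b θ ε' : ℝ), 0 < θ → 0 < ε' → ∃ ε : ℝ, 0 < ε ∧
    ∀ (G : Type) [AddCommGroup G] [Fintype G] [DecidableEq G] [Module (ZMod 2) G]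
      (H : Submodule (ZMod 2) G) (c : G → G → ℂ) (θb : ℝ) (gb : ℂ), (∀ h k, ‖c h k‖ ≤ b) →
      θ ≤ θb → 𝔼 h ∈ hs H, 𝔼 k ∈ hs H, |‖c h k‖ ^ 2 - θb| ≤ ε →
      𝔼 a ∈ Fintype.piFinset (fun _ : Fin 2 => hs H),
        𝔼 b ∈ Fintype.piFinset (fun _ : Fin 2 => hs H),
          𝔼 r ∈ Fintype.piFinset (fun _ : Fin 2 => hs H),
          ‖(∏ i : Fin 2, ∏ j : Fin 2, ∏ k : Fin 2,
            cj (i.val + j.val + k.val) (c (a i + b j) (b j + r k))) - gb‖ ≤ ε →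
      ∃ φ : G → G → ℂ, (∀ h k, ‖φ h k‖ ≤ 1) ∧ 1 - ε' ≤ (OctH H φ).re ∧
        𝔼 h ∈ hs H, 𝔼 k ∈ hs H, ‖φ h k - ((Real.sqrt θb)⁻¹ : ℝ) * c h k‖ ≤ ε'

/-- M7: a matrix whose sharpened version is nearly a projection of trace one. -/
def T_M7 : Prop :=
  ∀ (K ε : ℝ), 0 < K → 0 < ε → ∃ (τ τ₂ : ℝ), 0 < τ ∧ 0 < τ₂ ∧
    ∀ (R : ℝ) (h : ℝ[X]), K ≤ R → 1 ≤ R → CutPoly R (1 / 4) (3 / 4) τ h →
    ∀ (G : Type) [AddCommGroup G] [Fintype G] [DecidableEq G] [Module (ZMod 2) G]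
      (M F : Matrix G G ℂ), M.IsHermitian → EntLe M K → F = aeval M h →
      ((F - F * F) * (F - F * F)).trace.re ≤ τ₂ → |(F * F).trace.re - 1| ≤ τ₂ →
      ∃ (e : G → ℂ) (l : ℝ), 𝔼 y, ‖e y‖ ^ 2 = 1 ∧ 1 / 4 ≤ |l| ∧
        M.mulVec e = (fun y => (l : ℂ) * e y) ∧
        ∀ y y', ‖(Fintype.card G : ℂ) * F y y' - e y * conj (e y')‖ ≤ ε

/-- EIG: eigenvectors of a dominated family. -/
def T_EIG : Prop :=
  ∀ (G : Type) [AddCommGroup G] [Fintype G] [DecidableEq G] [Module (ZMod 2) G]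
    (f : G → G → ℂ) (L : Fam G) (Λ K : ℝ) (s : G) (e : G → ℂ) (l : ℝ), Dom f Λ L →
    Herm L → EntLe (mat L s) K → 1 / 4 ≤ |l| → (mat L s).mulVec e = (fun y => (l : ℂ) * e y) →
    𝔼 y, ‖e y‖ ^ 2 ≤ 1 →
    (∀ φ : G → ℂ, ‖𝔼 y, conj (e y) * φ y‖ ^ 2 ≤
      16 * Λ * ((Fintype.card G : ℝ)⁻¹ * qf (mat (rho f) s) φ)) ∧ ∀ y, ‖e y‖ ≤ 4 * K

/-- ONE: near constancy makes a family nearly of rank one on a whole coset. -/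
def T_ONE : Prop :=
  ∀ (K ε : ℝ), 0 < K → 0 < ε → ∃ h : ℝ[X], h.coeff 0 = 0 ∧ h.coeff 1 = 0 ∧
    ∀ p : ℝ, 0 < p → ∃ κ : ℝ, 0 < κ ∧
    ∀ (G : Type) [AddCommGroup G] [Fintype G] [DecidableEq G] [Module (ZMod 2) G]
      (A : Fam G) (H : Submodule (ZMod 2) G) (s₀ : G) (S : Finset G) (F : G → Matrix G G ℂ),
      Herm A → (∀ s, EntLe (mat A s) K) → (∀ s, F s = aeval (mat A s) h) →
      (∀ s ∈ S, s + s₀ ∈ H) → p * ((hs H).card : ℝ) ≤ S.card →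
      (∀ s ∈ S, ∃ P, Gap (mat A s) P 1) →
      𝔼 k ∈ hs H, 𝔼 k' ∈ hs H, ‖(F (s₀ + k) * F (s₀ + k)).trace -
        (F (s₀ + k') * F (s₀ + k')).trace‖ ^ 2 ≤ κ →
      𝔼 k ∈ hs H, 𝔼 k' ∈ hs H,
        ‖((F (s₀ + k) - F (s₀ + k) * F (s₀ + k)) *
            (F (s₀ + k) - F (s₀ + k) * F (s₀ + k))).trace -
          ((F (s₀ + k') - F (s₀ + k') * F (s₀ + k')) *
            (F (s₀ + k') - F (s₀ + k') * F (s₀ + k'))).trace‖ ^ 2 ≤ κ →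
      ∃ (e : G → G → ℂ) (T : Finset G), (∀ s ∈ T, s + s₀ ∈ H) ∧
        (1 - ε) * ((hs H).card : ℝ) ≤ T.card ∧ (∀ s, s ∉ T → e s = 0) ∧
        ∀ s ∈ T, 𝔼 y, ‖e s y‖ ^ 2 = 1 ∧
          (∃ l : ℝ, 1 / 4 ≤ |l| ∧ (mat A s).mulVec (e s) = (fun y => (l : ℂ) * e s y)) ∧
          ∀ y y', ‖(Fintype.card G : ℂ) * F s y y' - e s y * conj (e s y')‖ ≤ ε

/-- RKA: rank one stage, near constancy facts. -/
def T_RKA : Prop :=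
  ∀ (K Λ θ p ε : ℝ), 0 < K → 0 < θ → 0 < p → 0 < ε → ∃ n₀ : ℕ,
    ∀ (G : Type) [AddCommGroup G] [Fintype G] [DecidableEq G] [Module (ZMod 2) G]
      (f : G → G → ℂ), (∀ x y, ‖f x y‖ ≤ 1) → HasConf f K Λ θ p 1 1 1 →
      ∃ (H : Submodule (ZMod 2) G) (s₀ t₀ : G) (e X g : G → G → ℂ) (θb : ℝ) (gb : ℂ),
        Fintype.card G ≤ n₀ * (hs H).card ∧ θ / 2 ≤ θb ∧
        (∀ s y, ‖e s y‖ ≤ 4 * K) ∧ (∀ s y, ‖X s y‖ ≤ 4 * K) ∧ (∀ s y, ‖g s y‖ ≤ 4 * K) ∧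
        (∀ (s : G) (φ : G → ℂ), ‖𝔼 y, conj (e s y) * φ y‖ ^ 2 ≤
          16 * Λ * ((Fintype.card G : ℝ)⁻¹ * qf (mat (rho f) s) φ)) ∧
        𝔼 h ∈ hs H, 𝔼 k ∈ hs H, |‖Tri (s₀ + h) (t₀ + k) (e (s₀ + h)) (X (t₀ + k))
          (g (s₀ + h + (t₀ + k)))‖ ^ 2 - θb| ≤ ε ∧
        𝔼 a ∈ Fintype.piFinset (fun _ : Fin 2 => hs H),
          𝔼 b ∈ Fintype.piFinset (fun _ : Fin 2 => hs H),
            𝔼 r ∈ Fintype.piFinset (fun _ : Fin 2 => hs H),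
            ‖(∏ i : Fin 2, ∏ j : Fin 2, ∏ k : Fin 2, cj (i.val + j.val + k.val)
              (Tri (s₀ + (a i + b j)) (t₀ + (b j + r k)) (e (s₀ + (a i + b j)))
                (X (t₀ + (b j + r k))) (g (s₀ + (a i + b j) + (t₀ + (b j + r k)))))) - gb‖ ≤ ε

/-- RK1: rank one stage. -/
def T_RK1 : Prop :=
  ∀ (K Λ θ p ε : ℝ), 0 < K → 0 < θ → 0 < p → 0 < ε → ∃ (n₀ : ℕ) (β₀ : ℝ), 0 < β₀ ∧
    ∀ (G : Type) [AddCommGroup G] [Fintype G] [DecidableEq G] [Module (ZMod 2) G]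
      (f : G → G → ℂ), (∀ x y, ‖f x y‖ ≤ 1) → HasConf f K Λ θ p 1 1 1 →
      ∃ (H : Submodule (ZMod 2) G) (s₀ t₀ : G) (e X g : G → G → ℂ) (β : ℝ)
        (φ : G → G → ℂ),
        Fintype.card G ≤ n₀ * (hs H).card ∧ β₀ ≤ β ∧
        (∀ s y, ‖e s y‖ ≤ 4 * K) ∧ (∀ s y, ‖X s y‖ ≤ 4 * K) ∧ (∀ s y, ‖g s y‖ ≤ 4 * K) ∧
        (∀ (s : G) (ψ : G → ℂ), ‖𝔼 y, conj (e s y) * ψ y‖ ^ 2 ≤
          16 * Λ * ((Fintype.card G : ℝ)⁻¹ * qf (mat (rho f) s) ψ)) ∧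
        (∀ h k, ‖φ h k‖ ≤ 1) ∧ 1 - ε ≤ (OctH H φ).re ∧
        𝔼 h ∈ hs H, 𝔼 k ∈ hs H, ‖φ h k - ((β⁻¹ : ℝ) : ℂ) * Tri (s₀ + h) (t₀ + k)
          (e (s₀ + h)) (X (t₀ + k)) (g (s₀ + h + (t₀ + k)))‖ ≤ ε

/-- N1: normalisation to modulus one. -/
def T_N1 : Prop :=
  ∀ (G : Type) [AddCommGroup G] [Fintype G] [DecidableEq G] [Module (ZMod 2) G]
    (φ : G → G → ℂ) (ε : ℝ), (∀ y z, ‖φ y z‖ ≤ 1) → 0 ≤ ε → 1 - ε ≤ (Oct φ).re →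
    ∃ f₁ : G → G → ℂ, (∀ y z, ‖f₁ y z‖ = 1) ∧ 𝔼 y, 𝔼 z, ‖f₁ y z - φ y z‖ ≤ ε ∧
      𝔼 a : Fin 2 → G, 𝔼 b : Fin 2 → G, 𝔼 r : Fin 2 → G,
        ‖1 - ∏ i : Fin 2, ∏ j : Fin 2, ∏ k : Fin 2,
          cj (i.val + j.val + k.val) (f₁ (a i + b j) (b j + r k))‖ ≤ Real.sqrt (2 * ε) + 8 * ε

/-- N2: the cocycle identity is a cube product. -/
def T_N2 : Prop :=
  ∀ (G : Type) [AddCommGroup G] [Fintype G] [DecidableEq G] [Module (ZMod 2) G]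
    (f₁ : G → G → ℂ) (ε : ℝ), (∀ y z, ‖f₁ y z‖ = 1) →
    𝔼 a : Fin 2 → G, 𝔼 b : Fin 2 → G, 𝔼 r : Fin 2 → G,
        ‖1 - ∏ i : Fin 2, ∏ j : Fin 2, ∏ k : Fin 2,
          cj (i.val + j.val + k.val) (f₁ (a i + b j) (b j + r k))‖ ≤ ε →
    ∃ a b : G, 𝔼 y, 𝔼 s, 𝔼 z, ‖1 - dC (fun y z => f₁ (y + a) (z + b) * conj (f₁ (y + a) b) *
      conj (f₁ a (z + b)) * f₁ a b) y s z‖ ≤ ε

/-- N3: reduction to values near fourth roots of unity. -/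
def T_N3 : Prop :=
  ∀ (G : Type) [AddCommGroup G] [Fintype G] [DecidableEq G] [Module (ZMod 2) G]
    (F : G → G → ℂ) (ε : ℝ), (∀ y z, ‖F y z‖ = 1) → 𝔼 y, 𝔼 s, 𝔼 z, ‖1 - dC F y s z‖ ≤ ε →
    ∃ w : G → ℂ, (∀ y, ‖w y‖ = 1) ∧
      𝔼 y, 𝔼 z, ‖(F y z * w y * w z * conj (w (y + z))) ^ 4 - 1‖ ≤ 28 * ε

/-- N4: rounding to fourth roots of unity. -/
def T_N4 : Prop :=
  ∀ (G : Type) [AddCommGroup G] [Fintype G] [DecidableEq G] [Module (ZMod 2) G]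
    (F : G → G → ℂ) (ε ε' : ℝ), (∀ y z, ‖F y z‖ = 1) → 𝔼 y, 𝔼 z, ‖F y z ^ 4 - 1‖ ≤ ε →
    𝔼 y, 𝔼 s, 𝔼 z, ‖1 - dC F y s z‖ ≤ ε' →
    ∃ Φ : G → G → ZMod 4, 𝔼 y, 𝔼 z, ‖F y z - Complex.I ^ (Φ y z).val‖ ≤ ε ∧
      (((Finset.univ : Finset (G × G × G)).filter fun q =>
        Φ q.1 q.2.1 + Φ (q.1 + q.2.1) q.2.2 ≠ Φ q.2.1 q.2.2 + Φ q.1 (q.2.1 + q.2.2)).card : ℝ) ≤
        (4 * ε + ε') * (Fintype.card G : ℝ) ^ 3

/-- N5: the 99 percent cocycle theorem. -/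
def T_N5 : Prop :=
  ∀ (H A : Type) [AddCommGroup H] [Fintype H] [DecidableEq H] [AddCommGroup A] [DecidableEq A]
    (Φ : H → H → A) (ε : ℝ), ε < 1 / 40 →
    (((Finset.univ : Finset (H × H × H)).filter fun q =>
        Φ q.1 q.2.1 + Φ (q.1 + q.2.1) q.2.2 ≠ Φ q.2.1 q.2.2 + Φ q.1 (q.2.1 + q.2.2)).card : ℝ) ≤
        ε * (Fintype.card H : ℝ) ^ 3 →
    ∃ (D : H → H → A) (c : H → A),
      (∀ x y z, D x y + D (x + y) z = D y z + D x (y + z)) ∧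
      (((Finset.univ : Finset (H × H)).filter fun q =>
        Φ q.1 q.2 ≠ D q.1 q.2 - c q.1 - c q.2 + c (q.1 + q.2)).card : ℝ) ≤
        20 * ε * (Fintype.card H : ℝ) ^ 2

/-- ALTF: alternating forms over `ZMod 2` are of the form `m + m^T`. -/
def T_ALTF : Prop :=
  ∀ (G : Type) [AddCommGroup G] [Fintype G] [Module (ZMod 2) G] (β : G → G → ZMod 2),
    (∀ x y z, β (x + y) z = β x z + β y z) → (∀ x y z, β x (y + z) = β x y + β x z) →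
    (∀ x, β x x = 0) → ∃ m : Bil G, ∀ x y, β x y = m x y + m y x

/-- COB: symmetric cocycles with values of modulus one are coboundaries. -/
def T_COB : Prop :=
  ∀ (G : Type) [AddCommGroup G] [Fintype G] [Module (ZMod 2) G] (W : G → G → ℂ),
    (∀ x y, ‖W x y‖ = 1) → (∀ x y, W x y = W y x) →
    (∀ x y z, W x y * W (x + y) z = W y z * W x (y + z)) →
    ∃ w : G → ℂ, (∀ x, ‖w x‖ = 1) ∧ ∀ x y, W x y = w x * w y * conj (w (x + y))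

/-- N6: exact cocycles with values in `ZMod 4`. -/
def T_N6 : Prop :=
  ∀ (G : Type) [AddCommGroup G] [Fintype G] [DecidableEq G] [Module (ZMod 2) G]
    (D : G → G → ZMod 4), (∀ x y z, D x y + D (x + y) z = D y z + D x (y + z)) →
    ∃ (m : Bil G) (w : G → ℂ), (∀ x, ‖w x‖ = 1) ∧
      ∀ x y, Complex.I ^ (D x y).val = sg (m x y) * w x * w y * conj (w (x + y))

/-- N9: the 99 percent inverse theorem. -/
def T_N9 : Prop :=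
  ∃ ε₀ : ℝ, 0 < ε₀ ∧
    ∀ (G : Type) [AddCommGroup G] [Fintype G] [DecidableEq G] [Module (ZMod 2) G]
      (φ : G → G → ℂ), (∀ y z, ‖φ y z‖ ≤ 1) → 1 - ε₀ ≤ (Oct φ).re →
      ∃ (u v w : G → ℂ) (m : Bil G), (∀ x, ‖u x‖ ≤ 1) ∧ (∀ x, ‖v x‖ ≤ 1) ∧ (∀ x, ‖w x‖ ≤ 1) ∧
        1 / 2 ≤ ‖𝔼 y, 𝔼 z, φ y z * u y * v z * w (y + z) * sg (m y z)‖

/-- N9H: the 99 percent inverse theorem on a subspace. -/
def T_N9H : Prop :=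
  ∃ ε₀ : ℝ, 0 < ε₀ ∧
    ∀ (G : Type) [AddCommGroup G] [Fintype G] [DecidableEq G] [Module (ZMod 2) G]
      (H : Submodule (ZMod 2) G) (φ : G → G → ℂ), (∀ y z, ‖φ y z‖ ≤ 1) →
      1 - ε₀ ≤ (OctH H φ).re →
      ∃ (u v w : G → ℂ) (m : Bil G), (∀ x, ‖u x‖ ≤ 1) ∧ (∀ x, ‖v x‖ ≤ 1) ∧ (∀ x, ‖w x‖ ≤ 1) ∧
        1 / 2 ≤ ‖𝔼 y ∈ hs H, 𝔼 z ∈ hs H, φ y z * u y * v z * w (y + z) * sg (m y z)‖

/-- BACK: the backward step. -/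
def T_BACK : Prop :=
  ∀ (K Λ η : ℝ), 0 < K → 0 < η → ∃ η' : ℝ, 0 < η' ∧
    ∀ (G : Type) [AddCommGroup G] [Fintype G] [DecidableEq G] [Module (ZMod 2) G]
      (f : G → G → ℂ) (e X g : G → G → ℂ) (a b d : G → ℂ) (m : Bil G),
      (∀ x y, ‖f x y‖ ≤ 1) →
      (∀ s y, ‖e s y‖ ≤ K) → (∀ s y, ‖X s y‖ ≤ K) → (∀ s y, ‖g s y‖ ≤ K) →
      (∀ s, ‖a s‖ ≤ 1) → (∀ s, ‖b s‖ ≤ 1) → (∀ s, ‖d s‖ ≤ 1) →
      (∀ (s : G) (ψ : G → ℂ), ‖𝔼 y, conj (e s y) * ψ y‖ ^ 2 ≤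
          Λ * ((Fintype.card G : ℝ)⁻¹ * qf (mat (rho f) s) ψ)) →
      η ≤ ‖𝔼 s, 𝔼 t, a s * b t * d (s + t) * sg (m s t) *
        Tri s t (e s) (X t) (g (s + t))‖ →
      ∃ (u v w : G → ℂ) (m' : Bil G), (∀ x, ‖u x‖ ≤ 1) ∧ (∀ x, ‖v x‖ ≤ 1) ∧
        (∀ x, ‖w x‖ ≤ 1) ∧ η' ≤ ‖𝔼 x, 𝔼 y, f x y * u x * v y * w (x + y) * sg (m' x y)‖

/-- IT: the inverse theorem for the directional norm. -/
def T_IT : Prop :=
  ∀ δ : ℝ, 0 < δ → ∃ c : ℝ, 0 < c ∧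
    ∀ (G : Type) [AddCommGroup G] [Fintype G] [DecidableEq G] [Module (ZMod 2) G]
      (f : G → G → ℂ), (∀ x y, ‖f x y‖ ≤ 1) → δ ≤ U8 f →
      ∃ (u v w : G → ℂ) (m : Bil G), (∀ x, ‖u x‖ ≤ 1) ∧ (∀ x, ‖v x‖ ≤ 1) ∧ (∀ x, ‖w x‖ ≤ 1) ∧
        c ≤ ‖𝔼 x, 𝔼 y, f x y * u x * v y * w (x + y) * sg (m x y)‖

end Pool.Agent.H45.SQ
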