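import Pool.Agent.H45.SQ.Targets2
import Pool.Agent.H81.SQ.Defs

/-!
# Bridge between the two forms of the inverse theorem
-/

namespace Pool.Agent.H45.SQ

open Finset Polynomial
open scoped BigOperators ComplexConjugate ComplexOrder

theorem U8_eq {G : Type} [AddCommGroup G] [Fintype G] (f : G → G → ℂ) :
    Pool.Agent.H81.SQ.U8 f = U8 f := by
  unfold Pool.Agent.H81.SQ.U8 U8 rho
  refine Finset.expect_congr rfl fun o _ => Finset.expect_congr rfl fun u _ =>
    Finset.expect_congr rfl fun v _ => ?_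
  congr 2
  refine Finset.expect_congr rfl fun x _ => ?_
  simp only [map_mul, Complex.conj_conj]
  ring

theorem bridge (h : T_IT) : Pool.Agent.H81.SQ.T_IT := by
  intro δ hδ
  obtain ⟨c, hc, h⟩ := h δ hδ
  refine ⟨c, hc, ?_⟩
  intro G _ _ _ f hf hU
  classical
  rw [U8_eq] at hU
  obtain ⟨u, v, w, m, hu, hv, hw, hm⟩ := h G f hf hU
  refine ⟨u, v, w, m, hu, hv, hw, ?_⟩
  have hsg : ∀ a : ZMod 2, ((Pool.Agent.H36Sq.sg a : ℝ) : ℂ) = sg a := by
    intro a
    unfold Pool.Agent.H36Sq.sg sg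
    split_ifs <;> simp
  simp only [hsg]
  exact hm

end Pool.Agent.H45.SQ
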