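import Pool.Agent.H45.SQ.Targets1

/-!
# DESC: descent to ranks `(1, 1, 1)`
-/

namespace Pool.Agent.H45.SQ

open Finset Polynomial
open scoped BigOperators ComplexConjugate ComplexOrder

/-- Reducibility of a triple of ranks. -/
def Red (a b c : ℕ) : Prop :=
  ∀ K Λ θ p : ℝ, 0 < K → 0 < θ → 0 < p → ∃ (K' Λ' θ' p' : ℝ), 0 < K' ∧ 0 < θ' ∧ 0 < p' ∧
    ∀ (G : Type) [AddCommGroup G] [Fintype G] [DecidableEq G] [Module (ZMod 2) G]
      (f : G → G → ℂ), (∀ x y, ‖f x y‖ ≤ 1) → HasConf f K Λ θ p a b c →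
      HasConf f K' Λ' θ' p' 1 1 1

theorem red_rot (hY : T_SYM) {a b c : ℕ} (h : Red b c a) : Red a b c := by
  intro K Λ θ p hK hθ hp
  obtain ⟨K', Λ', θ', p', h1, h2, h3, h4⟩ := h K Λ θ p hK hθ hp
  exact ⟨K', Λ', θ', p', h1, h2, h3, fun G _ _ _ _ f hf hc =>
    h4 G f hf ((hY G f K Λ θ p a b c).1 hc)⟩

theorem red_zero (hY : T_SYM) {a b c : ℕ} (h : a = 0 ∨ b = 0 ∨ c = 0) : Red a b c := by
  intro K Λ θ p hK hθ hp
  refine ⟨1, 1, 1, 1, one_pos, one_pos, one_pos, fun G _ _ _ _ f hf hc => ?_⟩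
  have := (hY G f K Λ θ p a b c).2.2.2 hθ hp hc
  omega

theorem red_one : Red 1 1 1 := by
  intro K Λ θ p hK hθ hp
  exact ⟨K, Λ, θ, p, hK, hθ, hp, fun G _ _ _ _ f hf hc => hc⟩

/-- Uniform parameters for finitely many triples. -/
theorem red_unif (hY : T_SYM) {ι : Type} [Finite ι] [Nonempty ι] (a b c : ι → ℕ)
    (h : ∀ i, Red (a i) (b i) (c i)) (K Λ θ p : ℝ) (hK : 0 < K) (hθ : 0 < θ) (hp : 0 < p) :
    ∃ (K' Λ' θ' p' : ℝ), 0 < K' ∧ 0 < θ' ∧ 0 < p' ∧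
    ∀ (G : Type) [AddCommGroup G] [Fintype G] [DecidableEq G] [Module (ZMod 2) G]
      (f : G → G → ℂ), (∀ x y, ‖f x y‖ ≤ 1) → ∀ i, HasConf f K Λ θ p (a i) (b i) (c i) →
      HasConf f K' Λ' θ' p' 1 1 1 := by
  have h' := fun i => h i K Λ θ p hK hθ hp
  choose K' Λ' θ' p' h1 h2 h3 h4 using h'
  obtain ⟨i1, hi1⟩ := Finite.exists_max K'
  obtain ⟨i2, hi2⟩ := Finite.exists_max Λ'
  obtain ⟨i3, hi3⟩ := Finite.exists_min θ'
  obtain ⟨i4, hi4⟩ := Finite.exists_min p'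
  refine ⟨K' i1, Λ' i2, θ' i3, p' i4, h1 _, h2 _, h3 _, fun G _ _ _ _ f hf i hc => ?_⟩
  exact (hY G f (K' i) (Λ' i) (θ' i) (p' i) 1 1 1).2.2.1 _ _ _ _ hf (hi1 i) (hi2 i) (hi3 i)
    (hi4 i) (h4 i G f hf hc)

theorem red_step (hS : T_STEP) (hY : T_SYM) {a b c : ℕ} (hc : c < a * b)
    (h : ∀ a' b', a' + b' < a + b → Red a' b' c) : Red a b c := by
  intro K Λ θ p hK hθ hp
  obtain ⟨K₁, Λ₁, θ₁, p₁, k1, k2, k3, k4⟩ := hS K Λ θ p a b c hK hθ hp hc
  obtain ⟨K', Λ', θ', p', h1, h2, h3, h4⟩ := red_unif hY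
    (ι := Option {q : Fin (a + b + 1) × Fin (a + b + 1) // q.1.val + q.2.val < a + b})
    (fun i => i.elim 0 (fun q => q.1.1.val)) (fun i => i.elim 0 (fun q => q.1.2.val))
    (fun _ => c) (by
      intro i
      cases i with
      | none => exact red_zero hY (Or.inl rfl)
      | some q => exact h _ _ q.2) K₁ Λ₁ θ₁ p₁ k1 k2 k3
  refine ⟨K', Λ', θ', p', h1, h2, h3, fun G _ _ _ _ f hf hcf => ?_⟩
  obtain ⟨a', b', hab, hcf'⟩ := k4 G f hf hcf
  exact h4 G f hf (some ⟨(⟨a', by omega⟩, ⟨b', by omega⟩), hab⟩) hcf'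

theorem red_all (hS : T_STEP) (hY : T_SYM) : ∀ n a b c : ℕ, a + b + c ≤ n → Red a b c := by
  intro n
  induction n with
  | zero =>
    intro a b c h
    exact red_zero hY (by omega)
  | succ n ih =>
    intro a b c h
    by_cases h0 : a = 0 ∨ b = 0 ∨ c = 0
    · exact red_zero hY h0
    by_cases h1 : a = 1 ∧ b = 1 ∧ c = 1
    · obtain ⟨rfl, rfl, rfl⟩ := h1
      exact red_one
    push Not at h0
    obtain ⟨ha, hb, hc⟩ := h0
    by_cases c1 : c < a * b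
    · exact red_step hS hY c1 (fun a' b' hab => ih a' b' c (by omega))
    by_cases c2 : a < b * c
    · exact red_rot hY (red_step hS hY c2 (fun a' b' hab => ih a' b' a (by omega)))
    have c3 : b < c * a := by
      push Not at c1 c2
      have hb1 : b = 1 := by
        by_contra hb1
        have hb2 : 2 ≤ b := by omega
        have e1 : b * (a * b) ≤ b * c := Nat.mul_le_mul_left _ c1
        have e2 : 2 * a ≤ a * b := by nlinarith
        have e3 : 2 * (a * b) ≤ b * (a * b) := Nat.mul_le_mul_right _ hb2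
        have : 1 ≤ a := by omega
        omega
      subst hb1
      simp only [mul_one, one_mul] at c1 c2
      have hac : a = c := le_antisymm c1 c2
      subst hac
      have : 2 ≤ a := by omega
      nlinarith
    exact red_rot hY (red_rot hY (red_step hS hY c3 (fun a' b' hab => ih a' b' b (by omega))))

theorem desc (hI : T_INIT) (hS : T_STEP) (hY : T_SYM) : T_DESC := by
  intro δ hδ
  obtain ⟨K, Λ, θ, p, D, hK, hθ, hp, h⟩ := hI δ hδ
  obtain ⟨K', Λ', θ', p', h1, h2, h3, h4⟩ := red_unif hY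
    (ι := Fin (D + 1) × Fin (D + 1) × Fin (D + 1)) (fun i => i.1.val) (fun i => i.2.1.val)
    (fun i => i.2.2.val) (fun i => red_all hS hY _ _ _ _ le_rfl) K Λ θ p hK hθ hp
  refine ⟨K', Λ', θ', p', h1, h2, h3, fun G _ _ _ _ f hf hU => ?_⟩
  obtain ⟨DA, DB, DC, hA, hB, hC, hcf⟩ := h G f hf hU
  exact h4 G f hf (⟨DA, by omega⟩, ⟨DB, by omega⟩, ⟨DC, by omega⟩) hcf

end Pool.Agent.H45.SQ
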