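import Pool.Agent.H45.SQ.Targets2

/-!
# RK1: the rank one stage from RKA and CUBE
-/

namespace Pool.Agent.H45.SQ

open Finset Polynomial
open scoped BigOperators ComplexConjugate ComplexOrder

theorem norm_Tri_le {G : Type} [AddCommGroup G] [Fintype G] (s t : G) (e X g : G → ℂ) (b : ℝ)
    (hb : 0 ≤ b) (he : ∀ y, ‖e y‖ ≤ b) (hX : ∀ y, ‖X y‖ ≤ b) (hg : ∀ y, ‖g y‖ ≤ b) :
    ‖Tri s t e X g‖ ≤ b ^ 3 := by
  unfold Tri
  refine le_trans (RCLike.norm_expect_le (K := ℂ)) ?_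
  refine Finset.expect_le Finset.univ_nonempty fun y _ => ?_
  rw [norm_mul, norm_mul]
  have h1 := mul_le_mul (he y) (hX (y + s)) (norm_nonneg _) hb
  have h2 := mul_le_mul h1 (hg (y + s + t)) (norm_nonneg _) (by positivity)
  calc _ ≤ b * b * b := h2
    _ = b ^ 3 := by ring

theorem rk1 (hA : T_RKA) (hC : T_CUBE) : T_RK1 := by
  intro K Λ θ p ε hK hθ hp hε
  obtain ⟨ε₁, hε₁, hC⟩ := hC ((4 * K) ^ 3) (θ / 2) ε (by positivity) hε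
  obtain ⟨n₀, hA⟩ := hA K Λ θ p ε₁ hK hθ hp hε₁
  refine ⟨n₀, Real.sqrt (θ / 2), by positivity, ?_⟩
  intro G _ _ _ _ f hf hconf
  obtain ⟨H, s₀, t₀, e, X, g, θb, gb, hn, hθb, he, hX, hg, hdom, h1, h2⟩ := hA G f hf hconf
  obtain ⟨φ, hφ, hoct, hcl⟩ := hC G H (fun h k => Tri (s₀ + h) (t₀ + k) (e (s₀ + h))
    (X (t₀ + k)) (g (s₀ + h + (t₀ + k)))) θb gb
    (fun h k => norm_Tri_le _ _ _ _ _ _ (by positivity) (he _) (hX _) (hg _)) hθb h1 h2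
  exact ⟨H, s₀, t₀, e, X, g, Real.sqrt θb, φ, hn, Real.sqrt_le_sqrt hθb, he, hX, hg, hdom, hφ,
    hoct, hcl⟩

end Pool.Agent.H45.SQ
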