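import Pool.Agent.H45.SQ.IT

/-!
# STEP: the step of the descent, and symmetries of configurations
-/

namespace Pool.Agent.H45.SQ

open Finset Polynomial
open scoped BigOperators ComplexConjugate ComplexOrder

section
variable {G : Type} [AddCommGroup G] [Fintype G] [DecidableEq G] [Module (ZMod 2) G]

/-- Restriction of a configuration to a smaller set of pairs. -/
theorem Conf.restrict {f : G → G → ℂ} {K Λ θ p : ℝ} {DA DB DC : ℕ} {A B C : Fam G}
    {PA PB PC : G → Matrix G G ℂ} {S : Finset (G × G)}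
    (h : Conf f K Λ θ p DA DB DC A B C PA PB PC S) {S' : Finset (G × G)} {p' : ℝ}
    (hS : S' ⊆ S) (hc : p' * (Fintype.card G : ℝ) ^ 2 ≤ S'.card) :
    Conf f K Λ θ p' DA DB DC A B C PA PB PC S' :=
  { sepA := h.sepA, sepB := h.sepB, sepC := h.sepC, hermA := h.hermA, hermB := h.hermB,
    hermC := h.hermC, domA := h.domA, domB := h.domB, domC := h.domC, card := hc,
    gapA := fun z hz => h.gapA z (hS hz), gapB := fun z hz => h.gapB z (hS hz),
    gapC := fun z hz => h.gapC z (hS hz), theta := fun z hz => h.theta z (hS hz) }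

/-- The reflected configuration. -/
theorem Conf.refl (hSh : T_SHARP) (hT : T_TWI) {f : G → G → ℂ} {K Λ θ p : ℝ} {DA DB DC : ℕ}
    {A B C : Fam G} {PA PB PC : G → Matrix G G ℂ} {S : Finset (G × G)}
    (h : Conf f K Λ θ p DA DB DC A B C PA PB PC S) :
    Conf f K Λ θ p DB DA DC (sharp B) (sharp A) (sharp C) (fun t => twist t (PB t))
      (fun s => twist s (PA s)) (fun σ => twist σ (PC σ)) (S.image Prod.swap) := by
  have hSA := hSh G f A
  have hSB := hSh G f B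
  have hSC := hSh G f C
  refine ⟨hSB.1 _ h.sepB, hSA.1 _ h.sepA, hSC.1 _ h.sepC, hSB.2.1 h.hermB, hSA.2.1 h.hermA,
    hSC.2.1 h.hermC, hSB.2.2.2.2.1 _ h.domB, hSA.2.2.2.2.1 _ h.domA, hSC.2.2.2.2.1 _ h.domC,
    ?_, ?_, ?_, ?_, ?_⟩
  · rw [Finset.card_image_of_injective _ Prod.swap_injective]
    exact h.card
  · intro z hz
    obtain ⟨z', hz', rfl⟩ := mem_image.1 hz
    rw [hSB.2.2.1]
    exact (hT G z'.2 z'.2 _ _ 0 0 0).1 _ (h.gapB z' hz')
  · intro z hz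
    obtain ⟨z', hz', rfl⟩ := mem_image.1 hz
    rw [hSA.2.2.1]
    exact (hT G z'.1 z'.1 _ _ 0 0 0).1 _ (h.gapA z' hz')
  · intro z hz
    obtain ⟨z', hz', rfl⟩ := mem_image.1 hz
    rw [hSC.2.2.1]
    have := (hT G (z'.1 + z'.2) 0 _ _ 0 0 0).1 _ (h.gapC z' hz')
    simpa [add_comm] using this
  · intro z hz
    obtain ⟨z', hz', rfl⟩ := mem_image.1 hz
    have h1 := (hT G z'.1 z'.2 0 0 (PA z'.1) (PB z'.2) (PC (z'.1 + z'.2))).2.2.2.1
    have h2 := h.theta z' hz'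
    have h3 : (Th z'.2 z'.1 (twist z'.2 (PB z'.2)) (twist z'.1 (PA z'.1))
        (twist (z'.2 + z'.1) (PC (z'.2 + z'.1)))) =
        conj (Th z'.1 z'.2 (PA z'.1) (PB z'.2) (PC (z'.1 + z'.2))) := by
      rw [← h1, add_comm z'.2 z'.1]
    simp only [Prod.fst_swap, Prod.snd_swap]
    rw [h3, Complex.conj_re]
    exact h2

/-- The rotated configuration. -/
theorem Conf.rot (hT : T_TWI) {f : G → G → ℂ} {K Λ θ p : ℝ} {DA DB DC : ℕ}
    {A B C : Fam G} {PA PB PC : G → Matrix G G ℂ} {S : Finset (G × G)}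
    (h : Conf f K Λ θ p DA DB DC A B C PA PB PC S) :
    Conf f K Λ θ p DB DC DA B C A PB PC PA (S.image fun z => (z.2, z.1 + z.2)) := by
  have e0 : ∀ z : G × G, z.2 + (z.1 + z.2) = z.1 := by
    intro z
    rw [add_comm z.1 z.2, add_cancel2]
  refine ⟨h.sepB, h.sepC, h.sepA, h.hermB, h.hermC, h.hermA, h.domB, h.domC, h.domA,
    ?_, ?_, ?_, ?_, ?_⟩
  · rw [Finset.card_image_of_injective]
    · exact h.card
    · intro a b hab
      simp only [Prod.mk.injEq] at hab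
      obtain ⟨h1, h2⟩ := hab
      rw [h1] at h2
      exact Prod.ext (add_right_cancel h2) h1
  · intro z hz
    obtain ⟨z', hz', rfl⟩ := mem_image.1 hz
    exact h.gapB z' hz'
  · intro z hz
    obtain ⟨z', hz', rfl⟩ := mem_image.1 hz
    exact h.gapC z' hz'
  · intro z hz
    obtain ⟨z', hz', rfl⟩ := mem_image.1 hz
    simp only [e0]
    exact h.gapA z' hz'
  · intro z hz
    obtain ⟨z', hz', rfl⟩ := mem_image.1 hz
    simp only [e0]
    rw [← (hT G z'.1 z'.2 0 0 (PA z'.1) (PB z'.2) (PC (z'.1 + z'.2))).2.2.2.2]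
    exact h.theta z' hz'

end

theorem step (hA : T_ALT) (h1 : T_STEP1) (hSh : T_SHARP) (hT : T_TWI) (hY : T_SYM) :
    T_STEP := by
  intro K Λ θ p DA DB DC hK hθ hp hD
  obtain ⟨ξ, m, hξ, hA⟩ := hA DA DB DC θ hθ hD
  obtain ⟨K₁, Λ₁, p₁, hK₁, hp₁, h11⟩ := h1 K Λ θ (p / 2) ξ m DA DB DC hK hθ (by positivity) hξ
  obtain ⟨K₂, Λ₂, p₂, hK₂, hp₂, h12⟩ := h1 K Λ θ (p / 2) ξ m DB DA DC hK hθ (by positivity) hξ
  refine ⟨max K₁ K₂, max Λ₁ Λ₂, θ / 4, min p₁ p₂, by positivity, by positivity, by positivity, ?_⟩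
  intro G _ _ _ _ f hf hconf
  obtain ⟨A, B, C, PA, PB, PC, S, hc⟩ := hconf
  obtain ⟨XA, XB, hXA, hXB, halt⟩ := hA G f K Λ p A B C PA PB PC S hc
  classical
  set S₁ := S.filter (fun z => ∃ i, Spread ξ z.1 z.2 (PA z.1) (PC (z.1 + z.2)) (XB z.2 i))
    with hS₁
  set S₂ := S.filter (fun z => ∃ i, Spread ξ z.2 z.1 (twist z.2 (PB z.2))
    (twist (z.1 + z.2) (PC (z.1 + z.2))) (fun y => conj (XA z.1 i (y + z.1)))) with hS₂
  have hcard : (S.card : ℝ) ≤ S₁.card + S₂.card := by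
    have : S ⊆ S₁ ∪ S₂ := by
      intro z hz
      rcases halt z hz with h | h
      · exact mem_union_left _ (mem_filter.2 ⟨hz, h⟩)
      · exact mem_union_right _ (mem_filter.2 ⟨hz, h⟩)
    have h2 := (Finset.card_le_card this).trans (Finset.card_union_le _ _)
    exact_mod_cast h2
  have hS := hc.card
  by_cases hbig : p / 2 * (Fintype.card G : ℝ) ^ 2 ≤ S₁.card
  · obtain ⟨D₁, hD₁, hcf⟩ := h11 G f A B C PA PB PC S₁ XB hf
      (hc.restrict (Finset.filter_subset _ _) hbig)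
      (fun z hz i => hXB z (Finset.mem_of_mem_filter z hz) i)
      (fun z hz => (mem_filter.1 hz).2)
    refine ⟨D₁, DB, by omega, ?_⟩
    exact (hY G f K₁ Λ₁ (θ / 4) p₁ D₁ DB DC).2.2.1 _ _ _ _ hf (le_max_left _ _)
      (le_max_left _ _) le_rfl (min_le_left _ _) hcf
  · have hbig2 : p / 2 * (Fintype.card G : ℝ) ^ 2 ≤ S₂.card := by
      push Not at hbig
      linarith
    have hr := Conf.refl hSh hT (hc.restrict (Finset.filter_subset _ _) hbig2)
    have q1 : ∀ z ∈ S₂.image Prod.swap, ∀ i,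
        (twist z.2 (PA z.2)).mulVec (fun y => conj (XA z.2 i (y + z.2))) =
          (fun y => conj (XA z.2 i (y + z.2))) ∧
        𝔼 y, ‖(conj (XA z.2 i (y + z.2)) : ℂ)‖ ^ 2 ≤ 1 := by
      intro z hz i
      obtain ⟨z', hz', rfl⟩ := mem_image.1 hz
      have h3 := hXA z' (Finset.mem_of_mem_filter z' hz') i
      refine ⟨(hT G z'.1 z'.2 0 (PA z'.1) 0 0 0).2.2.1 _ h3.1, ?_⟩
      refine le_trans (le_of_eq ?_) h3.2
      simp only [Prod.snd_swap, RCLike.norm_conj]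
      exact Fintype.expect_equiv (Equiv.addRight z'.1) _ _ (fun y => rfl)
    have q2 : ∀ z ∈ S₂.image Prod.swap, ∃ i, Spread ξ z.1 z.2 (twist z.1 (PB z.1))
        (twist (z.1 + z.2) (PC (z.1 + z.2))) (fun y => conj (XA z.2 i (y + z.2))) := by
      intro z hz
      obtain ⟨z', hz', rfl⟩ := mem_image.1 hz
      obtain ⟨i, hi⟩ := (mem_filter.1 hz').2
      refine ⟨i, ?_⟩
      simp only [Prod.fst_swap, Prod.snd_swap]
      rw [add_comm z'.2 z'.1]
      exact hi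
    obtain ⟨D₁, hD₁, hcf⟩ := h12 G f _ _ _ _ _ _ _
      (fun s i y => conj (XA s i (y + s))) hf hr q1 q2
    refine ⟨DA, D₁, by omega, ?_⟩
    exact (hY G f K₂ Λ₂ (θ / 4) p₂ DA D₁ DC).2.2.1 _ _ _ _ hf (le_max_right _ _)
      (le_max_right _ _) le_rfl (min_le_right _ _)
      ((hY G f K₂ Λ₂ (θ / 4) p₂ D₁ DA DC).2.1 hcf)

end Pool.Agent.H45.SQ
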