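import Pool.Agent.H3.SQ.SYM

/-!
# STEP1: the one-sided step
-/

namespace Pool.Agent.H45.SQ

open Finset Polynomial
open scoped BigOperators ComplexConjugate ComplexOrder

theorem Th_add_left {G : Type} [AddCommGroup G] [Fintype G] (s t : G)
    (A A' B C : Matrix G G ℂ) : Th s t (A + A') B C = Th s t A B C + Th s t A' B C := by
  unfold Th
  rw [← mul_add, ← Finset.sum_add_distrib]
  congr 1
  refine Finset.sum_congr rfl fun y _ => ?_
  rw [← Finset.sum_add_distrib]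
  refine Finset.sum_congr rfl fun y' _ => ?_
  rw [Matrix.add_apply]
  ring

theorem step1 (hA : T_STA) (hB : T_STB) (hP : T_PERT) (hT : T_THB) (hBa : T_BAS)
    (hF : T_FLAT) (hE : T_ENT) (hO : T_OPT) (hR : T_RHO) : T_STEP1 := by
  intro K Λ θ p ξ m DA DB DC hK hθ hp hξ
  set e₁ : ℝ := min (1 / 16) (θ / (16 * ((DB : ℝ) * DC * (2 * K) ^ 2 + 1))) with he₁
  have he₁0 : 0 < e₁ := by positivity
  obtain ⟨p', J, q, hp', hq, hA⟩ := hA K θ p ξ e₁ m DA DB DC hK hθ hp hξ he₁0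
  have hB' := fun j => hB K Λ e₁ (q j) hK he₁0 (hq j).1 (hq j).2
  choose K₁ Λ₁ hB₁ using hB'
  refine ⟨K + ∑ j, |K₁ j|, |Λ| + ∑ j, |Λ₁ j|, p', by positivity, hp', ?_⟩
  intro G _ _ _ _ f A B C PA PB PC S XB hf hc hXB hsp
  obtain ⟨t₀, X₀, side, j, D₁, Pn, S', hX₀, hD₁, hS', hcard, hz⟩ :=
    hA G f Λ A B C PA PB PC S XB hc hXB hsp
  obtain ⟨L, hL1, hL2, hL3, hL4⟩ := hB₁ j G f A C t₀ X₀ side hf hc.sepA hc.hermA hc.domA
    hc.sepC hc.hermC hX₀
  have hherm : ∀ s, (mat L s).IsHermitian := by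
    intro s
    ext y y'
    rw [Matrix.conjTranspose_apply]
    have h1 := hL2 (y' + y) y' (y' + s)
    simp only [mat]
    rw [star_mul', ← starRingEnd_apply (R := ℂ) (L (y' + y) y' (y' + s)), h1]
    have e1 : y' + (y' + y) = y := H3.add_add_self _ _
    have e2 : y' + s + (y' + y) = y + s := by
      calc y' + s + (y' + y) = (y' + y') + (y + s) := by abel
        _ = y + s := by rw [H3.add_self, zero_add]
    rw [e1, e2, add_comm y' y]
    simp
  have hmono1 : ∀ L' : Fam G, Sep K L' → Sep (K + ∑ j, |K₁ j|) L' := fun L' h =>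
    H3.sep_mono h (by linarith [Finset.sum_nonneg (fun j (_ : j ∈ univ) => abs_nonneg (K₁ j))])
  have hmono2 : ∀ L' : Fam G, Dom f Λ L' → Dom f (|Λ| + ∑ j, |Λ₁ j|) L' := fun L' h =>
    H3.dom_mono h (by
      linarith [Finset.sum_nonneg (fun j (_ : j ∈ univ) => abs_nonneg (Λ₁ j)), le_abs_self Λ])
      (hR G f hf).2.2.1
  -- the new projections
  have hnew : ∀ s, (∃ z ∈ S', z.1 = s) → ∃ P' : Matrix G G ℂ, Gap (mat L s) P' D₁ ∧
      OpLe (P' - Pn s) (4 * e₁) := by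
    rintro s ⟨z, hzS, rfl⟩
    obtain ⟨h1, h2, h3, h4, h5⟩ := hz z hzS
    have h6 := hL4 z.1 (PA z.1) (PC (z.1 + t₀)) DA DC (hc.gapA z (hS' hzS))
      (hc.gapC (z.1, t₀) h1)
    have h7 : OpLe (mat L z.1 - Pn z.1) (e₁ + e₁) := by
      have := (hO G (mat L z.1 - Lex side (q j) (PA z.1) (Rm z.1 t₀ X₀ (PC (z.1 + t₀))))
        (Lex side (q j) (PA z.1) (Rm z.1 t₀ X₀ (PC (z.1 + t₀))) - Pn z.1) e₁ e₁).1 h6 h4
      simpa using this
    obtain ⟨P', hP1, hP2⟩ := hP G (mat L z.1) (Pn z.1) D₁ (e₁ + e₁) (hherm _) h2 h3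
      (by linarith [min_le_left (1 / 16 : ℝ) (θ / (16 * ((DB : ℝ) * DC * (2 * K) ^ 2 + 1)))]) h7
    refine ⟨P', hP1, ?_⟩
    have : 2 * (e₁ + e₁) = 4 * e₁ := by ring
    rwa [this] at hP2
  classical
  let PN : G → Matrix G G ℂ := fun s =>
    if h : ∃ z ∈ S', z.1 = s then Classical.choose (hnew s h) else 0
  have hPN : ∀ z ∈ S', Gap (mat L z.1) (PN z.1) D₁ ∧ OpLe (PN z.1 - Pn z.1) (4 * e₁) := by
    intro z hz'
    have h : ∃ w ∈ S', w.1 = z.1 := ⟨z, hz', rfl⟩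
    simp only [PN, dif_pos h]
    exact Classical.choose_spec (hnew z.1 h)
  refine ⟨D₁, hD₁, L, B, C, PN, PB, PC, S', ?_⟩
  refine ⟨H3.sep_mono hL1 ?_, hmono1 _ hc.sepB, hmono1 _ hc.sepC, hL2, hc.hermB, hc.hermC,
    H3.dom_mono hL3 ?_ (hR G f hf).2.2.1, hmono2 _ hc.domB, hmono2 _ hc.domC, hcard,
    fun z hz' => (hPN z hz').1, fun z hz' => hc.gapB z (hS' hz'),
    fun z hz' => hc.gapC z (hS' hz'), ?_⟩
  · have := Finset.single_le_sum (fun i _ => abs_nonneg (K₁ i)) (Finset.mem_univ j)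
    linarith [le_abs_self (K₁ j)]
  · have := Finset.single_le_sum (fun i _ => abs_nonneg (Λ₁ i)) (Finset.mem_univ j)
    linarith [le_abs_self (Λ₁ j), abs_nonneg Λ]
  · intro z hz'
    obtain ⟨h1, h2, h3, h4, h5⟩ := hz z hz'
    have gB := hc.gapB z (hS' hz')
    have gC := hc.gapC z (hS' hz')
    obtain ⟨X, hX1, hX2, hX3⟩ := hBa G (PB z.2) DB gB.proj gB.rank
    obtain ⟨g, hg1, hg2, hg3⟩ := hBa G (PC (z.1 + z.2)) DC gC.proj gC.rank
    have hXn : ∀ i, 𝔼 y, ‖X i y‖ ^ 2 ≤ 1 := by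
      intro i
      have h := hX1 i i
      rw [if_pos rfl] at h
      have h' : ((𝔼 y, ‖X i y‖ ^ 2 : ℝ) : ℂ) = 1 := by
        rw [← h, Complex.ofReal_expect]
        refine Finset.expect_congr rfl fun y _ => ?_
        rw [Complex.mul_conj, Complex.normSq_eq_norm_sq]
      exact le_of_eq (by exact_mod_cast h')
    have hgn : ∀ i, 𝔼 y, ‖g i y‖ ^ 2 ≤ 1 := by
      intro i
      have h := hg1 i i
      rw [if_pos rfl] at h
      have h' : ((𝔼 y, ‖g i y‖ ^ 2 : ℝ) : ℂ) = 1 := by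
        rw [← h, Complex.ofReal_expect]
        refine Finset.expect_congr rfl fun y _ => ?_
        rw [Complex.mul_conj, Complex.normSq_eq_norm_sq]
      exact le_of_eq (by exact_mod_cast h')
    have hflat : ∀ i y, ‖X i y‖ ≤ 2 * K := fun i =>
      hF G (mat B z.2) (PB z.2) DB K hK.le ((hE G B K hc.sepB).2.1 z.2) gB (X i) (hX2 i) (hXn i)
    have hb := (hT G z.1 z.2 DA DB DC (fun _ _ => 0) X g 0 (PB z.2) (PC (z.1 + z.2))
      (by intro y y'; simp) hX3 hg3).2.1 (PN z.1 - Pn z.1) (4 * e₁) (2 * K) (hPN z hz').2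
      hflat hgn
    have hadd := Th_add_left z.1 z.2 (PN z.1 - Pn z.1) (Pn z.1) (PB z.2) (PC (z.1 + z.2))
    rw [sub_add_cancel] at hadd
    rw [hadd, Complex.add_re]
    have h7 := (abs_le.1 ((Complex.abs_re_le_norm _).trans hb)).1
    have h8 : 4 * e₁ * DB * DC * (2 * K) ^ 2 ≤ θ / 4 := by
      have h9 : e₁ ≤ θ / (16 * ((DB : ℝ) * DC * (2 * K) ^ 2 + 1)) := min_le_right _ _
      rw [le_div_iff₀ (by positivity)] at h9
      nlinarith
    linarith

end Pool.Agent.H45.SQ
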