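import Pool.Agent.H45.SQ.IT
import Pool.Agent.H45.SQ.RK1
import Pool.Agent.H45.SQ.DESC
import Pool.Agent.H45.SQ.STEP
import Pool.Agent.H45.SQ.STEP1
import Pool.Agent.H45.SQ.Bridge
import Pool.Agent.H85.SQ.ALT
import Pool.Agent.H85.SQ.REGH
import Pool.Agent.H97.SQ.ANCH
import Pool.Agent.H97.SQ.LIN
import Pool.Agent.H97.SQ.MUL
import Pool.Agent.H81.SQ.Back
import Pool.Agent.H81.SQ.Cube
import Pool.Agent.H37.SQ.BAS
import Pool.Agent.H37.SQ.LA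
import Pool.Agent.H37.SQ.RHO
import Pool.Agent.H19.SQ.CID
import Pool.Agent.H19.SQ.LEMC
import Pool.Agent.H19.SQ.RES
import Pool.Agent.H62.SQ1.CPOS
import Pool.Agent.H62.SQ1.CUBIC
import Pool.Agent.H62.SQ1.INC
import Pool.Agent.H62.SQ1.PIG
import Pool.Agent.H54.SQ.Cut
import Pool.Agent.H54.SQ.Cutp
import Pool.Agent.H54.SQ.Ini1
import Pool.Agent.H65.SQ.SHRP
import Pool.Agent.H65.SQ.M7
import Pool.Agent.H65.SQ.ONE
import Pool.Agent.H65.SQ.PERT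
import Pool.Agent.H42.SQ.ENT
import Pool.Agent.H42.SQ.LIP
import Pool.Agent.H42.SQ.THM
import Pool.Agent.H3.SQ.INIT
import Pool.Agent.H3.SQ.STA
import Pool.Agent.H3.SQ.SYM
import Pool.Agent.H35.SQ.OPT
import Pool.Agent.H35.SQ.TWI
import Pool.Agent.H35.SQ.THB
import Pool.Agent.H46.SQ.N9H
import Pool.Agent.H16.SQ.PCU
import Pool.Agent.H16.SQ.PTH
import Pool.Agent.H16.SQ.PTR
import Pool.Agent.H17.SQ.POLY
import Pool.Agent.H17.SQ.STB
import Pool.Agent.H17.SQ.T3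
import Pool.Agent.H31.SQ.MainC
import Pool.Agent.H31.SQ.FinC
import Pool.Agent.H31.SQ.LI10
import Pool.Agent.H62.SQ.CE
import Pool.Agent.H88.SQ.CEF
import Pool.Agent.H25.SQ.CNT
import Pool.Agent.H25.SQ.CNT1
import Pool.Agent.H25.SQ.FRS1
import Pool.Agent.H19.SQ.SplitCob
import Pool.Agent.H19.SQ.LP
import Pool.Agent.H24.SQ.DISC
import Pool.Agent.H62.SQ.FEXP
import Pool.Agent.H13.SQ.FRS
import Pool.Agent.H13.SQ.TCL
import Pool.Agent.H50.SQ.GVN0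
import Pool.Agent.H50.SQ.GVNH
import Pool.Agent.H50.SQ.REPL
import Pool.Agent.H24.SQ.INC
import Pool.Agent.H24.SQ.WREG
import Pool.Agent.H81.SQ.Loc
import Pool.Agent.H81.SQ.LPH
import Pool.Agent.H81.SQ.RR
import Pool.Agent.H3.SQ.OCT2
import Pool.Agent.H79.SQ.REG
import Pool.Agent.H79.SQ.RR1
import Pool.Agent.H88.SQ.RQ

/-!
# Assembly: 10 is a valid exponent for squares
-/

namespace Pool.Agent.H45.SQ

theorem t_opt : T_OPT := Pool.Agent.H35.SQ.opt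
theorem t_ent : T_ENT := Pool.Agent.H42.SQ.ent t_opt
theorem t_lip : T_LIP := Pool.Agent.H42.SQ.lip t_opt
theorem t_twi : T_TWI := Pool.Agent.H35.SQ.twi
theorem t_sharp : T_SHARP := Pool.Agent.H35.SQ.sharp_t
theorem t_thb : T_THB := Pool.Agent.H35.SQ.thb
theorem t_bas : T_BAS := Pool.Agent.H37.SQ.bas
theorem t_rho : T_RHO := Pool.Agent.H37.SQ.rhoT
theorem t_cutp : T_CUTP := Pool.Agent.H54.SQ.cutp
theorem t_mul : T_MUL := Pool.Agent.H97.SQ.mul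
theorem t_lin : T_LIN := Pool.Agent.H97.SQ.lin
theorem t_anch : T_ANCH := Pool.Agent.H97.SQ.anchT
theorem t_poly : T_POLY := Pool.Agent.H17.SQ.poly t_mul t_lin
theorem t_flat : T_FLAT := Pool.Agent.H54.SQ.flat
theorem t_sym : T_SYM := sym t_twi t_sharp t_rho
theorem t_alt : T_ALT := Pool.Agent.H85.SQ.Alt.alt Pool.Agent.H37.SQ.la t_bas t_thb t_twi
theorem t_sta : T_STA :=
  sta t_opt t_flat t_ent (Pool.Agent.H54.SQ.cut_t t_cutp) Pool.Agent.H62.SQ1.pig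
theorem t_stb : T_STB :=
  Pool.Agent.H17.SQ.STBm.stb t_cutp t_poly t_mul t_lin t_anch Pool.Agent.H65.SQ.shrp t_lip
    t_opt t_ent
theorem t_step1 : T_STEP1 :=
  step1 t_sta t_stb (Pool.Agent.H65.SQ.pert t_opt) t_thb t_bas t_flat t_ent t_opt t_rho
theorem t_step : T_STEP := step t_alt t_step1 t_sharp t_twi t_sym
theorem t_init : T_INIT :=
  init (Pool.Agent.H17.SQ.t3 t_rho Pool.Agent.H62.SQ1.cubic) (Pool.Agent.H54.SQ.ini1 t_cutp)
    Pool.Agent.H42.SQ.thm t_rho t_poly t_ent t_twi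
theorem t_desc : T_DESC := desc t_init t_step t_sym
theorem t_lemc : T_LEMC :=
  Pool.Agent.H19.SQ.lemc (Pool.Agent.H85.SQ.regh Pool.Agent.H62.SQ1.inc) Pool.Agent.H19.SQ.res
theorem t_cube : T_CUBE := Pool.Agent.H81.SQC.cube Pool.Agent.H62.SQ1.cpos

theorem t_it (hRKA : T_RKA) : T_IT :=
  it t_desc (rk1 hRKA t_cube) Pool.Agent.H46.SQ.n9h Pool.Agent.H81.SQB.back

open Pool.Agent.H81.SQ in
theorem part2 (hIT : Pool.Agent.H81.SQ.T_IT) : Pool.Agent.H36Sq.ValidExponent 10 := by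
  have ce : T_CE := Pool.Agent.H62.SQ.ce_props
  have cef : T_CEF := Pool.Agent.H88.SQ.cef ce
  have cob4 : T_COB4 := Pool.Agent.H19.SQ.cob4
  have rq : T_RQ := Pool.Agent.H88.SQ.rq Pool.Agent.H19.SQ.split
  have rr1 : T_RR1 := Pool.Agent.H79.SQ.rr1 rq cob4
  have rr : T_RR := Pool.Agent.H81.SQ.rr Pool.Agent.H13.SQ.tcl rr1
  have inc : Pool.Agent.H81.SQ.T_INC := Pool.Agent.H24.SQ.inc hIT cef Pool.Agent.H24.SQ.disc
  have wreg : T_WREG := Pool.Agent.H24.SQ.wreg inc cef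
  have reg : T_REG := Pool.Agent.H79.SQ.reg wreg rr cef
  have gvnh : T_GVNH := Pool.Agent.H50.SQ.gvnh Pool.Agent.H50.SQ.gvn0
  have repl : T_REPL := Pool.Agent.H50.SQ.repl gvnh
  have frs : T_FRS := Pool.Agent.H13.SQ.frs Pool.Agent.H25.SQ.frs1
  have lph : T_LPH := Pool.Agent.H81.SQ.lph Pool.Agent.H19.SQ.lp
  have offd : T_OFFD := Pool.Agent.H81.SQ.offd lph
  have oct2 : T_OCT2 := Pool.Agent.H81.SQ.oct2 Pool.Agent.H81.SQ.oct
  have tri : T_TRI := Pool.Agent.H81.SQ.tri oct2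
  have fexp : T_FEXP := Pool.Agent.H62.SQ.fexp
  have cnt : T_CNT := Pool.Agent.H25.SQ.cnt offd oct2 fexp
  have cnt1 : T_CNT1 := Pool.Agent.H25.SQ.cnt1 lph tri fexp
  exact Pool.Agent.H31.SQ.finc 10 (Pool.Agent.H31.SQ.mainhc reg frs repl cef cnt cnt1 10
    (by norm_num) Pool.Agent.H31.SQ.li10 Pool.Agent.H81.SQ.loc)

theorem valid_ten (hRKA : T_RKA) : Pool.Agent.H36Sq.ValidExponent 10 :=
  part2 (bridge (t_it hRKA))

end Pool.Agent.H45.SQ
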