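import Mathlib

/-!
# Squares in `F_2^n × F_2^n` : definitions

`G` is a finite vector space over `ZMod 2`; `N = card G`. Averages are `𝔼`.
A family of kernels is a function `L o u v`; its matrix of degree `s` is
`(L.mat s) y y' = N⁻¹ * L (y + y') y (y + s)`.
-/

namespace Pool.Agent.H45.SQ

open Finset
open scoped BigOperators ComplexConjugate

/-- Families of kernels, `L o u v` : `o` offset, `u`, `v` two rows. -/
abbrev Fam (G : Type) := G → G → G → ℂ

/-- The sign `(-1)^a`. -/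
noncomputable def sg (a : ZMod 2) : ℂ := if a = 0 then 1 else -1

/-- Bilinear forms over `ZMod 2`. -/
abbrev Bil (G : Type) [AddCommGroup G] [Module (ZMod 2) G] : Type :=
  G →ₗ[ZMod 2] G →ₗ[ZMod 2] ZMod 2

section Defs

variable {G : Type} [AddCommGroup G] [Fintype G]

/-- The matrix of degree `s` of a family. -/
noncomputable def mat (L : Fam G) (s : G) : Matrix G G ℂ :=
  fun y y' => ((Fintype.card G : ℂ))⁻¹ * L (y + y') y (y + s)

/-- Separated families of cost at most `C`. -/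
def Sep (C : ℝ) (L : Fam G) : Prop :=
  ∃ (Ω : Type) (_ : Fintype Ω) (c : Ω → ℂ) (a b : Ω → G → G → ℂ),
    (∀ w o u, ‖a w o u‖ ≤ 1) ∧ (∀ w o u, ‖b w o u‖ ≤ 1) ∧ (∑ w, ‖c w‖) ≤ C ∧
    ∀ o u v, L o u v = ∑ w, c w * a w o u * b w o v

/-- Hermitian families (all matrices are Hermitian). -/
def Herm (L : Fam G) : Prop := ∀ o u v, conj (L o u v) = L o (u + o) (v + o)

/-- Product of families (matrices are multiplied degree by degree). -/
noncomputable def mulF (L L' : Fam G) : Fam G :=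
  fun o u v => 𝔼 p, L p u v * L' (o + p) (u + p) (v + p)

/-- The reflected conjugate family. -/
noncomputable def sharp (L : Fam G) : Fam G := fun o u v => conj (L o v u)

/-- The anchored family. -/
noncomputable def anch (t₀ : G) (X₀ : G → ℂ) (L : Fam G) : Fam G :=
  fun o u v => conj (X₀ v) * X₀ (v + o) * conj (L o (v + t₀) u)

/-- The basic family attached to `f`. -/
noncomputable def rho (f : G → G → ℂ) : Fam G :=
  fun o u v => 𝔼 x, (f x u * conj (f (x + o) (u + o))) * conj (f x v * conj (f (x + o) (v + o)))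

/-- Eighth power of the directional (three directions) uniformity norm. -/
noncomputable def U8 (f : G → G → ℂ) : ℝ := 𝔼 o, 𝔼 u, 𝔼 v, ‖rho f o u v‖ ^ 2

/-- `‖M‖_op ≤ c` for the `ℓ²` operator norm. -/
def OpLe (M : Matrix G G ℂ) (c : ℝ) : Prop :=
  0 ≤ c ∧ ∀ g : G → ℂ, ∑ y, ‖M.mulVec g y‖ ^ 2 ≤ c ^ 2 * ∑ y, ‖g y‖ ^ 2

/-- All entries are at most `c / N`. -/
def EntLe (M : Matrix G G ℂ) (c : ℝ) : Prop := ∀ y y', ‖M y y'‖ ≤ c / (Fintype.card G : ℝ)

/-- The quadratic form `⟨g, M g⟩` (real part). -/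
noncomputable def qf (M : Matrix G G ℂ) (g : G → ℂ) : ℝ :=
  (∑ y, conj (g y) * M.mulVec g y).re

/-- Squared Hilbert-Schmidt norm. -/
noncomputable def hsq (M : Matrix G G ℂ) : ℝ := ∑ y, ∑ y', ‖M y y'‖ ^ 2

/-- Domination by `rho f`. -/
def Dom (f : G → G → ℂ) (Λ : ℝ) (L : Fam G) : Prop :=
  ∀ (s : G) (g : G → ℂ), ∑ y, ‖(mat L s).mulVec g y‖ ^ 2 ≤ Λ * qf (mat (rho f) s) g

/-- Orthogonal projections. -/
def Proj (P : Matrix G G ℂ) : Prop := P.IsHermitian ∧ P * P = P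

/-- `P` is the gap projection of `M`, of rank `D`. -/
structure Gap (M P : Matrix G G ℂ) (D : ℕ) : Prop where
  proj : Proj P
  rank : P.trace = (D : ℂ)
  comm : P * M = M * P
  close : OpLe (M - P) (1 / 4)

/-- The trilinear form `Theta` on matrices, for the degrees `s, t, s + t`. -/
noncomputable def Th (s t : G) (A B C : Matrix G G ℂ) : ℂ :=
  (Fintype.card G : ℂ) *
    ∑ y, ∑ y', A y y' * B (y + s) (y' + s) * C (y + s + t) (y' + s + t)

/-- The trilinear form on functions. -/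
noncomputable def Tri (s t : G) (e X g : G → ℂ) : ℂ := 𝔼 y, e y * X (y + s) * g (y + s + t)

/-- A matrix transported to the reflected family. -/
noncomputable def twist (s : G) (P : Matrix G G ℂ) : Matrix G G ℂ :=
  fun y y' => conj (P (y + s) (y' + s))

/-- The anchored matrix. -/
noncomputable def Rm (s t : G) (X : G → ℂ) (C : Matrix G G ℂ) : Matrix G G ℂ :=
  fun y y' => conj (X (y + s)) * X (y' + s) * conj (C (y + s + t) (y' + s + t))

/-- The anchored form with anchor `X` is not scalar on the range of `P`. -/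
def Spread (ξ : ℝ) (s t : G) (P C : Matrix G G ℂ) (X : G → ℂ) : Prop :=
  ∃ v v' : G → ℂ, P.mulVec v = v ∧ P.mulVec v' = v' ∧ ∑ y, ‖v y‖ ^ 2 = 1 ∧
    ∑ y, ‖v' y‖ ^ 2 = 1 ∧ ξ ≤ qf (Rm s t X C) v - qf (Rm s t X C) v'

/-- Configurations: a positive proportion `p` of pairs of degrees carries gap projections of
ranks `DA`, `DB`, `DC` with `Theta ≥ θ`. -/
structure Conf (f : G → G → ℂ) (K Λ θ p : ℝ) (DA DB DC : ℕ) (A B C : Fam G)
    (PA PB PC : G → Matrix G G ℂ) (S : Finset (G × G)) : Prop where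
  sepA : Sep K A
  sepB : Sep K B
  sepC : Sep K C
  hermA : Herm A
  hermB : Herm B
  hermC : Herm C
  domA : Dom f Λ A
  domB : Dom f Λ B
  domC : Dom f Λ C
  card : p * (Fintype.card G : ℝ) ^ 2 ≤ S.card
  gapA : ∀ z ∈ S, Gap (mat A z.1) (PA z.1) DA
  gapB : ∀ z ∈ S, Gap (mat B z.2) (PB z.2) DB
  gapC : ∀ z ∈ S, Gap (mat C (z.1 + z.2)) (PC (z.1 + z.2)) DC
  theta : ∀ z ∈ S, θ ≤ (Th z.1 z.2 (PA z.1) (PB z.2) (PC (z.1 + z.2))).re

/-- Existence of a configuration. -/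
def HasConf (f : G → G → ℂ) (K Λ θ p : ℝ) (DA DB DC : ℕ) : Prop :=
  ∃ (A B C : Fam G) (PA PB PC : G → Matrix G G ℂ) (S : Finset (G × G)),
    Conf f K Λ θ p DA DB DC A B C PA PB PC S

/-- The elements of a subspace as a finset. -/
noncomputable def hs [Module (ZMod 2) G] (H : Submodule (ZMod 2) G) : Finset G := by
  classical exact Finset.univ.filter (fun x => x ∈ H)

/-- Planar statistics of cost at most `C` with rows indexed by `ι`. -/
def Planar {ι : Type} [Fintype ι] (C : ℝ) (g : (ι → G) → ℂ) : Prop :=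
  ∃ (Ω : Type) (_ : Fintype Ω) (c : Ω → ℂ) (φ : Ω → ι → G → ℂ),
    (∀ w i x, ‖φ w i x‖ ≤ 1) ∧ (∑ w, ‖c w‖) ≤ C ∧
    ∀ r, g r = ∑ w, c w * 𝔼 y, ∏ i, φ w i (r i + y)

/-- The conjugation `C^k`. -/
noncomputable def cj (k : ℕ) (z : ℂ) : ℂ := if Even k then z else conj z

/-- The cube average of `φ`: eighth power of the directional norm, six rows. -/
noncomputable def Oct (φ : G → G → ℂ) : ℂ :=
  𝔼 a : Fin 2 → G, 𝔼 b : Fin 2 → G, 𝔼 r : Fin 2 → G,
    ∏ i : Fin 2, ∏ j : Fin 2, ∏ k : Fin 2,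
      cj (i.val + j.val + k.val) (φ (a i + b j) (b j + r k))

/-- The cube average over a subspace. -/
noncomputable def OctH [Module (ZMod 2) G] (H : Submodule (ZMod 2) G) (φ : G → G → ℂ) : ℂ :=
  𝔼 a ∈ Fintype.piFinset (fun _ : Fin 2 => hs H), 𝔼 b ∈ Fintype.piFinset (fun _ : Fin 2 => hs H),
    𝔼 r ∈ Fintype.piFinset (fun _ : Fin 2 => hs H),
      ∏ i : Fin 2, ∏ j : Fin 2, ∏ k : Fin 2,
        cj (i.val + j.val + k.val) (φ (a i + b j) (b j + r k))

/-- The cube statistic of three families (rows `r (0,i)`, `r (1,j)`, `r (2,k)`), as a function of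
the six rows; `o` runs over the offsets of the eight vertices. For an edge of the cube the even
end comes first. -/
noncomputable def Cub (A B C : Fam G) (r : Fin 3 × Fin 2 → G) : ℂ :=
  𝔼 o : Fin 2 → Fin 2 → Fin 2 → G,
    (∏ i : Fin 2, ∏ j : Fin 2,
      A (o i j 0 + o i j 1) (r (0, i) + o i j (i + j)) (r (1, j) + o i j (i + j))) *
    (∏ j : Fin 2, ∏ k : Fin 2,
      B (o 0 j k + o 1 j k) (r (1, j) + o (j + k) j k) (r (2, k) + o (j + k) j k)) *
    (∏ k : Fin 2, ∏ i : Fin 2,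
      C (o i 0 k + o i 1 k) (r (2, k) + o i (i + k) k) (r (0, i) + o i (i + k) k))

end Defs

/-- `q` is a cut polynomial: small below `a`, close to `1` above `b`, on `[-R, R]`. -/
def CutPoly (R a b ε : ℝ) (q : Polynomial ℝ) : Prop :=
  q.coeff 0 = 0 ∧ q.coeff 1 = 0 ∧ (∀ x, -R ≤ x → x ≤ a → |q.eval x| ≤ ε * x ^ 2) ∧
    (∀ x, b ≤ x → x ≤ R → |q.eval x - 1| ≤ ε)

end Pool.Agent.H45.SQ
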