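import Mathlib

/-!
# The directional uniformity norm for the directions `(1,0)`, `(0,1)`, `(1,1)`
-/

namespace Pool.Agent.H45.SQ

open Finset
open scoped BigOperators ComplexConjugate

/-- The eighth power of the uniformity norm of `f : G × G → ℂ` with the directions `(1,0)`,
`(0,1)`, `(1,1)`: the average over all points `(x,y)` and all `a, b, c` of the product of the
values of `f` or of its conjugate at the eight points `(x,y) + i (a,0) + j (0,b) + k (c,c)`,
`i, j, k` in `{0,1}`; the conjugate is taken when `i + j + k` is odd. -/
noncomputable def dirNorm8 {G : Type} [AddCommGroup G] [Fintype G] (f : G → G → ℂ) : ℂ :=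
  𝔼 x, 𝔼 y, 𝔼 a, 𝔼 b, 𝔼 c,
    f x y * conj (f (x + a) y) * conj (f x (y + b)) * conj (f (x + c) (y + c)) *
      f (x + a) (y + b) * f (x + a + c) (y + c) * f (x + c) (y + b + c) *
      conj (f (x + a + c) (y + b + c))

end Pool.Agent.H45.SQ
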