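import Pool.Agent.H45.SQ.Final
import Pool.Agent.H45.SQ.NormDef

/-!
# The directional uniformity norm and `U8`
-/

namespace Pool.Agent.H45.SQ

open Finset
open scoped BigOperators ComplexConjugate

theorem u8_eq {G : Type} [AddCommGroup G] [Fintype G] (f : G → G → ℂ) :
    ((U8 f : ℝ) : ℂ) = dirNorm8 f := by
  have h1 : ∀ o u v : G, ((‖rho f o u v‖ ^ 2 : ℝ) : ℂ) = 𝔼 x, 𝔼 x',
      ((f x u * conj (f (x + o) (u + o))) * conj (f x v * conj (f (x + o) (v + o)))) *
      conj ((f x' u * conj (f (x' + o) (u + o))) * conj (f x' v * conj (f (x' + o) (v + o)))) := by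
    intro o u v
    have h2 : ((‖rho f o u v‖ ^ 2 : ℝ) : ℂ) = rho f o u v * conj (rho f o u v) := by
      rw [Complex.mul_conj, Complex.normSq_eq_norm_sq]
    rw [h2]
    unfold rho
    rw [map_expect, Finset.expect_mul_expect]
  have h0 : ((U8 f : ℝ) : ℂ) = 𝔼 o, 𝔼 u, 𝔼 v, ((‖rho f o u v‖ ^ 2 : ℝ) : ℂ) := by
    unfold U8
    simp only [Fintype.expect_eq_sum_div_card]
    push_cast
    rfl
  rw [h0]
  simp only [h1]
  -- now reorder
  have swap : ∀ (F : G → G → G → G → G → ℂ),
      𝔼 o, 𝔼 u, 𝔼 v, 𝔼 x, 𝔼 x', F o u v x x' = 𝔼 x, 𝔼 u, 𝔼 a, 𝔼 b, 𝔼 o, F o u (u + b) x (x + a) := by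
    intro F
    have s1 : ∀ o u : G, 𝔼 v, 𝔼 x, 𝔼 x', F o u v x x' = 𝔼 b, 𝔼 x, 𝔼 a, F o u (u + b) x (x + a) := by
      intro o u
      symm
      apply Fintype.expect_equiv (Equiv.addLeft u)
      intro b
      apply Finset.expect_congr rfl
      intro x _
      apply Fintype.expect_equiv (Equiv.addLeft x)
      intro a
      rfl
    simp only [s1]
    rw [Finset.expect_comm]
    have s2 : ∀ u : G, 𝔼 o, 𝔼 b, 𝔼 x, 𝔼 a, F o u (u + b) x (x + a) =
        𝔼 x, 𝔼 a, 𝔼 b, 𝔼 o, F o u (u + b) x (x + a) := by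
      intro u
      have e1 : ∀ o : G, 𝔼 b, 𝔼 x, 𝔼 a, F o u (u + b) x (x + a) =
          𝔼 x, 𝔼 a, 𝔼 b, F o u (u + b) x (x + a) := by
        intro o
        rw [Finset.expect_comm]
        apply Finset.expect_congr rfl
        intro x _
        rw [Finset.expect_comm]
      simp only [e1]
      rw [Finset.expect_comm]
      apply Finset.expect_congr rfl
      intro x _
      rw [Finset.expect_comm]
      apply Finset.expect_congr rfl
      intro a _
      rw [Finset.expect_comm]
    simp only [s2]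
    rw [Finset.expect_comm]
  rw [swap]
  unfold dirNorm8
  apply Finset.expect_congr rfl
  intro x _
  apply Finset.expect_congr rfl
  intro y _
  apply Finset.expect_congr rfl
  intro a _
  apply Finset.expect_congr rfl
  intro b _
  apply Finset.expect_congr rfl
  intro c _
  simp only [map_mul, Complex.conj_conj]
  ring

theorem u8_re {G : Type} [AddCommGroup G] [Fintype G] (f : G → G → ℂ) :
    (dirNorm8 f).re = U8 f := by
  rw [← u8_eq, Complex.ofReal_re]

end Pool.Agent.H45.SQ
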