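import Pool.Agent.H45.SQ.RKA2

/-!
# Module RKA of the board sq_modules (MP_22a11a_co)
-/

namespace Pool.Agent.H45.SQ.RKA

open Finset Polynomial Pool.Agent.H45.SQ
open scoped BigOperators ComplexConjugate

/-- indicator of the bad degrees -/
noncomputable def iB {G : Type} [AddCommGroup G] [DecidableEq G] (u₀ : G) (T : Finset G) (x : G) : ℝ :=
  if u₀ + x ∈ T then 0 else 1

lemma iB_nonneg {G : Type} [AddCommGroup G] [DecidableEq G] (u₀ : G) (T : Finset G) (x : G) :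
    0 ≤ iB u₀ T x := by
  unfold iB
  split_ifs <;> norm_num

lemma iB_lt {G : Type} [AddCommGroup G] [DecidableEq G] {u₀ : G} {T : Finset G} {x : G}
    (h : iB u₀ T x < 1) : u₀ + x ∈ T := by
  unfold iB at h
  by_contra h1
  rw [if_neg h1] at h
  exact lt_irrefl _ h

lemma sum2_lt {c : Fin 2 → Fin 2 → ℝ} (h0 : ∀ i j, 0 ≤ c i j) (i j : Fin 2) :
    c i j ≤ ∑ i : Fin 2, ∑ j : Fin 2, c i j := by
  calc c i j ≤ ∑ j : Fin 2, c i j :=
        Finset.single_le_sum (f := fun j => c i j) (fun j _ => h0 i j) (Finset.mem_univ j)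
    _ ≤ _ := Finset.single_le_sum (f := fun i => ∑ j : Fin 2, c i j)
        (fun i _ => Finset.sum_nonneg (fun j _ => h0 i j)) (Finset.mem_univ i)

lemma pair_bad {G : Type} [AddCommGroup G] [Fintype G] [DecidableEq G] [Module (ZMod 2) G]
    (H : Submodule (ZMod 2) G) (u₀ : G) (T : Finset G) (hT : ∀ s ∈ T, s + u₀ ∈ H) (ε : ℝ)
    (hc : (1 - ε) * ((hs H).card : ℝ) ≤ T.card) (a a' : Fin 3) (haa : a ≠ a') :
    𝔼 h : Fin 3 × Fin 2 → H, ∑ i : Fin 2, ∑ j : Fin 2,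
      iB u₀ T ((h (a, i) : G) + (h (a', j) : G)) ≤ 4 * ε := by
  rw [Finset.expect_sum_comm]
  have h1 : ∀ i : Fin 2, 𝔼 h : Fin 3 × Fin 2 → H, ∑ j : Fin 2,
      iB u₀ T ((h (a, i) : G) + (h (a', j) : G)) ≤ 2 * ε := by
    intro i
    rw [Finset.expect_sum_comm]
    have h2 : ∀ j : Fin 2, 𝔼 h : Fin 3 × Fin 2 → H,
        iB u₀ T ((h (a, i) : G) + (h (a', j) : G)) ≤ ε := by
      intro j
      have hne : ((a, i) : Fin 3 × Fin 2) ≠ (a', j) := by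
        intro h
        exact haa (congrArg Prod.fst h)
      have := pushf (A := Fin 3 × Fin 2 → H) (B := H) (fun h => h (a, i) + h (a', j))
        (by intro x y; simp only [Pi.add_apply]; abel) (fun k => Pi.single (a, i) k)
        (by intro y; simp [Pi.single_eq_of_ne (Ne.symm hne)]) (fun k => iB u₀ T (k : G))
      simp only [Submodule.coe_add] at this
      rw [this]
      exact bad_le H u₀ T hT ε hc
    calc ∑ j : Fin 2, 𝔼 h : Fin 3 × Fin 2 → H, iB u₀ T ((h (a, i) : G) + (h (a', j) : G))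
        ≤ ∑ _j : Fin 2, ε := Finset.sum_le_sum (fun j _ => h2 j)
      _ = 2 * ε := by simp
  calc ∑ i : Fin 2, 𝔼 h : Fin 3 × Fin 2 → H, ∑ j : Fin 2,
        iB u₀ T ((h (a, i) : G) + (h (a', j) : G)) ≤ ∑ _i : Fin 2, 2 * ε :=
        Finset.sum_le_sum (fun i _ => h1 i)
    _ = 4 * ε := by
      simp
      ring

lemma proj_bad {G : Type} [AddCommGroup G] [Fintype G] [DecidableEq G] [Module (ZMod 2) G]
    (H : Submodule (ZMod 2) G) (u₀ : G) (T : Finset G) (hT : ∀ s ∈ T, s + u₀ ∈ H) (ε : ℝ)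
    (hc : (1 - ε) * ((hs H).card : ℝ) ≤ T.card) (π : H × H → H)
    (hπ : ∀ x y, π (x + y) = π x + π y) (R : H → H × H) (hR : ∀ y, π (R y) = y) :
    𝔼 z : H × H, iB u₀ T (π z : G) ≤ ε := by
  have := pushf π hπ R hR (fun k : H => iB u₀ T (k : G))
  rw [this]
  exact bad_le H u₀ T hT ε hc

/-- from the family to the kernel -/
lemma fam_ker {G : Type} [AddCommGroup G] [Fintype G] [Module (ZMod 2) G] (F : Fam G)
    (s o u : G) : F o u (u + s) = (Fintype.card G : ℂ) * mat F s u (u + o) := by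
  have hN : (Fintype.card G : ℂ) ≠ 0 := by
    have : Fintype.card G ≠ 0 := Fintype.card_ne_zero
    exact_mod_cast this
  unfold mat
  rw [← mul_assoc, mul_inv_cancel₀ hN, one_mul]
  have : u + (u + o) = o := by
    rw [← add_assoc, Pool.Agent.H65.SQ.add_self_G, zero_add]
  rw [this]

lemma conv_pair {G ι : Type} [AddCommGroup G] [Fintype G] [Module (ZMod 2) G]
    [Fintype ι] [DecidableEq ι] (H : Submodule (ZMod 2) G) (a a' : ι) (hne : a ≠ a')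
    (cb : ι → G) (u₀ : G) (hr : ∀ h : ι → G, (cb + h) a + (cb + h) a' = u₀ + (h a + h a'))
    (Φ : G → ℂ) (κ : ℝ)
    (hq : 𝔼 h ∈ Fintype.piFinset (fun _ : ι => hs H), 𝔼 h' ∈ Fintype.piFinset (fun _ : ι => hs H),
      ‖Φ ((cb + h) a + (cb + h) a') - Φ ((cb + h') a + (cb + h') a')‖ ^ 2 ≤ κ) :
    𝔼 k ∈ hs H, 𝔼 k' ∈ hs H, ‖Φ (u₀ + k) - Φ (u₀ + k')‖ ^ 2 ≤ κ := by
  rw [← nc_pair H a a' hne (fun x y => ‖Φ (u₀ + x) - Φ (u₀ + y)‖ ^ 2)]
  simp only [hr] at hq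
  exact hq

theorem rka (hLEMC : T_LEMC) (hPTR : T_PTR) (hPTH : T_PTH) (hPCU : T_PCU) (hCID : T_CID)
    (hEIG : T_EIG) (hPOLY : T_POLY) (hMUL : T_MUL) (hLIN : T_LIN) (hENT : T_ENT)
    (hSHRP : T_SHRP) (hCUTP : T_CUTP) : T_RKA := by
  classical
  intro K Λ θ p ε hK hθ hp hε
  obtain ⟨b, hb1, h4K⟩ : ∃ b : ℝ, 1 ≤ b ∧ 4 * K ≤ b :=
    ⟨max (4 * K) 1, le_max_right _ _, le_max_left _ _⟩
  have hb0 : 0 ≤ b := by linarith
  obtain ⟨ε₁, hε₁, hc1, hc2, hc3, hc4, hc5⟩ := consts b θ p ε hb1 hθ hp hε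
  have hε₁1 : ε₁ ≤ 1 := by linarith
  obtain ⟨h, hh0, hh1, ⟨R, τ, hKR, hR1, hcut, hτ⟩, hone⟩ := one2 hCUTP K ε₁ hK hε₁
  obtain ⟨κ₁, hκ₁, hone⟩ := hone p hp
  obtain ⟨C', hpoly⟩ := hPOLY h hh0 K
  obtain ⟨κ, hκ0, hκ1, hκ2, hκ3⟩ : ∃ κ : ℝ, 0 < κ ∧ κ ≤ κ₁ ∧ κ ≤ p / 2 * (ε / 2) ^ 2 ∧
      κ ≤ 1 / 2 * (ε / 2) ^ 2 :=
    ⟨min κ₁ (min (p / 2 * (ε / 2) ^ 2) (1 / 2 * (ε / 2) ^ 2)), by positivity, min_le_left _ _,
      (min_le_right _ _).trans (min_le_left _ _), (min_le_right _ _).trans (min_le_right _ _)⟩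
  obtain ⟨cc, hcc1, hcc2, hcc3, hcc4⟩ : ∃ cc : ℝ, C' * C' ≤ cc ∧
      (C' + |(-1 : ℝ)| * (C' * C')) * (C' + |(-1 : ℝ)| * (C' * C')) ≤ cc ∧
      C' * C' * C' ≤ cc ∧ C' ^ 12 ≤ cc :=
    ⟨max (max (C' * C') ((C' + |(-1 : ℝ)| * (C' * C')) * (C' + |(-1 : ℝ)| * (C' * C'))))
      (max (C' * C' * C') (C' ^ 12)), (le_max_left _ _).trans (le_max_left _ _),
      (le_max_right _ _).trans (le_max_left _ _), (le_max_left _ _).trans (le_max_right _ _),
      (le_max_right _ _).trans (le_max_right _ _)⟩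
  obtain ⟨n₀, hlem⟩ := hLEMC (Fin 3 × Fin 2) 8 cc κ hκ0
  refine ⟨n₀, ?_⟩
  intro G _ _ _ _ f hf hconf
  obtain ⟨A, B, C, PA, PB, PC, S, hc⟩ := hconf
  obtain ⟨FA, hFAs, hFAh, hFA⟩ := hpoly G A hc.sepA hc.hermA
  obtain ⟨FB, hFBs, hFBh, hFB⟩ := hpoly G B hc.sepB hc.hermB
  obtain ⟨FC, hFCs, hFCh, hFC⟩ := hpoly G C hc.sepC hc.hermC
  -- the eight statistics
  have n01 : ((0, 0) : Fin 3 × Fin 2) ≠ (1, 0) := by decide
  have n12 : ((1, 0) : Fin 3 × Fin 2) ≠ (2, 0) := by decide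
  have n02 : ((0, 0) : Fin 3 × Fin 2) ≠ (2, 0) := by decide
  have sA := stat_planar hMUL hLIN hPTR FA C' hFAs ((0, 0) : Fin 3 × Fin 2) (1, 0) n01
  have sB := stat_planar hMUL hLIN hPTR FB C' hFBs ((1, 0) : Fin 3 × Fin 2) (2, 0) n12
  have sC := stat_planar hMUL hLIN hPTR FC C' hFCs ((0, 0) : Fin 3 × Fin 2) (2, 0) n02
  have sT := hPTH G (Fin 3 × Fin 2) (0, 0) (1, 0) (2, 0) FA FB FC C' C' C' n01 n12 n02
    hFAs hFBs hFCs
  have sQ := hPCU G FA FB FC C' hFAs hFBs hFCs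
  obtain ⟨H, hHcard, hH⟩ := hlem G ![_, _, _, _, _, _, _, _] (by
    intro j
    fin_cases j
    · exact Planar.mono sA.1 hcc1
    · exact Planar.mono sA.2 hcc2
    · exact Planar.mono sB.1 hcc1
    · exact Planar.mono sB.2 hcc2
    · exact Planar.mono sC.1 hcc1
    · exact Planar.mono sC.2 hcc2
    · exact Planar.mono sT hcc3
    · exact Planar.mono sQ hcc4)
  obtain ⟨s₀, t₀, hst⟩ := base S p hc.card H
  set cb : Fin 3 × Fin 2 → G := fun q => if q.1 = 0 then 0 else if q.1 = 1 then s₀ else s₀ + t₀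
    with hcb
  have r01 : ∀ (h : Fin 3 × Fin 2 → G) (i j : Fin 2), (cb + h) (0, i) + (cb + h) (1, j) =
      s₀ + (h (0, i) + h (1, j)) := by
    intro h i j
    simp only [Pi.add_apply, hcb]
    simp
    abel
  have r12 : ∀ (h : Fin 3 × Fin 2 → G) (i j : Fin 2), (cb + h) (1, i) + (cb + h) (2, j) =
      t₀ + (h (1, i) + h (2, j)) := by
    intro h i j
    simp only [Pi.add_apply, hcb]
    simp
    have : s₀ + h (1, i) + (s₀ + t₀ + h (2, j)) = (s₀ + s₀) + (t₀ + (h (1, i) + h (2, j))) := by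
      abel
    rw [this, Pool.Agent.H65.SQ.add_self_G, zero_add]
  have r02 : ∀ (h : Fin 3 × Fin 2 → G) (i j : Fin 2), (cb + h) (0, i) + (cb + h) (2, j) =
      (s₀ + t₀) + (h (0, i) + h (2, j)) := by
    intro h i j
    simp only [Pi.add_apply, hcb]
    simp
    abel
  have r02' : ∀ (h : Fin 3 × Fin 2 → G) (i j k : Fin 2),
      (s₀ + t₀) + (h (0, i) + h (2, k)) =
      s₀ + (h (0, i) + h (1, j)) + (t₀ + (h (1, j) + h (2, k))) := by
    intro h i j k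
    have : s₀ + (h (0, i) + h (1, j)) + (t₀ + (h (1, j) + h (2, k))) =
      (h (1, j) + h (1, j)) + ((s₀ + t₀) + (h (0, i) + h (2, k))) := by abel
    rw [this, Pool.Agent.H65.SQ.add_self_G, zero_add]
  -- near constancy of the six trace statistics
  have q0 := conv_pair H (0, 0) (1, 0) n01 cb s₀ (fun h => r01 h 0 0)
    (fun x => (mat FA x * mat FA x).trace) κ (hH 0 cb)
  have q1 := conv_pair H (0, 0) (1, 0) n01 cb s₀ (fun h => r01 h 0 0)
    (fun x => ((mat FA x - mat FA x * mat FA x) * (mat FA x - mat FA x * mat FA x)).trace) κ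
    (hH 1 cb)
  have q2 := conv_pair H (1, 0) (2, 0) n12 cb t₀ (fun h => r12 h 0 0)
    (fun x => (mat FB x * mat FB x).trace) κ (hH 2 cb)
  have q3 := conv_pair H (1, 0) (2, 0) n12 cb t₀ (fun h => r12 h 0 0)
    (fun x => ((mat FB x - mat FB x * mat FB x) * (mat FB x - mat FB x * mat FB x)).trace) κ
    (hH 3 cb)
  have q4 := conv_pair H (0, 0) (2, 0) n02 cb (s₀ + t₀) (fun h => r02 h 0 0)
    (fun x => (mat FC x * mat FC x).trace) κ (hH 4 cb)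
  have q5 := conv_pair H (0, 0) (2, 0) n02 cb (s₀ + t₀) (fun h => r02 h 0 0)
    (fun x => ((mat FC x - mat FC x * mat FC x) * (mat FC x - mat FC x * mat FC x)).trace) κ
    (hH 5 cb)
  -- the sets of degrees
  set SA : Finset G := Finset.univ.filter (fun s => s + s₀ ∈ H ∧ ∃ P, Gap (mat A s) P 1) with hSA
  set SB : Finset G := Finset.univ.filter (fun s => s + t₀ ∈ H ∧ ∃ P, Gap (mat B s) P 1) with hSB
  set SC : Finset G := Finset.univ.filter
    (fun s => s + (s₀ + t₀) ∈ H ∧ ∃ P, Gap (mat C s) P 1) with hSC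
  have back : ∀ (u : G) (k : H), u + (k : G) + u ∈ H := by
    intro u k
    have : u + (k : G) + u = (u + u) + k := by abel
    rw [this, Pool.Agent.H65.SQ.add_self_G, zero_add]
    exact k.2
  have dA : p * ((hs H).card : ℝ) ≤ SA.card := by
    refine dens_proj H s₀ SA (fun s hs => (Finset.mem_filter.mp hs).2.1) Prod.fst (fun _ _ => rfl)
      (fun y => (y, 0)) (fun _ => rfl) _ p hst ?_
    intro z
    by_cases hz : (s₀ + (z.1 : G), t₀ + (z.2 : G)) ∈ S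
    · have : s₀ + (z.1 : G) ∈ SA :=
        Finset.mem_filter.mpr ⟨Finset.mem_univ _, back s₀ z.1, ⟨_, hc.gapA _ hz⟩⟩
      rw [if_pos hz, if_pos this]
    · rw [if_neg hz]
      split_ifs <;> norm_num
  have dB : p * ((hs H).card : ℝ) ≤ SB.card := by
    refine dens_proj H t₀ SB (fun s hs => (Finset.mem_filter.mp hs).2.1) Prod.snd (fun _ _ => rfl)
      (fun y => (0, y)) (fun _ => rfl) _ p hst ?_
    intro z
    by_cases hz : (s₀ + (z.1 : G), t₀ + (z.2 : G)) ∈ S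
    · have : t₀ + (z.2 : G) ∈ SB :=
        Finset.mem_filter.mpr ⟨Finset.mem_univ _, back t₀ z.2, ⟨_, hc.gapB _ hz⟩⟩
      rw [if_pos hz, if_pos this]
    · rw [if_neg hz]
      split_ifs <;> norm_num
  have sumz : ∀ z : H × H, s₀ + (z.1 : G) + (t₀ + (z.2 : G)) = s₀ + t₀ + ((z.1 + z.2 : H) : G) := by
    intro z
    rw [Submodule.coe_add]
    abel
  have dC : p * ((hs H).card : ℝ) ≤ SC.card := by
    refine dens_proj H (s₀ + t₀) SC (fun s hs => (Finset.mem_filter.mp hs).2.1)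
      (fun z => z.1 + z.2) (by intro x y; simp only [Prod.fst_add, Prod.snd_add]; abel)
      (fun y => (y, 0)) (fun _ => by simp) _ p hst ?_
    intro z
    by_cases hz : (s₀ + (z.1 : G), t₀ + (z.2 : G)) ∈ S
    · have h1 := hc.gapC _ hz
      simp only [sumz] at h1
      have : s₀ + t₀ + ((z.1 + z.2 : H) : G) ∈ SC :=
        Finset.mem_filter.mpr ⟨Finset.mem_univ _, back (s₀ + t₀) (z.1 + z.2), ⟨_, h1⟩⟩
      rw [if_pos hz, if_pos this]
    · rw [if_neg hz]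
      split_ifs <;> norm_num
  obtain ⟨eA, TA, hTA1, hTA2, hTA3, hTA4⟩ := hone G A H s₀ SA (fun s => mat FA s) hc.hermA
    (hENT G A K hc.sepA).2.1 hFA (fun s hs => (Finset.mem_filter.mp hs).2.1) dA
    (fun s hs => (Finset.mem_filter.mp hs).2.2) (q0.trans hκ1) (q1.trans hκ1)
  obtain ⟨eB, TB, hTB1, hTB2, hTB3, hTB4⟩ := hone G B H t₀ SB (fun s => mat FB s) hc.hermB
    (hENT G B K hc.sepB).2.1 hFB (fun s hs => (Finset.mem_filter.mp hs).2.1) dB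
    (fun s hs => (Finset.mem_filter.mp hs).2.2) (q2.trans hκ1) (q3.trans hκ1)
  obtain ⟨eC, TC, hTC1, hTC2, hTC3, hTC4⟩ := hone G C H (s₀ + t₀) SC (fun s => mat FC s) hc.hermC
    (hENT G C K hc.sepC).2.1 hFC (fun s hs => (Finset.mem_filter.mp hs).2.1) dC
    (fun s hs => (Finset.mem_filter.mp hs).2.2) (q4.trans hκ1) (q5.trans hκ1)
  -- bounds and domination
  have bdd : ∀ (L : Fam G) (e : G → G → ℂ) (T : Finset G), Sep K L → Herm L → Dom f Λ L →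
      (∀ s, s ∉ T → e s = 0) →
      (∀ s ∈ T, 𝔼 y, ‖e s y‖ ^ 2 = 1 ∧ (∃ l : ℝ, 1 / 4 ≤ |l| ∧
        (mat L s).mulVec (e s) = (fun y => (l : ℂ) * e s y))) →
      (∀ s y, ‖e s y‖ ≤ 4 * K) ∧ (∀ (s : G) (φ : G → ℂ), ‖𝔼 y, conj (e s y) * φ y‖ ^ 2 ≤
        16 * Λ * ((Fintype.card G : ℝ)⁻¹ * qf (mat (rho f) s) φ)) := by
    intro L e T hL1 hL2 hL3 h0 h1
    have hin : ∀ s ∈ T, (∀ φ : G → ℂ, ‖𝔼 y, conj (e s y) * φ y‖ ^ 2 ≤
        16 * Λ * ((Fintype.card G : ℝ)⁻¹ * qf (mat (rho f) s) φ)) ∧ ∀ y, ‖e s y‖ ≤ 4 * K := by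
      intro s hs
      obtain ⟨g1, l, g2, g3⟩ := h1 s hs
      exact hEIG G f L Λ K s (e s) l hL3 hL2 ((hENT G L K hL1).2.1 s) g2 g3 g1.le
    constructor
    · intro s y
      by_cases hs : s ∈ T
      · exact (hin s hs).2 y
      · rw [h0 s hs]
        simp only [Pi.zero_apply, norm_zero]
        positivity
    · intro s φ
      by_cases hs : s ∈ T
      · exact (hin s hs).1 φ
      · rw [h0 s hs]
        have g1 : 0 ≤ Λ * qf (mat (rho f) s) φ :=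
          le_trans (Finset.sum_nonneg (fun y _ => by positivity)) (hL3 s φ)
        have g2 : 0 ≤ 16 * ((Fintype.card G : ℝ)⁻¹ * (Λ * qf (mat (rho f) s) φ)) := by
          have : (0 : ℝ) ≤ (Fintype.card G : ℝ)⁻¹ := by positivity
          have := mul_nonneg this g1
          linarith
        have g3 : 16 * Λ * ((Fintype.card G : ℝ)⁻¹ * qf (mat (rho f) s) φ) =
            16 * ((Fintype.card G : ℝ)⁻¹ * (Λ * qf (mat (rho f) s) φ)) := by ring
        rw [g3]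
        simpa using g2
  have bA := bdd A eA TA hc.sepA hc.hermA hc.domA hTA3 (fun s hs => ⟨(hTA4 s hs).1, (hTA4 s hs).2.1⟩)
  have bB := bdd B eB TB hc.sepB hc.hermB hc.domB hTB3 (fun s hs => ⟨(hTB4 s hs).1, (hTB4 s hs).2.1⟩)
  have bC := bdd C eC TC hc.sepC hc.hermC hc.domC hTC3 (fun s hs => ⟨(hTC4 s hs).1, (hTC4 s hs).2.1⟩)
  have bA' : ∀ s y, ‖eA s y‖ ≤ b := fun s y => (bA.1 s y).trans h4K
  have bB' : ∀ s y, ‖eB s y‖ ≤ b := fun s y => (bB.1 s y).trans h4K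
  have bC' : ∀ s y, ‖eC s y‖ ≤ b := fun s y => (bC.1 s y).trans h4K
  have kA : ∀ s ∈ TA, ∀ y y', ‖(Fintype.card G : ℂ) * mat FA s y y' - eA s y * conj (eA s y')‖ ≤ ε₁ :=
    fun s hs => (hTA4 s hs).2.2
  have kB : ∀ s ∈ TB, ∀ y y', ‖(Fintype.card G : ℂ) * mat FB s y y' - eB s y * conj (eB s y')‖ ≤ ε₁ :=
    fun s hs => (hTB4 s hs).2.2
  have kC : ∀ s ∈ TC, ∀ y y', ‖(Fintype.card G : ℂ) * mat FC s y y' - eC s y * conj (eC s y')‖ ≤ ε₁ :=
    fun s hs => (hTC4 s hs).2.2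
  -- part (a)
  have qT : 𝔼 z : H × H, 𝔼 z' : H × H,
      ‖Th (s₀ + z.1) (t₀ + z.2) (mat FA (s₀ + z.1)) (mat FB (t₀ + z.2))
          (mat FC (s₀ + z.1 + (t₀ + z.2))) -
        Th (s₀ + z'.1) (t₀ + z'.2) (mat FA (s₀ + z'.1)) (mat FB (t₀ + z'.2))
          (mat FC (s₀ + z'.1 + (t₀ + z'.2)))‖ ^ 2 ≤ κ := by
    have h1 := nc_triple H ((0, 0) : Fin 3 × Fin 2) (1, 0) (2, 0) n01 n12 n02
      (fun x y x' y' => ‖Th (s₀ + x) (t₀ + y) (mat FA (s₀ + x)) (mat FB (t₀ + y))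
          (mat FC (s₀ + x + (t₀ + y))) -
        Th (s₀ + x') (t₀ + y') (mat FA (s₀ + x')) (mat FB (t₀ + y'))
          (mat FC (s₀ + x' + (t₀ + y')))‖ ^ 2)
    rw [← h1]
    have h2 : 𝔼 h ∈ Fintype.piFinset (fun _ : Fin 3 × Fin 2 => hs H),
        𝔼 h' ∈ Fintype.piFinset (fun _ : Fin 3 × Fin 2 => hs H),
        ‖Th ((cb + h) (0, 0) + (cb + h) (1, 0)) ((cb + h) (1, 0) + (cb + h) (2, 0))
          (mat FA ((cb + h) (0, 0) + (cb + h) (1, 0)))
          (mat FB ((cb + h) (1, 0) + (cb + h) (2, 0)))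
          (mat FC ((cb + h) (0, 0) + (cb + h) (2, 0))) -
        Th ((cb + h') (0, 0) + (cb + h') (1, 0)) ((cb + h') (1, 0) + (cb + h') (2, 0))
          (mat FA ((cb + h') (0, 0) + (cb + h') (1, 0)))
          (mat FB ((cb + h') (1, 0) + (cb + h') (2, 0)))
          (mat FC ((cb + h') (0, 0) + (cb + h') (2, 0)))‖ ^ 2 ≤ κ := hH 6 cb
    simp only [r01, r12, r02, r02' _ 0 0 0] at h2
    exact h2
  have hba : 𝔼 z : H × H, (iB s₀ TA (z.1 : G) + iB t₀ TB (z.2 : G) +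
      iB (s₀ + t₀) TC ((z.1 + z.2 : H) : G)) ≤ 3 * ε₁ := by
    rw [Finset.expect_add_distrib, Finset.expect_add_distrib]
    have h1 := proj_bad H s₀ TA hTA1 ε₁ hTA2 Prod.fst (fun _ _ => rfl) (fun y => (y, 0))
      (fun _ => rfl)
    have h2 := proj_bad H t₀ TB hTB1 ε₁ hTB2 Prod.snd (fun _ _ => rfl) (fun y => (0, y))
      (fun _ => rfl)
    have h3 := proj_bad H (s₀ + t₀) TC hTC1 ε₁ hTC2 (fun z => z.1 + z.2)
      (by intro x y; simp only [Prod.fst_add, Prod.snd_add]; abel)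
      (fun y => (y, 0)) (fun _ => by simp)
    linarith
  have goodz : ∀ z : H × H, iB s₀ TA (z.1 : G) + iB t₀ TB (z.2 : G) +
      iB (s₀ + t₀) TC ((z.1 + z.2 : H) : G) < 1 →
      s₀ + (z.1 : G) ∈ TA ∧ t₀ + (z.2 : G) ∈ TB ∧ s₀ + (z.1 : G) + (t₀ + (z.2 : G)) ∈ TC := by
    intro z hz
    have h1 := iB_nonneg s₀ TA (z.1 : G)
    have h2 := iB_nonneg t₀ TB (z.2 : G)
    have h3 := iB_nonneg (s₀ + t₀) TC ((z.1 + z.2 : H) : G)
    refine ⟨iB_lt (by linarith), iB_lt (by linarith), ?_⟩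
    rw [sumz]
    exact iB_lt (by linarith)
  obtain ⟨z', hz1, hz2, hz3⟩ := nc
    (fun z : H × H => Th (s₀ + z.1) (t₀ + z.2) (mat FA (s₀ + z.1)) (mat FB (t₀ + z.2))
          (mat FC (s₀ + z.1 + (t₀ + z.2))))
    (fun z : H × H => ((‖Tri (s₀ + z.1) (t₀ + z.2) (eA (s₀ + z.1)) (eB (t₀ + z.2))
          (eC (s₀ + z.1 + (t₀ + z.2)))‖ ^ 2 : ℝ) : ℂ))
    (fun z : H × H => iB s₀ TA (z.1 : G) + iB t₀ TB (z.2 : G) +
      iB (s₀ + t₀) TC ((z.1 + z.2 : H) : G))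
    (fun z : H × H => if (s₀ + (z.1 : G), t₀ + (z.2 : G)) ∈ S then (1 : ℝ) else 0)
    (b ^ 6) (3 * (b ^ 2 + 1) ^ 2 * ε₁) κ (3 * ε₁) (p / 2)
    (by
      intro z
      have h1 := iB_nonneg s₀ TA (z.1 : G)
      have h2 := iB_nonneg t₀ TB (z.2 : G)
      have h3 := iB_nonneg (s₀ + t₀) TC ((z.1 + z.2 : H) : G)
      positivity)
    (by intro z; split_ifs <;> norm_num)
    (by
      intro z hz
      obtain ⟨g1, g2, g3⟩ := goodz z hz
      exact th_close _ _ _ _ _ _ _ _ b ε₁ hε₁.le hε₁1 (bA' _) (bB' _) (bC' _) (kA _ g1) (kB _ g2)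
        (kC _ g3))
    (by
      intro z
      have h1 := tri_le (s₀ + (z.1 : G)) (t₀ + (z.2 : G)) (eA (s₀ + z.1)) (eB (t₀ + z.2))
          (eC (s₀ + z.1 + (t₀ + z.2))) b (bA' _) (bB' _) (bC' _)
      rw [Complex.norm_real, Real.norm_eq_abs, abs_of_nonneg (by positivity)]
      calc _ ≤ (b ^ 3) ^ 2 := pow_le_pow_left₀ (norm_nonneg _) h1 2
        _ = b ^ 6 := by ring)
    hba (by linarith) (by positivity) qT
  have hSz : (s₀ + (z'.1 : G), t₀ + (z'.2 : G)) ∈ S := by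
    by_contra hcon
    simp only [if_neg hcon] at hz1
    exact lt_irrefl _ hz1
  obtain ⟨gA, gB, gC⟩ := goodz z' hz2
  -- part (b)
  have r02'' : ∀ (h : Fin 3 × Fin 2 → H) (i j k : Fin 2),
      s₀ + ((h (0, i) : G) + (h (1, j) : G)) + (t₀ + ((h (1, j) : G) + (h (2, k) : G))) =
      s₀ + t₀ + ((h (0, i) : G) + (h (2, k) : G)) := by
    intro h i j k
    exact (r02' (fun q => (h q : G)) i j k).symm
  have hbb : 𝔼 h : Fin 3 × Fin 2 → H,
      ((∑ i : Fin 2, ∑ j : Fin 2, iB s₀ TA ((h (0, i) : G) + (h (1, j) : G))) +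
      (∑ i : Fin 2, ∑ j : Fin 2, iB t₀ TB ((h (1, i) : G) + (h (2, j) : G))) +
      (∑ i : Fin 2, ∑ j : Fin 2, iB (s₀ + t₀) TC ((h (0, i) : G) + (h (2, j) : G)))) ≤
      12 * ε₁ := by
    rw [Finset.expect_add_distrib, Finset.expect_add_distrib]
    have h1 := pair_bad H s₀ TA hTA1 ε₁ hTA2 0 1 (by decide)
    have h2 := pair_bad H t₀ TB hTB1 ε₁ hTB2 1 2 (by decide)
    have h3 := pair_bad H (s₀ + t₀) TC hTC1 ε₁ hTC2 0 2 (by decide)
    linarith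
  have goodh : ∀ h : Fin 3 × Fin 2 → H,
      ((∑ i : Fin 2, ∑ j : Fin 2, iB s₀ TA ((h (0, i) : G) + (h (1, j) : G))) +
      (∑ i : Fin 2, ∑ j : Fin 2, iB t₀ TB ((h (1, i) : G) + (h (2, j) : G))) +
      (∑ i : Fin 2, ∑ j : Fin 2, iB (s₀ + t₀) TC ((h (0, i) : G) + (h (2, j) : G)))) < 1 →
      (∀ i j, s₀ + ((h (0, i) : G) + (h (1, j) : G)) ∈ TA) ∧
      (∀ i j, t₀ + ((h (1, i) : G) + (h (2, j) : G)) ∈ TB) ∧
      (∀ i j, s₀ + t₀ + ((h (0, i) : G) + (h (2, j) : G)) ∈ TC) := by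
    intro h hh
    have h1 := sum2_lt (c := fun i j => iB s₀ TA ((h (0, i) : G) + (h (1, j) : G)))
      (fun i j => iB_nonneg _ _ _)
    have h2 := sum2_lt (c := fun i j => iB t₀ TB ((h (1, i) : G) + (h (2, j) : G)))
      (fun i j => iB_nonneg _ _ _)
    have h3 := sum2_lt (c := fun i j => iB (s₀ + t₀) TC ((h (0, i) : G) + (h (2, j) : G)))
      (fun i j => iB_nonneg _ _ _)
    have g1 : 0 ≤ ∑ i : Fin 2, ∑ j : Fin 2, iB s₀ TA ((h (0, i) : G) + (h (1, j) : G)) :=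
      (iB_nonneg _ _ _).trans (h1 0 0)
    have g2 : 0 ≤ ∑ i : Fin 2, ∑ j : Fin 2, iB t₀ TB ((h (1, i) : G) + (h (2, j) : G)) :=
      (iB_nonneg _ _ _).trans (h2 0 0)
    have g3 : 0 ≤ ∑ i : Fin 2, ∑ j : Fin 2, iB (s₀ + t₀) TC ((h (0, i) : G) + (h (2, j) : G)) :=
      (iB_nonneg _ _ _).trans (h3 0 0)
    refine ⟨fun i j => iB_lt ?_, fun i j => iB_lt ?_, fun i j => iB_lt ?_⟩
    · have := h1 i j
      linarith
    · have := h2 i j
      linarith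
    · have := h3 i j
      linarith
  have qC : 𝔼 h : Fin 3 × Fin 2 → H, 𝔼 h' : Fin 3 × Fin 2 → H,
      ‖Cub FA FB FC (cb + fun q => (h q : G)) - Cub FA FB FC (cb + fun q => (h' q : G))‖ ^ 2 ≤ κ := by
    have h2 : 𝔼 h ∈ Fintype.piFinset (fun _ : Fin 3 × Fin 2 => hs H),
        𝔼 h' ∈ Fintype.piFinset (fun _ : Fin 3 × Fin 2 => hs H),
        ‖Cub FA FB FC (cb + h) - Cub FA FB FC (cb + h')‖ ^ 2 ≤ κ := hH 7 cb
    simp only [expect_pi] at h2
    exact h2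
  obtain ⟨h', hh1', hh2', hh3'⟩ := nc
    (fun h : Fin 3 × Fin 2 → H => Cub FA FB FC (cb + fun q => (h q : G)))
    (fun h : Fin 3 × Fin 2 → H => ∏ i : Fin 2, ∏ j : Fin 2, ∏ k : Fin 2,
      cj (i.val + j.val + k.val)
        (Tri (s₀ + ((h (0, i) : G) + (h (1, j) : G))) (t₀ + ((h (1, j) : G) + (h (2, k) : G)))
          (eA (s₀ + ((h (0, i) : G) + (h (1, j) : G))))
          (eB (t₀ + ((h (1, j) : G) + (h (2, k) : G))))
          (eC (s₀ + t₀ + ((h (0, i) : G) + (h (2, k) : G))))))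
    (fun h : Fin 3 × Fin 2 → H =>
      (∑ i : Fin 2, ∑ j : Fin 2, iB s₀ TA ((h (0, i) : G) + (h (1, j) : G))) +
      (∑ i : Fin 2, ∑ j : Fin 2, iB t₀ TB ((h (1, i) : G) + (h (2, j) : G))) +
      (∑ i : Fin 2, ∑ j : Fin 2, iB (s₀ + t₀) TC ((h (0, i) : G) + (h (2, j) : G))))
    (fun _ => 1) (b ^ 24) (12 * (b ^ 2 + 1) ^ 11 * ε₁) κ (12 * ε₁) (1 / 2)
    (by
      intro h
      exact add_nonneg (add_nonneg
        (Finset.sum_nonneg fun _ _ => Finset.sum_nonneg fun _ _ => iB_nonneg _ _ _)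
        (Finset.sum_nonneg fun _ _ => Finset.sum_nonneg fun _ _ => iB_nonneg _ _ _))
        (Finset.sum_nonneg fun _ _ => Finset.sum_nonneg fun _ _ => iB_nonneg _ _ _))
    (fun _ => le_refl _)
    (by
      intro h hh
      obtain ⟨g1, g2, g3⟩ := goodh h hh
      have cid := hCID G FA FB FC eA eB eC (cb + fun q => (h q : G)) b ε₁
        hb1 hε₁.le hε₁1 bA' bB' bC'
      simp only [r01, r12, r02] at cid
      refine cid ?_ ?_ ?_
      · intro i j o u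
        rw [fam_ker FA]
        exact kA _ (g1 i j) u (u + o)
      · intro i j o u
        rw [fam_ker FB]
        exact kB _ (g2 i j) u (u + o)
      · intro i j o u
        rw [fam_ker FC]
        exact kC _ (g3 i j) u (u + o))
    (by
      intro h
      apply prod_le _ b hb0
      intro i j k
      exact tri_le _ _ _ _ _ b (bA' _) (bB' _) (bC' _))
    hbb (by rw [Fintype.expect_const]; linarith) (by norm_num) qC
  obtain ⟨gb, hgb⟩ : ∃ gb : ℂ, 𝔼 h : Fin 3 × Fin 2 → H,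
      ‖(∏ i : Fin 2, ∏ j : Fin 2, ∏ k : Fin 2, cj (i.val + j.val + k.val)
        (Tri (s₀ + ((h (0, i) : G) + (h (1, j) : G))) (t₀ + ((h (1, j) : G) + (h (2, k) : G)))
          (eA (s₀ + ((h (0, i) : G) + (h (1, j) : G))))
          (eB (t₀ + ((h (1, j) : G) + (h (2, k) : G))))
          (eC (s₀ + t₀ + ((h (0, i) : G) + (h (2, k) : G)))))) - gb‖ ≤ ε := by
    refine ⟨_, hh3'.trans ?_⟩
    have h1 := sqrt_small κ (1 / 2) (ε / 2) (by norm_num) (by linarith) hκ3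
    linarith
  -- the value at the base pair
  have kP : ∀ (L : Fam G) (F P : Matrix G G ℂ) (e : G → ℂ) (s : G), Sep K L → Herm L →
      F = aeval (mat L s) h → Gap (mat L s) P 1 →
      (∀ y y', ‖(Fintype.card G : ℂ) * F y y' - e y * conj (e y')‖ ≤ ε₁) →
      ∀ y y', ‖(Fintype.card G : ℂ) * P y y' - e y * conj (e y')‖ ≤ 2 * ε₁ := by
    intro L F P e s h1 h2 h3 h4 h5 y y'
    have h6 := hSHRP G (mat L s) P 1 K R τ h hK.le hKR hR1 hcut
      (Pool.Agent.H65.SQ.mat_herm h2 s) ((hENT G L K h1).2.1 s) h4 y y'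
    rw [← h3, Matrix.sub_apply] at h6
    have hN : (0 : ℝ) < Fintype.card G := by
      have : 0 < Fintype.card G := Fintype.card_pos
      exact_mod_cast this
    have h7 : ‖(Fintype.card G : ℂ) * (F y y' - P y y')‖ ≤ ε₁ := by
      rw [norm_mul, Complex.norm_natCast]
      calc (Fintype.card G : ℝ) * ‖F y y' - P y y'‖
          ≤ (Fintype.card G : ℝ) * (2 * τ * K ^ 2 / (Fintype.card G : ℝ)) :=
            mul_le_mul_of_nonneg_left h6 hN.le
        _ = 2 * τ * K ^ 2 := by field_simp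
        _ ≤ ε₁ := hτ
    have h8 : (Fintype.card G : ℂ) * P y y' - e y * conj (e y') =
        ((Fintype.card G : ℂ) * F y y' - e y * conj (e y')) -
          (Fintype.card G : ℂ) * (F y y' - P y y') := by ring
    rw [h8]
    have h9 := norm_sub_le ((Fintype.card G : ℂ) * F y y' - e y * conj (e y'))
      ((Fintype.card G : ℂ) * (F y y' - P y y'))
    linarith [h5 y y']
  have hval := th_close (s₀ + (z'.1 : G)) (t₀ + (z'.2 : G)) (PA (s₀ + z'.1)) (PB (t₀ + z'.2))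
    (PC (s₀ + z'.1 + (t₀ + z'.2))) (eA (s₀ + z'.1)) (eB (t₀ + z'.2))
    (eC (s₀ + z'.1 + (t₀ + z'.2))) b (2 * ε₁) (by linarith) (by linarith) (bA' _) (bB' _) (bC' _)
    (kP A _ _ _ _ hc.sepA hc.hermA (hFA _) (hc.gapA _ hSz) (kA _ gA))
    (kP B _ _ _ _ hc.sepB hc.hermB (hFB _) (hc.gapB _ hSz) (kB _ gB))
    (kP C _ _ _ _ hc.sepC hc.hermC (hFC _) (hc.gapC _ hSz) (kC _ gC))
  have hval2 := (Complex.abs_re_le_norm _).trans (hval.trans hc3)
  rw [Complex.sub_re, Complex.ofReal_re] at hval2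
  have hval3 := (abs_le.mp hval2).2
  have hval4 := hc.theta _ hSz
  dsimp only at hval4
  refine ⟨H, s₀, t₀, eA, eB, eC, ‖Tri (s₀ + z'.1) (t₀ + z'.2) (eA (s₀ + z'.1)) (eB (t₀ + z'.2))
          (eC (s₀ + z'.1 + (t₀ + z'.2)))‖ ^ 2, gb, hHcard, by linarith, bA.1, bB.1, bC.1, bA.2,
          ?_, ?_⟩
  · simp only [expect_hs]
    rw [← expect_prod_type (fun (x y : H) => |‖Tri (s₀ + (x : G)) (t₀ + (y : G)) (eA (s₀ + x))
      (eB (t₀ + y)) (eC (s₀ + x + (t₀ + y)))‖ ^ 2 -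
      ‖Tri (s₀ + (z'.1 : G)) (t₀ + (z'.2 : G)) (eA (s₀ + z'.1)) (eB (t₀ + z'.2))
          (eC (s₀ + z'.1 + (t₀ + z'.2)))‖ ^ 2|)]
    simp only [← Complex.ofReal_sub, Complex.norm_real, Real.norm_eq_abs] at hz3
    refine hz3.trans ?_
    have h1 := sqrt_small κ (p / 2) (ε / 2) (by linarith) (by linarith) hκ2
    linarith
  · rw [six]
    simp only [r02'']
    exact hgb

end Pool.Agent.H45.SQ.RKA
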