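import Pool.Agent.H45.SQ.Assemble
import Pool.Agent.H45.SQ.RKA
import Pool.Agent.H16.SQ.PTR
import Pool.Agent.H16.SQ.PTH
import Pool.Agent.H16.SQ.PCU
import Pool.Agent.H19.SQ.CID

/-!
# 10 is a valid exponent for squares in `F_2^n × F_2^n`
-/

namespace Pool.Agent.H45.SQ

theorem t_rka : T_RKA :=
  RKA.rka t_lemc Pool.Agent.H16.SQ.ptr Pool.Agent.H16.SQ.pth Pool.Agent.H16.SQ.pcu
    Pool.Agent.H19.SQ.cid Pool.Agent.H65.SQ.eig t_poly t_mul t_lin t_ent Pool.Agent.H65.SQ.shrp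
    t_cutp

theorem inverse_theorem : T_IT := t_it t_rka

theorem validExponent_ten : Pool.Agent.H36Sq.ValidExponent 10 := valid_ten t_rka

end Pool.Agent.H45.SQ
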