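import Pool.Agent.H45.SQ.Targets2

/-!
# Assembly of the inverse theorem
-/

namespace Pool.Agent.H45.SQ

open Finset Polynomial
open scoped BigOperators ComplexConjugate ComplexOrder

section
variable {G : Type} [AddCommGroup G] [Fintype G] [Module (ZMod 2) G]

theorem mem_hs (H : Submodule (ZMod 2) G) (x : G) : x ∈ hs H ↔ x ∈ H := by
  simp [hs]

theorem hs_nonempty (H : Submodule (ZMod 2) G) : (hs H).Nonempty := ⟨0, by simp [mem_hs]⟩

theorem hs_card_pos (H : Submodule (ZMod 2) G) : 0 < (hs H).card := card_pos.mpr (hs_nonempty H)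

theorem add_self2 (x : G) : x + x = 0 := by
  have h : (2 : ZMod 2) • x = x + x := two_smul _ x
  rw [← h, show (2 : ZMod 2) = 0 from rfl, zero_smul]

theorem add_cancel2 (x y : G) : x + (x + y) = y := by rw [← add_assoc, add_self2, zero_add]

theorem expect_eq (s : Finset G) (F : G → ℂ) : 𝔼 x ∈ s, F x = (∑ x ∈ s, F x) / (s.card : ℂ) := by
  rw [Finset.expect_eq_sum_div_card]

theorem expect_univ_eq (F : G → ℂ) : 𝔼 x, F x = (∑ x, F x) / (Fintype.card G : ℂ) := by
  rw [Finset.expect_eq_sum_div_card, Finset.card_univ]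

/-- average over `G` of a function supported on a coset. -/
theorem expect_coset (H : Submodule (ZMod 2) G) (s₀ : G) (F : G → ℂ)
    (hF : ∀ s, s + s₀ ∉ H → F s = 0) :
    𝔼 s, F s = (((hs H).card : ℂ) / (Fintype.card G : ℂ)) * 𝔼 h ∈ hs H, F (s₀ + h) := by
  rw [expect_univ_eq, expect_eq]
  have hc : ((hs H).card : ℂ) ≠ 0 := by exact_mod_cast (hs_card_pos H).ne'
  have : ∑ s, F s = ∑ h ∈ hs H, F (s₀ + h) := by
    classical
    have h1 : ∑ h ∈ hs H, F (s₀ + h) = ∑ s ∈ (hs H).image (fun h => s₀ + h), F s := by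
      rw [Finset.sum_image]
      intro a _ b _ hab
      simpa using hab
    rw [h1]
    symm
    apply Finset.sum_subset (Finset.subset_univ _)
    intro x _ hx
    apply hF
    intro hxH
    apply hx
    rw [mem_image]
    refine ⟨s₀ + x, ?_, add_cancel2 _ _⟩
    rw [mem_hs, add_comm]
    exact hxH
  rw [this]
  field_simp

end


theorem zmod2_cases (x : ZMod 2) : x = 0 ∨ x = 1 := by
  revert x; decide

theorem sg_add (x y : ZMod 2) : sg (x + y) = sg x * sg y := by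
  rcases zmod2_cases x with rfl | rfl <;> rcases zmod2_cases y with rfl | rfl <;>
    simp [sg, show (1 : ZMod 2) + 1 = 0 from rfl]

theorem sg_zero : sg 0 = 1 := by simp [sg]

theorem sg_mul_self (x : ZMod 2) : sg x * sg x = 1 := by
  rcases zmod2_cases x with rfl | rfl <;> simp [sg]

theorem norm_sg (x : ZMod 2) : ‖sg x‖ = 1 := by
  rcases zmod2_cases x with rfl | rfl <;> simp [sg]

theorem it (hD : T_DESC) (hR : T_RK1) (hN : T_N9H) (hB : T_BACK) : T_IT := by
  intro δ hδ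
  obtain ⟨K, Λ, θ, p, hK, hθ, hp, hD⟩ := hD δ hδ
  obtain ⟨ε₀, hε₀, hN⟩ := hN
  obtain ⟨n₀, β₀, hβ₀, hR⟩ := hR K Λ θ p (min ε₀ (1 / 4)) hK hθ hp (by positivity)
  obtain ⟨η', hη', hB⟩ := hB (4 * K) (16 * Λ) (β₀ / (4 * ((n₀ : ℝ) + 1) ^ 2)) (by positivity)
    (by positivity)
  refine ⟨η', hη', ?_⟩
  intro G _ _ _ _ f hf hU
  obtain ⟨H, s₀, t₀, e, X, g, β, φ, hn, hβ, he, hX, hg, hdom, hφ, hoct, hcl⟩ :=
    hR G f hf (hD G f hf hU)
  obtain ⟨u, v, w, m, hu, hv, hw, hc⟩ := hN G H φ hφ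
    (le_trans (by linarith [min_le_left ε₀ (1 / 4 : ℝ)]) hoct)
  have hβ0 : 0 < β := lt_of_lt_of_le hβ₀ hβ
  have hN0 : (0 : ℝ) < Fintype.card G := by exact_mod_cast Fintype.card_pos
  have hH0 : (0 : ℝ) < (hs H).card := by exact_mod_cast hs_card_pos H
  classical
  -- the inner average
  set W : G → G → ℂ := fun h k => u h * v k * w (h + k) * sg (m h k) with hW
  have hW1 : ∀ h k, ‖W h k‖ ≤ 1 := by
    intro h k
    simp only [hW, norm_mul, norm_sg, mul_one]
    have := mul_le_mul (hu h) (hv k) (norm_nonneg _) zero_le_one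
    have := mul_le_mul this (hw (h + k)) (norm_nonneg _) (by norm_num)
    simpa using this
  set c : G → G → ℂ := fun h k => Tri (s₀ + h) (t₀ + k) (e (s₀ + h)) (X (t₀ + k))
    (g (s₀ + h + (t₀ + k))) with hcdef
  have key : β / 4 ≤ ‖𝔼 h ∈ hs H, 𝔼 k ∈ hs H, W h k * c h k‖ := by
    have e1 : 𝔼 y ∈ hs H, 𝔼 z ∈ hs H, φ y z * u y * v z * w (y + z) * sg (m y z) =
        (𝔼 h ∈ hs H, 𝔼 k ∈ hs H, (φ h k - ((β⁻¹ : ℝ) : ℂ) * c h k) * W h k) +
        ((β⁻¹ : ℝ) : ℂ) * 𝔼 h ∈ hs H, 𝔼 k ∈ hs H, W h k * c h k := by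
      simp only [Finset.mul_expect, ← Finset.expect_add_distrib]
      refine Finset.expect_congr rfl fun h _ => Finset.expect_congr rfl fun k _ => ?_
      simp only [hW]; ring
    have e2 : ‖𝔼 h ∈ hs H, 𝔼 k ∈ hs H, (φ h k - ((β⁻¹ : ℝ) : ℂ) * c h k) * W h k‖ ≤ 1 / 4 := by
      refine le_trans (RCLike.norm_expect_le (K := ℂ)) ?_
      refine le_trans (Finset.expect_le_expect fun h _ => (RCLike.norm_expect_le (K := ℂ))) ?_
      refine le_trans (Finset.expect_le_expect fun h _ => Finset.expect_le_expect fun k _ => ?_)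
        (le_trans hcl (min_le_right _ _))
      rw [norm_mul]
      calc _ ≤ ‖φ h k - ((β⁻¹ : ℝ) : ℂ) * c h k‖ * 1 :=
            mul_le_mul_of_nonneg_left (hW1 h k) (norm_nonneg _)
        _ = _ := mul_one _
    rw [e1] at hc
    have e3 := norm_add_le (𝔼 h ∈ hs H, 𝔼 k ∈ hs H, (φ h k - ((β⁻¹ : ℝ) : ℂ) * c h k) * W h k)
      (((β⁻¹ : ℝ) : ℂ) * 𝔼 h ∈ hs H, 𝔼 k ∈ hs H, W h k * c h k)
    have e4 : 1 / 4 ≤ ‖((β⁻¹ : ℝ) : ℂ) * 𝔼 h ∈ hs H, 𝔼 k ∈ hs H, W h k * c h k‖ := by linarith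
    rw [norm_mul, Complex.norm_real, Real.norm_of_nonneg (by positivity)] at e4
    have := mul_le_mul_of_nonneg_left e4 hβ0.le
    rw [← mul_assoc, mul_inv_cancel₀ hβ0.ne', one_mul] at this
    linarith
  refine hB G f e X g (fun s => if s + s₀ ∈ H then u (s₀ + s) * sg (m s t₀) else 0)
    (fun t => if t + t₀ ∈ H then v (t₀ + t) * sg (m s₀ t) else 0)
    (fun σ => w (σ + s₀ + t₀) * sg (m s₀ t₀)) m hf he hX hg ?_ ?_ ?_ hdom ?_
  · intro s
    split_ifs
    · rw [norm_mul, norm_sg, mul_one]; exact hu _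
    · simp
  · intro s
    split_ifs
    · rw [norm_mul, norm_sg, mul_one]; exact hv _
    · simp
  · intro s
    rw [norm_mul, norm_sg, mul_one]; exact hw _
  · rw [expect_coset H s₀]
    swap
    · intro s hs'
      simp [hs']
    have e5 : ∀ h ∈ hs H, (𝔼 t, (if s₀ + h + s₀ ∈ H then u (s₀ + (s₀ + h)) * sg (m (s₀ + h) t₀)
        else 0) * (if t + t₀ ∈ H then v (t₀ + t) * sg (m s₀ t) else 0) *
        (w (s₀ + h + t + s₀ + t₀) * sg (m s₀ t₀)) * sg (m (s₀ + h) t) *
        Tri (s₀ + h) t (e (s₀ + h)) (X t) (g (s₀ + h + t))) =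
        (((hs H).card : ℂ) / (Fintype.card G : ℂ)) * 𝔼 k ∈ hs H, W h k * c h k := by
      intro h hh
      rw [expect_coset H t₀]
      swap
      · intro t ht
        simp [ht]
      congr 1
      refine Finset.expect_congr rfl fun k hk => ?_
      have q1 : s₀ + h + s₀ = h := by rw [add_comm s₀ h, add_assoc, add_self2, add_zero]
      have q2 : t₀ + k + t₀ = k := by rw [add_comm t₀ k, add_assoc, add_self2, add_zero]
      have q3 : s₀ + h + (t₀ + k) + s₀ + t₀ = h + k := by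
        calc s₀ + h + (t₀ + k) + s₀ + t₀ = (s₀ + s₀) + (t₀ + t₀) + (h + k) := by abel
          _ = h + k := by rw [add_self2, add_self2]; simp
      rw [q1, q2, q3, if_pos ((mem_hs H h).1 hh), if_pos ((mem_hs H k).1 hk), add_cancel2,
        add_cancel2]
      simp only [hW, hcdef, map_add, LinearMap.add_apply, sg_add]
      have z1 := sg_mul_self (m s₀ t₀)
      have z2 := sg_mul_self (m h t₀)
      have z3 := sg_mul_self (m s₀ k)
      have z4 : sg (m s₀ t₀) * sg (m s₀ t₀) * (sg (m s₀ t₀) * sg (m s₀ t₀)) *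
        (sg (m h t₀) * sg (m h t₀)) * (sg (m s₀ k) * sg (m s₀ k)) = 1 := by
        rw [z1, z2, z3]; ring
      linear_combination (u h * v k * w (h + k) * sg (m h k) *
        Tri (s₀ + h) (t₀ + k) (e (s₀ + h)) (X (t₀ + k)) (g (s₀ + h + (t₀ + k)))) * z4
    rw [Finset.expect_congr rfl e5, ← Finset.mul_expect, norm_mul, norm_mul]
    have hrat : 1 / ((n₀ : ℝ) + 1) ≤ ‖((hs H).card : ℂ) / (Fintype.card G : ℂ)‖ := by
      rw [norm_div, Complex.norm_natCast, Complex.norm_natCast]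
      rw [div_le_div_iff₀ (by positivity) hN0, one_mul]
      have : (Fintype.card G : ℝ) ≤ n₀ * (hs H).card := by exact_mod_cast hn
      nlinarith
    calc β₀ / (4 * ((n₀ : ℝ) + 1) ^ 2) = (1 / ((n₀ : ℝ) + 1)) * ((1 / ((n₀ : ℝ) + 1)) *
          (β₀ / 4)) := by field_simp
      _ ≤ _ := by
          refine mul_le_mul hrat ?_ (by positivity) (norm_nonneg _)
          refine mul_le_mul hrat ?_ (by positivity) (norm_nonneg _)
          exact le_trans (by linarith) key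

end Pool.Agent.H45.SQ
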