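import Pool.Agent.H65.SQ.ONE

/-!
# ONE with the cut polynomial exported
-/

namespace Pool.Agent.H45.SQ.RKA

open Finset Polynomial Pool.Agent.H45.SQ Pool.Agent.H65.SQ
open scoped BigOperators ComplexConjugate ComplexOrder

/-- ONE, with the cut polynomial exported. -/
def T_ONE2 : Prop :=
  ∀ (K ε : ℝ), 0 < K → 0 < ε → ∃ h : ℝ[X], h.coeff 0 = 0 ∧ h.coeff 1 = 0 ∧
    (∃ R τ : ℝ, K ≤ R ∧ 1 ≤ R ∧ CutPoly R (1 / 4) (3 / 4) τ h ∧ 2 * τ * K ^ 2 ≤ ε) ∧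
    ∀ p : ℝ, 0 < p → ∃ κ : ℝ, 0 < κ ∧
    ∀ (G : Type) [AddCommGroup G] [Fintype G] [DecidableEq G] [Module (ZMod 2) G]
      (A : Fam G) (H : Submodule (ZMod 2) G) (s₀ : G) (S : Finset G) (F : G → Matrix G G ℂ),
      Herm A → (∀ s, EntLe (mat A s) K) → (∀ s, F s = aeval (mat A s) h) →
      (∀ s ∈ S, s + s₀ ∈ H) → p * ((hs H).card : ℝ) ≤ S.card →
      (∀ s ∈ S, ∃ P, Gap (mat A s) P 1) →
      𝔼 k ∈ hs H, 𝔼 k' ∈ hs H, ‖(F (s₀ + k) * F (s₀ + k)).trace -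
        (F (s₀ + k') * F (s₀ + k')).trace‖ ^ 2 ≤ κ →
      𝔼 k ∈ hs H, 𝔼 k' ∈ hs H,
        ‖((F (s₀ + k) - F (s₀ + k) * F (s₀ + k)) *
            (F (s₀ + k) - F (s₀ + k) * F (s₀ + k))).trace -
          ((F (s₀ + k') - F (s₀ + k') * F (s₀ + k')) *
            (F (s₀ + k') - F (s₀ + k') * F (s₀ + k'))).trace‖ ^ 2 ≤ κ →
      ∃ (e : G → G → ℂ) (T : Finset G), (∀ s ∈ T, s + s₀ ∈ H) ∧
        (1 - ε) * ((hs H).card : ℝ) ≤ T.card ∧ (∀ s, s ∉ T → e s = 0) ∧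
        ∀ s ∈ T, 𝔼 y, ‖e s y‖ ^ 2 = 1 ∧
          (∃ l : ℝ, 1 / 4 ≤ |l| ∧ (mat A s).mulVec (e s) = (fun y => (l : ℂ) * e s y)) ∧
          ∀ y y', ‖(Fintype.card G : ℂ) * F s y y' - e s y * conj (e s y')‖ ≤ ε

theorem one2 (hCUTP : T_CUTP) : T_ONE2 := by
  classical
  intro K ε hK hε
  obtain ⟨τ, τ₂, hτ, hτ₂, hM7⟩ := m7 K ε hK hε
  obtain ⟨c, hc0, hc1, hc2, hc3⟩ : ∃ c : ℝ, 0 < c ∧ c ≤ 1 ∧ c ≤ τ₂ / 8 ∧ c ≤ ε :=
    ⟨min (min 1 (τ₂ / 8)) ε, by positivity, (min_le_left _ _).trans (min_le_left _ _),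
      (min_le_left _ _).trans (min_le_right _ _), min_le_right _ _⟩
  set τ' : ℝ := min τ (c / (2 * K ^ 2)) with hτ'
  have hτ'0 : 0 < τ' := by rw [hτ']; positivity
  have hτ'1 : τ' ≤ τ := min_le_left _ _
  have hτ'2 : 2 * τ' * K ^ 2 ≤ c := by
    have h1 : τ' ≤ c / (2 * K ^ 2) := min_le_right _ _
    rw [le_div_iff₀ (by positivity)] at h1
    linarith
  set R : ℝ := max K 1 with hR
  have hKR : K ≤ R := le_max_left _ _
  have hR1 : 1 ≤ R := le_max_right _ _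
  obtain ⟨h, hcut⟩ := hCUTP R (1 / 4) (3 / 4) τ' (by norm_num) (by norm_num) (by linarith) hτ'0
  refine ⟨h, hcut.1, hcut.2.1, ⟨R, τ', hKR, hR1, hcut, hτ'2.trans hc3⟩, ?_⟩
  intro p hp
  refine ⟨p * (ε / 2) * (τ₂ / 2) ^ 2, by positivity, ?_⟩
  intro G _ _ _ _ A H s₀ S F hHerm hE hF hSH hScard hgap hn1 hn2
  have hMH : ∀ s, (mat A s).IsHermitian := fun s => mat_herm hHerm s
  set B : Finset G := S.image (fun s => s + s₀) with hB
  have hBcard : B.card = S.card :=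
    Finset.card_image_of_injective _ (fun x y hxy => add_right_cancel hxy)
  have hBH : B ⊆ hs H := by
    intro k hk
    rw [hB, Finset.mem_image] at hk
    obtain ⟨s, hs1, rfl⟩ := hk
    rw [mem_hs]
    exact hSH s hs1
  have hBback : ∀ k ∈ B, s₀ + k ∈ S := by
    intro k hk
    rw [hB, Finset.mem_image] at hk
    obtain ⟨s, hs1, rfl⟩ := hk
    have : s₀ + (s + s₀) = s := by
      have h2 : s₀ + (s + s₀) = s + (s₀ + s₀) := by abel
      rw [h2, add_self_G, add_zero]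
    rw [this]
    exact hs1
  have hHne : (hs H).Nonempty := ⟨0, (mem_hs H 0).mpr H.zero_mem⟩
  have hH0 : (0 : ℝ) < (hs H).card := by exact_mod_cast hHne.card_pos
  have hpB : p * ((hs H).card : ℝ) ≤ B.card := by rw [hBcard]; exact hScard
  have htr : ∀ k ∈ B, ‖(F (s₀ + k) * F (s₀ + k)).trace - 1‖ ≤ τ₂ / 2 ∧
      ‖((F (s₀ + k) - F (s₀ + k) * F (s₀ + k)) *
        (F (s₀ + k) - F (s₀ + k) * F (s₀ + k))).trace - 0‖ ≤ τ₂ / 2 := by
    intro k hk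
    obtain ⟨P, hP⟩ := hgap (s₀ + k) (hBback k hk)
    have h1 := gap_traces hK.le hKR hR1 hcut (hMH (s₀ + k)) (hE (s₀ + k)) hP hτ'2 hc1 (hF (s₀ + k))
    exact ⟨h1.1.trans (by linarith), h1.2.trans (by linarith)⟩
  have hbad1 := markov_const (hs H) B (fun k => (F (s₀ + k) * F (s₀ + k)).trace) 1
    (p * (ε / 2) * (τ₂ / 2) ^ 2) p (τ₂ / 2) hHne hp (by positivity) hBH hpB
    (fun k hk => (htr k hk).1) hn1
  have hbad2 := markov_const (hs H) B (fun k => ((F (s₀ + k) - F (s₀ + k) * F (s₀ + k)) *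
        (F (s₀ + k) - F (s₀ + k) * F (s₀ + k))).trace) 0
    (p * (ε / 2) * (τ₂ / 2) ^ 2) p (τ₂ / 2) hHne hp (by positivity) hBH hpB
    (fun k hk => (htr k hk).2) hn2
  set Z1 := (hs H).filter (fun k => 2 * (τ₂ / 2) < ‖(F (s₀ + k) * F (s₀ + k)).trace - 1‖) with hZ1
  set Z2 := (hs H).filter (fun k => 2 * (τ₂ / 2) < ‖((F (s₀ + k) - F (s₀ + k) * F (s₀ + k)) *
        (F (s₀ + k) - F (s₀ + k) * F (s₀ + k))).trace - 0‖) with hZ2
  have hq : 0 < p * (τ₂ / 2) ^ 2 := by positivity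
  have hb1 : (Z1.card : ℝ) ≤ ε / 2 * (hs H).card := by
    have h1 : (Z1.card : ℝ) * (p * (τ₂ / 2) ^ 2) ≤ (ε / 2 * (hs H).card) * (p * (τ₂ / 2) ^ 2) := by
      calc _ ≤ _ := hbad1
        _ = _ := by ring
    exact le_of_mul_le_mul_right h1 hq
  have hb2 : (Z2.card : ℝ) ≤ ε / 2 * (hs H).card := by
    have h1 : (Z2.card : ℝ) * (p * (τ₂ / 2) ^ 2) ≤ (ε / 2 * (hs H).card) * (p * (τ₂ / 2) ^ 2) := by
      calc _ ≤ _ := hbad2
        _ = _ := by ring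
    exact le_of_mul_le_mul_right h1 hq
  set T0 : Finset G := hs H \ (Z1 ∪ Z2) with hT0
  set T : Finset G := T0.image (fun k => s₀ + k) with hT
  have hTcard : T.card = T0.card :=
    Finset.card_image_of_injective _ (fun x y hxy => add_left_cancel hxy)
  have hT0card : (1 - ε) * ((hs H).card : ℝ) ≤ T0.card := by
    have h1 : (hs H).card ≤ T0.card + (Z1.card + Z2.card) := by
      have h2 : (hs H).card ≤ T0.card + (Z1 ∪ Z2).card := by
        have h3 := Finset.card_le_card_sdiff_add_card (s := hs H) (t := Z1 ∪ Z2)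
        exact h3
      have h4 := Finset.card_union_le Z1 Z2
      omega
    have h5 : ((hs H).card : ℝ) ≤ T0.card + (Z1.card + Z2.card) := by exact_mod_cast h1
    linarith
  -- good degrees
  have hgood : ∀ s ∈ T, ∃ (e : G → ℂ) (l : ℝ), 𝔼 y, ‖e y‖ ^ 2 = 1 ∧ 1 / 4 ≤ |l| ∧
        (mat A s).mulVec e = (fun y => (l : ℂ) * e y) ∧
        ∀ y y', ‖(Fintype.card G : ℂ) * F s y y' - e y * conj (e y')‖ ≤ ε := by
    intro s hs1
    rw [hT, Finset.mem_image] at hs1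
    obtain ⟨k, hk, rfl⟩ := hs1
    rw [hT0, Finset.mem_sdiff, Finset.mem_union, not_or] at hk
    obtain ⟨hkH, hk1, hk2⟩ := hk
    have g1 : ‖(F (s₀ + k) * F (s₀ + k)).trace - 1‖ ≤ τ₂ := by
      by_contra hcon
      push Not at hcon
      apply hk1
      rw [hZ1, Finset.mem_filter]
      exact ⟨hkH, by linarith⟩
    have g2 : ‖((F (s₀ + k) - F (s₀ + k) * F (s₀ + k)) *
        (F (s₀ + k) - F (s₀ + k) * F (s₀ + k))).trace - 0‖ ≤ τ₂ := by
      by_contra hcon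
      push Not at hcon
      apply hk2
      rw [hZ2, Finset.mem_filter]
      exact ⟨hkH, by linarith⟩
    refine hM7 R h hKR hR1 (CutPoly.mono hcut hτ'1) G (mat A (s₀ + k)) (F (s₀ + k)) (hMH _)
      (hE _) (hF _) ?_ ?_
    · rw [sub_zero] at g2
      exact (Complex.re_le_norm _).trans g2
    · have h1 := Complex.abs_re_le_norm ((F (s₀ + k) * F (s₀ + k)).trace - 1)
      rw [Complex.sub_re, Complex.one_re] at h1
      exact h1.trans g1
  choose! e l h1 h2 h3 h4 using hgood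
  refine ⟨fun s => if s ∈ T then e s else 0, T, ?_, ?_, ?_, ?_⟩
  · intro s hs1
    rw [hT, Finset.mem_image] at hs1
    obtain ⟨k, hk, rfl⟩ := hs1
    have hkH : k ∈ hs H := (Finset.mem_sdiff.mp hk).1
    have e1 : s₀ + k + s₀ = k := by
      have e2 : s₀ + k + s₀ = k + (s₀ + s₀) := by abel
      rw [e2, add_self_G, add_zero]
    rw [e1]
    exact (mem_hs H k).mp hkH
  · rw [hTcard]
    exact hT0card
  · intro s hs1
    simp only [if_neg hs1]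
  · intro s hs1
    simp only [if_pos hs1]
    exact ⟨h1 s hs1, ⟨l s, h2 s hs1, h3 s hs1⟩, h4 s hs1⟩

end Pool.Agent.H45.SQ.RKA
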