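import Pool.Agent.H45.SQ.One2

/-!
# Lemmas for the module RKA
-/

namespace Pool.Agent.H45.SQ.RKA

open Finset Polynomial Pool.Agent.H45.SQ
open scoped BigOperators ComplexConjugate

/-- averages are preserved by surjective homomorphisms -/
lemma pushf {A B : Type} [AddCommGroup A] [Fintype A] [AddCommGroup B] [Fintype B]
    (T : A → B) (hT : ∀ x y, T (x + y) = T x + T y) (R : B → A) (hR : ∀ y, T (R y) = y)
    (φ : B → ℝ) : 𝔼 x, φ (T x) = 𝔼 y, φ y := by
  have h1 : ∀ y : B, 𝔼 x, φ (T x) = 𝔼 x, φ (T x + y) := by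
    intro y
    symm
    apply Fintype.expect_equiv (Equiv.addRight (R y))
    intro x
    simp [hT, hR]
  calc 𝔼 x, φ (T x) = 𝔼 _y : B, 𝔼 x, φ (T x) := (Fintype.expect_const _).symm
    _ = 𝔼 y : B, 𝔼 x, φ (T x + y) := Finset.expect_congr rfl (fun y _ => h1 y)
    _ = 𝔼 x, 𝔼 y, φ (T x + y) := Finset.expect_comm _ _ _
    _ = 𝔼 _x : A, 𝔼 y, φ y := by
        apply Finset.expect_congr rfl
        intro x _
        apply Fintype.expect_equiv (Equiv.addLeft (T x))
        intro y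
        rfl
    _ = 𝔼 y, φ y := Fintype.expect_const _

section
variable {G : Type} [AddCommGroup G] [Fintype G] [Module (ZMod 2) G]

noncomputable instance fH (H : Submodule (ZMod 2) G) : Fintype H := Fintype.ofFinite _

lemma mem_hs' (H : Submodule (ZMod 2) G) (x : G) : x ∈ hs H ↔ x ∈ H := by
  classical
  unfold hs
  simp

lemma expect_hs (H : Submodule (ZMod 2) G) (φ : G → ℝ) :
    𝔼 x ∈ hs H, φ x = 𝔼 x : H, φ x := by
  symm
  apply Finset.expect_bij (fun (x : H) _ => (x : G))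
  · intro a _
    exact (mem_hs' H a).mpr a.2
  · intro a _
    rfl
  · intro a _ b _ h
    exact Subtype.ext h
  · intro b hb
    exact ⟨⟨b, (mem_hs' H b).mp hb⟩, mem_univ _, rfl⟩

lemma expect_pi {ι : Type} [Fintype ι] [DecidableEq ι] (H : Submodule (ZMod 2) G)
    (F : (ι → G) → ℝ) :
    𝔼 h ∈ Fintype.piFinset (fun _ : ι => hs H), F h = 𝔼 h : ι → H, F (fun i => (h i : G)) := by
  symm
  apply Finset.expect_bij (fun (h : ι → H) _ => (fun i => (h i : G)))
  · intro a _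
    rw [Fintype.mem_piFinset]
    intro i
    exact (mem_hs' H _).mpr (a i).2
  · intro a _
    rfl
  · intro a _ b _ h
    funext i
    exact Subtype.ext (congrFun h i)
  · intro b hb
    rw [Fintype.mem_piFinset] at hb
    exact ⟨fun i => ⟨b i, (mem_hs' H _).mp (hb i)⟩, mem_univ _, rfl⟩

lemma expect_prod_type {A B : Type} [Fintype A] [Fintype B] (φ : A → B → ℝ) :
    𝔼 z : A × B, φ z.1 z.2 = 𝔼 a, 𝔼 b, φ a b := by
  rw [← Finset.univ_product_univ, Finset.expect_product]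

/-- pairs -/
lemma nc_pair {ι : Type} [Fintype ι] [DecidableEq ι] (H : Submodule (ZMod 2) G) (i j : ι)
    (hij : i ≠ j) (Φ : G → G → ℝ) :
    𝔼 h ∈ Fintype.piFinset (fun _ : ι => hs H), 𝔼 h' ∈ Fintype.piFinset (fun _ : ι => hs H),
      Φ (h i + h j) (h' i + h' j) = 𝔼 k ∈ hs H, 𝔼 k' ∈ hs H, Φ k k' := by
  have key : ∀ φ : G → ℝ, 𝔼 h ∈ Fintype.piFinset (fun _ : ι => hs H), φ (h i + h j)
      = 𝔼 k ∈ hs H, φ k := by
    intro φ
    rw [expect_pi, expect_hs]
    have := pushf (A := ι → H) (B := H) (fun h => h i + h j)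
      (by intro x y; simp only [Pi.add_apply]; abel) (fun k => Pi.single i k)
      (by intro y; simp [Pi.single_eq_of_ne (Ne.symm hij)]) (fun k => φ (k : G))
    simpa using this
  rw [key (fun x => 𝔼 h' ∈ Fintype.piFinset (fun _ : ι => hs H), Φ x (h' i + h' j))]
  apply Finset.expect_congr rfl
  intro k _
  exact key (fun x => Φ k x)

/-- triples -/
lemma nc_triple {ι : Type} [Fintype ι] [DecidableEq ι] (H : Submodule (ZMod 2) G) (i j k : ι)
    (hij : i ≠ j) (hjk : j ≠ k) (hik : i ≠ k) (Φ : G → G → G → G → ℝ) :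
    𝔼 h ∈ Fintype.piFinset (fun _ : ι => hs H), 𝔼 h' ∈ Fintype.piFinset (fun _ : ι => hs H),
      Φ (h i + h j) (h j + h k) (h' i + h' j) (h' j + h' k) =
      𝔼 z : H × H, 𝔼 z' : H × H, Φ z.1 z.2 z'.1 z'.2 := by
  have key : ∀ φ : G → G → ℝ, 𝔼 h ∈ Fintype.piFinset (fun _ : ι => hs H),
      φ (h i + h j) (h j + h k) = 𝔼 z : H × H, φ z.1 z.2 := by
    intro φ
    rw [expect_pi]
    have := pushf (A := ι → H) (B := H × H) (fun h => (h i + h j, h j + h k))
      (by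
        intro x y
        ext1
        · simp only [Pi.add_apply, Prod.fst_add]; abel
        · simp only [Pi.add_apply, Prod.snd_add]; abel)
      (fun z => Pi.single i z.1 + Pi.single k z.2)
      (by
        intro y
        ext1
        · simp [Pi.single_eq_of_ne hik, Pi.single_eq_of_ne (Ne.symm hij),
            Pi.single_eq_of_ne hjk]
        · simp [Pi.single_eq_of_ne hjk, Pi.single_eq_of_ne (Ne.symm hij),
            Pi.single_eq_of_ne (Ne.symm hik)])
      (fun z => φ (z.1 : G) (z.2 : G))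
    simpa using this
  rw [key (fun x y => 𝔼 h' ∈ Fintype.piFinset (fun _ : ι => hs H),
    Φ x y (h' i + h' j) (h' j + h' k))]
  apply Finset.expect_congr rfl
  intro z _
  exact key (fun x y => Φ z.1 z.2 x y)

/-- six rows -/
lemma six {H : Submodule (ZMod 2) G} (F : (Fin 2 → G) → (Fin 2 → G) → (Fin 2 → G) → ℝ) :
    𝔼 a ∈ Fintype.piFinset (fun _ : Fin 2 => hs H),
      𝔼 b ∈ Fintype.piFinset (fun _ : Fin 2 => hs H),
        𝔼 r ∈ Fintype.piFinset (fun _ : Fin 2 => hs H), F a b r =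
    𝔼 h : Fin 3 × Fin 2 → H, F (fun i => h (0, i)) (fun i => h (1, i)) (fun i => h (2, i)) := by
  have e1 := pushf (A := Fin 3 × Fin 2 → H) (B := (Fin 2 → H) × (Fin 2 → H) × (Fin 2 → H))
    (fun h => (fun i => h (0, i), fun i => h (1, i), fun i => h (2, i)))
    (by intro x y; rfl)
    (fun z q => if q.1 = 0 then z.1 q.2 else if q.1 = 1 then z.2.1 q.2 else z.2.2 q.2)
    (by intro y; rfl)
    (fun z => F (fun i => (z.1 i : G)) (fun i => (z.2.1 i : G)) (fun i => (z.2.2 i : G)))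
  rw [e1, expect_pi, expect_prod_type (fun (a : Fin 2 → H) (z : (Fin 2 → H) × (Fin 2 → H)) =>
    F (fun i => (a i : G)) (fun i => (z.1 i : G)) (fun i => (z.2 i : G)))]
  apply Finset.expect_congr rfl
  intro a _
  rw [expect_pi, expect_prod_type (fun (b : Fin 2 → H) (r : (Fin 2 → H)) =>
    F (fun i => (a i : G)) (fun i => (b i : G)) (fun i => (r i : G)))]
  apply Finset.expect_congr rfl
  intro b _
  rw [expect_pi]

/-- counting in a coset -/
lemma coset_card [DecidableEq G] (H : Submodule (ZMod 2) G) (s₀ : G) (T : Finset G)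
    (hT : ∀ s ∈ T, s + s₀ ∈ H) :
    𝔼 k : H, (if s₀ + (k : G) ∈ T then (1 : ℝ) else 0) = (T.card : ℝ) / ((hs H).card : ℝ) := by
  rw [← expect_hs H (fun k => if s₀ + k ∈ T then (1 : ℝ) else 0),
    Finset.expect_eq_sum_div_card]
  congr 1
  rw [Finset.sum_boole]
  congr 1
  apply Finset.card_bij (fun k _ => s₀ + k)
  · intro a ha
    exact (Finset.mem_filter.mp ha).2
  · intro a _ b _ h
    exact add_left_cancel h
  · intro b hb
    have h0 : s₀ + (b + s₀) = b := by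
      have : s₀ + (b + s₀) = b + (s₀ + s₀) := by abel
      rw [this, Pool.Agent.H65.SQ.add_self_G, add_zero]
    exact ⟨b + s₀, Finset.mem_filter.mpr ⟨(mem_hs' H _).mpr (hT b hb), by rw [h0]; exact hb⟩, h0⟩

end

/-- near constancy transfer -/
lemma nc {α : Type} [Fintype α] [Nonempty α] (Φ Ψ : α → ℂ) (bad w : α → ℝ) (B D κ η q : ℝ)
    (hbad0 : ∀ z, 0 ≤ bad z) (hw1 : ∀ z, w z ≤ 1)
    (hclose : ∀ z, bad z < 1 → ‖Φ z - Ψ z‖ ≤ D) (hB : ∀ z, ‖Ψ z‖ ≤ B) (hη : 𝔼 z, bad z ≤ η)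
    (hq : q + η ≤ 𝔼 z, w z) (hq0 : 0 < q) (hκ : 𝔼 z, 𝔼 z', ‖Φ z - Φ z'‖ ^ 2 ≤ κ) :
    ∃ z', 0 < w z' ∧ bad z' < 1 ∧
      𝔼 z, ‖Ψ z - Ψ z'‖ ≤ 2 * B * η + Real.sqrt (κ / q) + 2 * D := by
  have hκ0 : 0 ≤ κ := le_trans (Finset.expect_nonneg (fun z _ => Finset.expect_nonneg
    (fun z' _ => by positivity))) hκ
  have hB0 : 0 ≤ B := (norm_nonneg _).trans (hB (Classical.arbitrary α))
  have hkq : 0 ≤ κ / q := by positivity
  have hE0 : ∀ z', 0 ≤ 𝔼 z, ‖Φ z - Φ z'‖ ^ 2 := fun z' =>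
    Finset.expect_nonneg (fun z _ => by positivity)
  have hwb : q ≤ 𝔼 z, (w z - bad z) := by
    rw [Finset.expect_sub_distrib]
    linarith
  have hnotW : ∀ z, ¬ (0 < w z ∧ bad z < 1) → w z - bad z ≤ 0 := by
    intro z hz
    by_cases h1 : 0 < w z
    · have h2 : 1 ≤ bad z := by
        by_contra h3
        exact hz ⟨h1, not_le.mp h3⟩
      linarith [hw1 z]
    · linarith [hbad0 z, not_lt.mp h1]
  obtain ⟨z', hz1, hz2⟩ : ∃ z', (0 < w z' ∧ bad z' < 1) ∧ 𝔼 z, ‖Φ z - Φ z'‖ ^ 2 ≤ κ / q := by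
    by_contra hcon
    push Not at hcon
    have hex : ∃ z, 0 < w z ∧ bad z < 1 := by
      by_contra h1
      push Not at h1
      have h2 : 𝔼 z, (w z - bad z) ≤ 0 := by
        apply Finset.expect_le Finset.univ_nonempty
        intro z _
        apply hnotW
        intro h3
        exact absurd h3.2 (not_lt.mpr (h1 z h3.1))
      linarith
    have h3 : 𝔼 z', (w z' - bad z') * (κ / q) < 𝔼 z', 𝔼 z, ‖Φ z - Φ z'‖ ^ 2 := by
      apply Finset.expect_lt_expect
      · intro z _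
        by_cases h4 : 0 < w z ∧ bad z < 1
        · have h5 := hcon z h4
          have h6 : w z - bad z ≤ 1 := by linarith [hw1 z, hbad0 z]
          nlinarith
        · have h5 := hnotW z h4
          have h6 := hE0 z
          nlinarith
      · obtain ⟨z, hz⟩ := hex
        refine ⟨z, Finset.mem_univ _, ?_⟩
        have h5 := hcon z hz
        have h6 : w z - bad z ≤ 1 := by linarith [hw1 z, hbad0 z]
        nlinarith
    rw [← Finset.expect_mul, Finset.expect_comm] at h3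
    have h7 : κ ≤ (𝔼 z, (w z - bad z)) * (κ / q) := by
      calc κ = q * (κ / q) := by field_simp
        _ ≤ _ := mul_le_mul_of_nonneg_right hwb hkq
    linarith
  refine ⟨z', hz1.1, hz1.2, ?_⟩
  have hD : 0 ≤ D := (norm_nonneg _).trans (hclose z' hz1.2)
  have h1 : 𝔼 z, ‖Φ z - Φ z'‖ ≤ Real.sqrt (κ / q) := by
    apply Real.le_sqrt_of_sq_le
    have h2 := Finset.expect_mul_sq_le_sq_mul_sq Finset.univ (fun z => ‖Φ z - Φ z'‖)
      (fun _ => (1 : ℝ))
    simp only [mul_one, one_pow, Fintype.expect_const] at h2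
    exact h2.trans hz2
  have h2 : ∀ z, ‖Ψ z - Ψ z'‖ ≤ 2 * B * bad z + ‖Φ z - Φ z'‖ + 2 * D := by
    intro z
    have hb := hbad0 z
    by_cases h3 : bad z < 1
    · have h4 := hclose z h3
      have h5 := hclose z' hz1.2
      have h6 : Ψ z - Ψ z' = -(Φ z - Ψ z) + ((Φ z - Φ z') + (Φ z' - Ψ z')) := by ring
      rw [h6]
      have h7 := norm_add_le (-(Φ z - Ψ z)) ((Φ z - Φ z') + (Φ z' - Ψ z'))
      have h8 := norm_add_le (Φ z - Φ z') (Φ z' - Ψ z')
      rw [norm_neg] at h7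
      have h9 : 0 ≤ 2 * B * bad z := by positivity
      linarith
    · have h4 := norm_sub_le (Ψ z) (Ψ z')
      have h5 := hB z
      have h6 := hB z'
      have h7 := norm_nonneg (Φ z - Φ z')
      have h8 : 2 * B ≤ 2 * B * bad z := by
        have := not_lt.mp h3
        nlinarith
      linarith
  calc 𝔼 z, ‖Ψ z - Ψ z'‖ ≤ 𝔼 z, (2 * B * bad z + ‖Φ z - Φ z'‖ + 2 * D) :=
        Finset.expect_le_expect (fun z _ => h2 z)
    _ = 2 * B * (𝔼 z, bad z) + 𝔼 z, ‖Φ z - Φ z'‖ + 2 * D := by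
        rw [Finset.expect_add_distrib, Finset.expect_add_distrib, ← Finset.mul_expect,
          Fintype.expect_const]
    _ ≤ _ := by
        have : 2 * B * (𝔼 z, bad z) ≤ 2 * B * η := mul_le_mul_of_nonneg_left hη (by positivity)
        linarith

lemma mul3_close (a b c a' b' c' : ℂ) (m ε : ℝ) (hm : 0 ≤ m) (hε : 0 ≤ ε) (_hε1 : ε ≤ 1)
    (ha' : ‖a'‖ ≤ m) (hb' : ‖b'‖ ≤ m) (_hc' : ‖c'‖ ≤ m) (ha : ‖a - a'‖ ≤ ε) (hb : ‖b - b'‖ ≤ ε)
    (hc : ‖c - c'‖ ≤ ε) : ‖a * b * c - a' * b' * c'‖ ≤ 3 * (m + 1) ^ 2 * ε := by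
  have hb2 : ‖b‖ ≤ m + 1 := by
    have : b = (b - b') + b' := by ring
    rw [this]
    exact (norm_add_le _ _).trans (by linarith)
  have hc2 : ‖c‖ ≤ m + 1 := by
    have : c = (c - c') + c' := by ring
    rw [this]
    exact (norm_add_le _ _).trans (by linarith)
  have e1 : a * b * c - a' * b' * c' = (a - a') * b * c + a' * (b - b') * c +
      a' * b' * (c - c') := by ring
  rw [e1]
  have h1 : ‖(a - a') * b * c‖ ≤ ε * (m + 1) * (m + 1) := by
    rw [norm_mul, norm_mul]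
    gcongr
  have h2 : ‖a' * (b - b') * c‖ ≤ (m + 1) * ε * (m + 1) := by
    rw [norm_mul, norm_mul]
    gcongr
    linarith
  have h3 : ‖a' * b' * (c - c')‖ ≤ (m + 1) * (m + 1) * ε := by
    rw [norm_mul, norm_mul]
    gcongr <;> linarith
  have h4 := norm_add_le ((a - a') * b * c + a' * (b - b') * c) (a' * b' * (c - c'))
  have h5 := norm_add_le ((a - a') * b * c) (a' * (b - b') * c)
  nlinarith

/-- `Theta` of kernels that are nearly of rank one -/
lemma th_close {G : Type} [AddCommGroup G] [Fintype G] (s t : G) (A B C : Matrix G G ℂ)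
    (e X g : G → ℂ) (b ε : ℝ) (hε : 0 ≤ ε) (hε1 : ε ≤ 1)
    (he : ∀ y, ‖e y‖ ≤ b) (hX : ∀ y, ‖X y‖ ≤ b) (hg : ∀ y, ‖g y‖ ≤ b)
    (hA : ∀ y y', ‖(Fintype.card G : ℂ) * A y y' - e y * conj (e y')‖ ≤ ε)
    (hB : ∀ y y', ‖(Fintype.card G : ℂ) * B y y' - X y * conj (X y')‖ ≤ ε)
    (hC : ∀ y y', ‖(Fintype.card G : ℂ) * C y y' - g y * conj (g y')‖ ≤ ε) :
    ‖Th s t A B C - ((‖Tri s t e X g‖ ^ 2 : ℝ) : ℂ)‖ ≤ 3 * (b ^ 2 + 1) ^ 2 * ε := by
  have hN : (Fintype.card G : ℂ) ≠ 0 := by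
    have : Fintype.card G ≠ 0 := Fintype.card_ne_zero
    exact_mod_cast this
  set N : ℂ := (Fintype.card G : ℂ) with hNdef
  have e1 : Th s t A B C = 𝔼 y, 𝔼 y', (N * A y y') * (N * B (y + s) (y' + s)) *
      (N * C (y + s + t) (y' + s + t)) := by
    unfold Th
    simp only [Fintype.expect_eq_sum_div_card]
    rw [← Finset.sum_div, div_div, eq_div_iff (mul_ne_zero hN hN), Finset.mul_sum, Finset.sum_mul]
    apply Finset.sum_congr rfl
    intro y _
    rw [Finset.mul_sum, Finset.sum_mul]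
    apply Finset.sum_congr rfl
    intro y' _
    ring
  have e2 : ((‖Tri s t e X g‖ ^ 2 : ℝ) : ℂ) = 𝔼 y, 𝔼 y', (e y * conj (e y')) *
      (X (y + s) * conj (X (y' + s))) * (g (y + s + t) * conj (g (y' + s + t))) := by
    have h1 : ((‖Tri s t e X g‖ ^ 2 : ℝ) : ℂ) = Tri s t e X g * conj (Tri s t e X g) := by
      rw [Complex.mul_conj, Complex.normSq_eq_norm_sq]
    rw [h1]
    unfold Tri
    rw [map_expect, Finset.expect_mul_expect]
    apply Finset.expect_congr rfl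
    intro y _
    apply Finset.expect_congr rfl
    intro y' _
    simp only [map_mul]
    ring
  rw [e1, e2, ← Finset.expect_sub_distrib]
  have hb0 : ∀ y : G, 0 ≤ b := fun y => (norm_nonneg _).trans (he y)
  have bound : ∀ (f : G → ℂ) (c : ℝ), (∀ y, ‖f y‖ ≤ c) → ‖𝔼 y, f y‖ ≤ c := by
    intro f c hf
    rw [Fintype.expect_eq_sum_div_card, norm_div]
    have h1 : ‖∑ y, f y‖ ≤ Fintype.card G * c := by
      refine (norm_sum_le _ _).trans ?_
      calc ∑ y, ‖f y‖ ≤ ∑ _y : G, c := Finset.sum_le_sum (fun y _ => hf y)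
        _ = _ := by simp
    have h2 : (0 : ℝ) < Fintype.card G := by
      have : 0 < Fintype.card G := Fintype.card_pos
      exact_mod_cast this
    rw [Complex.norm_natCast, div_le_iff₀ h2]
    linarith
  apply bound
  intro y
  rw [← Finset.expect_sub_distrib]
  apply bound
  intro y'
  have hb := hb0 y
  have hm : ∀ (f : G → ℂ), (∀ y, ‖f y‖ ≤ b) → ∀ u v, ‖f u * conj (f v)‖ ≤ b ^ 2 := by
    intro f hf u v
    rw [norm_mul, RCLike.norm_conj, sq]
    exact mul_le_mul (hf u) (hf v) (norm_nonneg _) hb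
  exact mul3_close _ _ _ _ _ _ (b ^ 2) ε (by positivity) hε hε1 (hm e he _ _) (hm X hX _ _)
    (hm g hg _ _) (hA _ _) (hB _ _) (hC _ _)

end Pool.Agent.H45.SQ.RKA
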