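import Pool.Agent.H45.SQ.RKA1

/-!
# More lemmas for the module RKA
-/

namespace Pool.Agent.H45.SQ.RKA

open Finset Polynomial Pool.Agent.H45.SQ
open scoped BigOperators ComplexConjugate

lemma consts (b θ p ε : ℝ) (hb : 1 ≤ b) (hθ : 0 < θ) (hp : 0 < p) (hε : 0 < ε) :
    ∃ e : ℝ, 0 < e ∧ 2 * b ^ 24 * (12 * e) + 2 * (12 * (b ^ 2 + 1) ^ 11 * e) ≤ ε / 2 ∧
      2 * b ^ 6 * (3 * e) + 2 * (3 * (b ^ 2 + 1) ^ 2 * e) ≤ ε / 2 ∧
      3 * (b ^ 2 + 1) ^ 2 * (2 * e) ≤ θ / 2 ∧ 3 * e ≤ p / 2 ∧ 12 * e ≤ 1 / 2 := by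
  have hb0 : 0 < b := by linarith
  set Z : ℝ := 24 * b ^ 24 + 24 * (b ^ 2 + 1) ^ 11 + 6 * b ^ 6 + 6 * (b ^ 2 + 1) ^ 2 + 24 with hZ
  have h1 : 0 < b ^ 24 := by positivity
  have h2 : 0 < (b ^ 2 + 1) ^ 11 := by positivity
  have h3 : 0 < b ^ 6 := by positivity
  have h4 : 0 < (b ^ 2 + 1) ^ 2 := by positivity
  have hZ0 : 0 < Z := by positivity
  set m : ℝ := min (min (ε / 2) (θ / 2)) (min (p / 2) (1 / 2)) with hm
  have hm0 : 0 < m := by positivity
  have hm1 : m ≤ ε / 2 := (min_le_left _ _).trans (min_le_left _ _)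
  have hm2 : m ≤ θ / 2 := (min_le_left _ _).trans (min_le_right _ _)
  have hm3 : m ≤ p / 2 := (min_le_right _ _).trans (min_le_left _ _)
  have hm4 : m ≤ 1 / 2 := (min_le_right _ _).trans (min_le_right _ _)
  have he : 0 < m / Z := by positivity
  have key : ∀ x : ℝ, x ≤ Z → x * (m / Z) ≤ m := by
    intro x hx
    calc x * (m / Z) ≤ Z * (m / Z) := mul_le_mul_of_nonneg_right hx he.le
      _ = m := by field_simp
  refine ⟨m / Z, he, ?_, ?_, ?_, ?_, ?_⟩
  · have := key (24 * b ^ 24 + 24 * (b ^ 2 + 1) ^ 11) (by rw [hZ]; linarith)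
    linarith
  · have := key (6 * b ^ 6 + 6 * (b ^ 2 + 1) ^ 2) (by rw [hZ]; linarith)
    linarith
  · have := key (6 * (b ^ 2 + 1) ^ 2) (by rw [hZ]; linarith)
    linarith
  · have := key 3 (by rw [hZ]; linarith)
    linarith
  · have := key 12 (by rw [hZ]; linarith)
    linarith

lemma Planar.mono {G ι : Type} [AddCommGroup G] [Fintype G] [Fintype ι] {C C' : ℝ}
    {g : (ι → G) → ℂ} (h : Planar C g) (hC : C ≤ C') : Planar C' g := by
  obtain ⟨Ω, i1, c, φ, h1, h2, h3⟩ := h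
  exact ⟨Ω, i1, c, φ, h1, h2.trans hC, h3⟩

section
variable {G : Type} [AddCommGroup G] [Fintype G] [DecidableEq G] [Module (ZMod 2) G]

lemma base (S : Finset (G × G)) (p : ℝ) (hS : p * (Fintype.card G : ℝ) ^ 2 ≤ S.card)
    (H : Submodule (ZMod 2) G) :
    ∃ s₀ t₀ : G, p ≤ 𝔼 z : H × H, (if (s₀ + (z.1 : G), t₀ + (z.2 : G)) ∈ S then (1 : ℝ) else 0) := by
  have h1 : 𝔼 z0 : G × G, 𝔼 z : H × H,
      (if (z0.1 + (z.1 : G), z0.2 + (z.2 : G)) ∈ S then (1 : ℝ) else 0) =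
      𝔼 z0 : G × G, (if z0 ∈ S then (1 : ℝ) else 0) := by
    rw [Finset.expect_comm]
    have : ∀ z : H × H, 𝔼 z0 : G × G,
        (if (z0.1 + (z.1 : G), z0.2 + (z.2 : G)) ∈ S then (1 : ℝ) else 0) =
        𝔼 z0 : G × G, (if z0 ∈ S then (1 : ℝ) else 0) := by
      intro z
      apply Fintype.expect_equiv (Equiv.addRight (((z.1 : G), (z.2 : G)) : G × G))
      intro z0
      rfl
    rw [Finset.expect_congr rfl (fun z _ => this z), Fintype.expect_const]
  have h2 : p ≤ 𝔼 z0 : G × G, (if z0 ∈ S then (1 : ℝ) else 0) := by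
    rw [Fintype.expect_eq_sum_div_card, Finset.sum_boole, Finset.filter_univ_mem,
      Fintype.card_prod]
    have h3 : (0 : ℝ) < Fintype.card G := by
      have : 0 < Fintype.card G := Fintype.card_pos
      exact_mod_cast this
    push_cast
    rw [le_div_iff₀ (by positivity), ← sq]
    exact hS
  rw [← h1] at h2
  obtain ⟨z0, _, hz0⟩ := Finset.exists_le_of_le_expect Finset.univ_nonempty h2
  exact ⟨z0.1, z0.2, hz0⟩

lemma hs_pos (H : Submodule (ZMod 2) G) : (0 : ℝ) < (hs H).card := by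
  have : 0 < (hs H).card := Finset.card_pos.mpr ⟨0, (mem_hs' H 0).mpr H.zero_mem⟩
  exact_mod_cast this

lemma dens_proj (H : Submodule (ZMod 2) G) (u₀ : G) (T : Finset G)
    (hT : ∀ s ∈ T, s + u₀ ∈ H) (π : H × H → H) (hπ : ∀ x y, π (x + y) = π x + π y)
    (R : H → H × H) (hR : ∀ y, π (R y) = y) (ind : H × H → ℝ) (p : ℝ) (hp : p ≤ 𝔼 z, ind z)
    (hle : ∀ z, ind z ≤ if u₀ + (π z : G) ∈ T then (1 : ℝ) else 0) :
    p * ((hs H).card : ℝ) ≤ T.card := by
  have h1 : 𝔼 z : H × H, (if u₀ + (π z : G) ∈ T then (1 : ℝ) else 0) =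
      (T.card : ℝ) / ((hs H).card : ℝ) := by
    rw [← coset_card H u₀ T hT]
    exact pushf π hπ R hR (fun k : H => if u₀ + (k : G) ∈ T then (1 : ℝ) else 0)
  have h2 : p ≤ (T.card : ℝ) / ((hs H).card : ℝ) := by
    rw [← h1]
    exact hp.trans (Finset.expect_le_expect (fun z _ => hle z))
  rw [le_div_iff₀ (hs_pos H)] at h2
  exact h2

lemma bad_le (H : Submodule (ZMod 2) G) (u₀ : G) (T : Finset G)
    (hT : ∀ s ∈ T, s + u₀ ∈ H) (ε : ℝ) (hc : (1 - ε) * ((hs H).card : ℝ) ≤ T.card) :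
    𝔼 k : H, (if u₀ + (k : G) ∈ T then (0 : ℝ) else 1) ≤ ε := by
  have h1 : 𝔼 k : H, (if u₀ + (k : G) ∈ T then (0 : ℝ) else 1) =
      1 - 𝔼 k : H, (if u₀ + (k : G) ∈ T then (1 : ℝ) else 0) := by
    have : (1 : ℝ) = 𝔼 _k : H, (1 : ℝ) := by rw [Fintype.expect_const]
    rw [this, ← Finset.expect_sub_distrib]
    apply Finset.expect_congr rfl
    intro k _
    split_ifs <;> simp
  rw [h1, coset_card H u₀ T hT]
  have h2 : 1 - ε ≤ (T.card : ℝ) / ((hs H).card : ℝ) := by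
    rw [le_div_iff₀ (hs_pos H)]
    exact hc
  linarith

omit [DecidableEq G] [Module (ZMod 2) G] in
lemma tri_le (s t : G) (e X g : G → ℂ) (b : ℝ) (he : ∀ y, ‖e y‖ ≤ b) (hX : ∀ y, ‖X y‖ ≤ b)
    (hg : ∀ y, ‖g y‖ ≤ b) : ‖Tri s t e X g‖ ≤ b ^ 3 := by
  unfold Tri
  rw [Fintype.expect_eq_sum_div_card, norm_div]
  have h2 : (0 : ℝ) < Fintype.card G := by
    have : 0 < Fintype.card G := Fintype.card_pos
    exact_mod_cast this
  rw [Complex.norm_natCast, div_le_iff₀ h2]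
  refine (norm_sum_le _ _).trans ?_
  calc ∑ y, ‖e y * X (y + s) * g (y + s + t)‖ ≤ ∑ _y : G, b ^ 3 := by
        apply Finset.sum_le_sum
        intro y _
        have hb : 0 ≤ b := (norm_nonneg _).trans (he y)
        rw [norm_mul, norm_mul]
        calc ‖e y‖ * ‖X (y + s)‖ * ‖g (y + s + t)‖ ≤ b * b * b := by
              gcongr
              · exact he y
              · exact hX _
              · exact hg _
          _ = b ^ 3 := by ring
    _ = b ^ 3 * Fintype.card G := by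
        rw [Finset.sum_const, nsmul_eq_mul, Finset.card_univ]
        ring

end

lemma cj_norm (k : ℕ) (z : ℂ) : ‖cj k z‖ = ‖z‖ := by
  unfold cj
  split_ifs
  · rfl
  · exact RCLike.norm_conj z

lemma prod_le (c : Fin 2 → Fin 2 → Fin 2 → ℂ) (b : ℝ) (hb : 0 ≤ b)
    (hc : ∀ i j k, ‖c i j k‖ ≤ b ^ 3) :
    ‖∏ i : Fin 2, ∏ j : Fin 2, ∏ k : Fin 2, cj (i.val + j.val + k.val) (c i j k)‖ ≤ b ^ 24 := by
  rw [norm_prod]
  calc ∏ i : Fin 2, ‖∏ j : Fin 2, ∏ k : Fin 2, cj (i.val + j.val + k.val) (c i j k)‖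
      ≤ ∏ _i : Fin 2, b ^ 12 := by
        apply Finset.prod_le_prod (fun _ _ => norm_nonneg _)
        intro i _
        rw [norm_prod]
        calc ∏ j : Fin 2, ‖∏ k : Fin 2, cj (i.val + j.val + k.val) (c i j k)‖
            ≤ ∏ _j : Fin 2, b ^ 6 := by
              apply Finset.prod_le_prod (fun _ _ => norm_nonneg _)
              intro j _
              rw [norm_prod]
              calc ∏ k : Fin 2, ‖cj (i.val + j.val + k.val) (c i j k)‖
                  ≤ ∏ _k : Fin 2, b ^ 3 := by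
                    apply Finset.prod_le_prod (fun _ _ => norm_nonneg _)
                    intro k _
                    rw [cj_norm]
                    exact hc i j k
                _ = b ^ 6 := by
                    rw [Finset.prod_const, Finset.card_univ, Fintype.card_fin]
                    ring
          _ = b ^ 12 := by
              rw [Finset.prod_const, Finset.card_univ, Fintype.card_fin]
              ring
    _ = b ^ 24 := by
        rw [Finset.prod_const, Finset.card_univ, Fintype.card_fin]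
        ring

lemma stat_planar (hMUL : T_MUL) (hLIN : T_LIN) (hPTR : T_PTR) {G : Type} [AddCommGroup G]
    [Fintype G] [DecidableEq G] [Module (ZMod 2) G] (F : Fam G) (C : ℝ) (hF : Sep C F)
    {ι : Type} [Fintype ι] [DecidableEq ι] (i j : ι) (hij : i ≠ j) :
    Planar (C * C) (fun r : ι → G => (mat F (r i + r j) * mat F (r i + r j)).trace) ∧
    Planar ((C + |(-1 : ℝ)| * (C * C)) * (C + |(-1 : ℝ)| * (C * C)))
      (fun r : ι → G => ((mat F (r i + r j) - mat F (r i + r j) * mat F (r i + r j)) *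
        (mat F (r i + r j) - mat F (r i + r j) * mat F (r i + r j))).trace) := by
  have h1 := (hMUL G F F).1 C C hF hF
  have h2 := (hMUL G F F).2
  constructor
  · have h3 := hPTR G ι i j (mulF F F) (C * C) hij h1
    simp only [h2] at h3
    exact h3
  · set W : Fam G := fun o u v => F o u v + ((-1 : ℝ) : ℂ) * mulF F F o u v with hW
    have h4 : Sep (C + |(-1 : ℝ)| * (C * C)) W := by
      have h5 := (hLIN G (mulF F F) F (C * C) C (-1)).2.2.2.1 h1
      exact (hLIN G F (fun o u v => ((-1 : ℝ) : ℂ) * mulF F F o u v) C (|(-1 : ℝ)| * (C * C))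
        0).2.2.1 hF h5
    have h6 : ∀ s, mat W s = mat F s - mat F s * mat F s := by
      intro s
      have h7 := (hLIN G F (fun o u v => ((-1 : ℝ) : ℂ) * mulF F F o u v) C 0 0).2.2.2.2.2.2.1 s
      have h8 := (hLIN G (mulF F F) F (C * C) C (-1)).2.2.2.2.2.2.2.1 s
      rw [hW, h7, h8, h2]
      simp [sub_eq_add_neg]
    have h9 := (hMUL G W W).1 _ _ h4 h4
    have h10 := (hMUL G W W).2
    have h11 := hPTR G ι i j (mulF W W) _ hij h9
    simp only [h10, h6] at h11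
    exact h11

lemma sqrt_small (κ q δ : ℝ) (hq : 0 < q) (hδ : 0 ≤ δ) (h : κ ≤ q * δ ^ 2) :
    Real.sqrt (κ / q) ≤ δ := by
  apply Real.sqrt_le_iff.mpr
  refine ⟨hδ, ?_⟩
  rw [div_le_iff₀ hq]
  linarith

end Pool.Agent.H45.SQ.RKA
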