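import Pool.Agent.H45.SQ.Defs

/-!
# Targets, part 1: families, matrices, configurations, descent
-/

namespace Pool.Agent.H45.SQ

open Finset Polynomial
open scoped BigOperators ComplexConjugate ComplexOrder

/-- MUL: products of families. -/
def T_MUL : Prop :=
  ∀ (G : Type) [AddCommGroup G] [Fintype G] [DecidableEq G] [Module (ZMod 2) G]
    (L L' : Fam G),
    (∀ C C' : ℝ, Sep C L → Sep C' L' → Sep (C * C') (mulF L L')) ∧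
    (∀ s, mat (mulF L L') s = mat L s * mat L' s)

/-- LIN: sums and real multiples of families; elementary facts on `Sep` and `Herm`. -/
def T_LIN : Prop :=
  ∀ (G : Type) [AddCommGroup G] [Fintype G] [DecidableEq G] [Module (ZMod 2) G]
    (L L' : Fam G) (C C' : ℝ) (c : ℝ),
    (Sep C L → 0 ≤ C) ∧ (Sep C L → C ≤ C' → Sep C' L) ∧
    (Sep C L → Sep C' L' → Sep (C + C') (fun o u v => L o u v + L' o u v)) ∧
    (Sep C L → Sep (|c| * C) (fun o u v => (c : ℂ) * L o u v)) ∧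
    (Herm L → Herm L' → Herm (fun o u v => L o u v + L' o u v)) ∧
    (Herm L → Herm (fun o u v => (c : ℂ) * L o u v)) ∧
    (∀ s, mat (fun o u v => L o u v + L' o u v) s = mat L s + mat L' s) ∧
    (∀ s, mat (fun o u v => (c : ℂ) * L o u v) s = (c : ℂ) • mat L s) ∧
    (Herm L ↔ ∀ s, (mat L s).IsHermitian)

/-- ENT: entries and operator norm of separated families. -/
def T_ENT : Prop :=
  ∀ (G : Type) [AddCommGroup G] [Fintype G] [DecidableEq G] [Module (ZMod 2) G]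
    (L : Fam G) (C : ℝ), Sep C L →
    (∀ o u v, ‖L o u v‖ ≤ C) ∧ (∀ s, EntLe (mat L s) C) ∧ (∀ s, OpLe (mat L s) C)

/-- POLY: real polynomials without constant term of a Hermitian separated family. -/
def T_POLY : Prop :=
  ∀ (q : ℝ[X]), q.coeff 0 = 0 → ∀ C : ℝ, ∃ C' : ℝ,
    ∀ (G : Type) [AddCommGroup G] [Fintype G] [DecidableEq G] [Module (ZMod 2) G]
      (L : Fam G), Sep C L → Herm L →
      ∃ L' : Fam G, Sep C' L' ∧ Herm L' ∧ ∀ s, mat L' s = aeval (mat L s) q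

/-- SHARP: the reflection. -/
def T_SHARP : Prop :=
  ∀ (G : Type) [AddCommGroup G] [Fintype G] [DecidableEq G] [Module (ZMod 2) G]
    (f : G → G → ℂ) (L : Fam G),
    (∀ C, Sep C L → Sep C (sharp L)) ∧ (Herm L → Herm (sharp L)) ∧
    (∀ s, mat (sharp L) s = twist s (mat L s)) ∧ sharp (rho f) = rho f ∧
    (∀ Λ, Dom f Λ L → Dom f Λ (sharp L)) ∧ sharp (sharp L) = L

/-- TWI: properties of `twist`. -/
def T_TWI : Prop :=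
  ∀ (G : Type) [AddCommGroup G] [Fintype G] [DecidableEq G] [Module (ZMod 2) G]
    (s t : G) (M P A B C : Matrix G G ℂ),
    (∀ D, Gap M P D → Gap (twist s M) (twist s P) D) ∧ twist s (twist s P) = P ∧
    (∀ v : G → ℂ, P.mulVec v = v →
      (twist s P).mulVec (fun y => conj (v (y + s))) = fun y => conj (v (y + s))) ∧
    Th t s (twist t B) (twist s A) (twist (s + t) C) = conj (Th s t A B C) ∧
    Th s t A B C = Th t (s + t) B C A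

/-- ANCH: anchored families. -/
def T_ANCH : Prop :=
  ∀ (G : Type) [AddCommGroup G] [Fintype G] [DecidableEq G] [Module (ZMod 2) G]
    (L : Fam G) (t₀ : G) (X₀ : G → ℂ) (b : ℝ), (∀ x, ‖X₀ x‖ ≤ b) →
    (∀ C, Sep C L → Sep (C * b ^ 2) (anch t₀ X₀ L)) ∧ (Herm L → Herm (anch t₀ X₀ L)) ∧
    (∀ s, mat (anch t₀ X₀ L) s = Rm s t₀ X₀ (mat L (s + t₀)))

/-- RHO: the basic family. -/
def T_RHO : Prop :=
  ∀ (G : Type) [AddCommGroup G] [Fintype G] [DecidableEq G] [Module (ZMod 2) G]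
    (f : G → G → ℂ), (∀ x y, ‖f x y‖ ≤ 1) →
    Sep 1 (rho f) ∧ Herm (rho f) ∧ (∀ s, (mat (rho f) s).PosSemidef) ∧
    (∀ s, (mat (rho f) s).trace.re ≤ 1) ∧
    (∀ o, (Matrix.of fun u v => ((Fintype.card G : ℂ))⁻¹ * rho f o u v).PosSemidef) ∧
    (∀ o, (Matrix.of fun u v => ((Fintype.card G : ℂ))⁻¹ * rho f o u v).trace.re ≤ 1)

/-- CUBIC: `Tr A^3 ≥ (Tr A^2)^2` for positive semidefinite matrices of trace at most one. -/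
def T_CUBIC : Prop :=
  ∀ (G : Type) [Fintype G] [DecidableEq G] (A : Matrix G G ℂ), A.PosSemidef → A.trace.re ≤ 1 →
    ((A * A).trace.re) ^ 2 ≤ (A * A * A).trace.re

/-- T3: the lower bound for the mean of `Theta (rho, rho, rho)`. -/
def T_T3 : Prop :=
  ∀ (G : Type) [AddCommGroup G] [Fintype G] [DecidableEq G] [Module (ZMod 2) G]
    (f : G → G → ℂ), (∀ x y, ‖f x y‖ ≤ 1) →
    (U8 f) ^ 2 ≤ 𝔼 s, 𝔼 t,
      (Th s t (mat (rho f) s) (mat (rho f) t) (mat (rho f) (s + t))).re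

/-- OPT: calculus of `OpLe`. -/
def T_OPT : Prop :=
  ∀ (G : Type) [AddCommGroup G] [Fintype G] [DecidableEq G] [Module (ZMod 2) G]
    (M M' : Matrix G G ℂ) (c c' : ℝ),
    (OpLe M c → OpLe M' c' → OpLe (M + M') (c + c')) ∧
    (OpLe M c → OpLe M' c' → OpLe (M - M') (c + c')) ∧
    (OpLe M c → OpLe M' c' → OpLe (M * M') (c * c')) ∧
    (OpLe M c → c ≤ c' → OpLe M c') ∧ (Proj M → OpLe M 1) ∧
    (0 ≤ c → EntLe M c → OpLe M c) ∧ (OpLe M c → OpLe M.conjTranspose c) ∧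
    (∀ g : G → ℂ, OpLe M c → |qf M g| ≤ c * ∑ y, ‖g y‖ ^ 2) ∧
    (∀ (X : G → ℂ) (b : ℝ) (s t : G), (∀ x, ‖X x‖ ≤ b) → OpLe M c →
      OpLe (Rm s t X M) (b ^ 2 * c)) ∧
    (∀ (X : G → ℂ) (s t : G), M.IsHermitian → (Rm s t X M).IsHermitian) ∧
    (∀ (X : G → ℂ) (s t : G), Proj M → ∀ g, 0 ≤ qf (Rm s t X M) g)

/-- LIP: polynomials are Lipschitz in the operator norm. -/
def T_LIP : Prop :=
  ∀ (q : ℝ[X]) (R : ℝ), ∃ Lq : ℝ, 0 ≤ Lq ∧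
    ∀ (G : Type) [AddCommGroup G] [Fintype G] [DecidableEq G] [Module (ZMod 2) G]
      (A B : Matrix G G ℂ) (ε : ℝ), OpLe A R → OpLe B R → OpLe (A - B) ε →
      OpLe (aeval A q - aeval B q) (Lq * ε)

/-- CUTP: cut polynomials exist. -/
def T_CUTP : Prop :=
  ∀ (R a b ε : ℝ), 0 < a → a < b → b ≤ R → 0 < ε → ∃ q : ℝ[X], CutPoly R a b ε q

/-- BAS: orthonormal bases (normalised functions) of the range of a projection. -/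
def T_BAS : Prop :=
  ∀ (G : Type) [AddCommGroup G] [Fintype G] [DecidableEq G] [Module (ZMod 2) G]
    (P : Matrix G G ℂ) (D : ℕ), Proj P → P.trace = (D : ℂ) →
    ∃ e : Fin D → G → ℂ, (∀ i j, 𝔼 y, e i y * conj (e j y) = if i = j then 1 else 0) ∧
      (∀ i, P.mulVec (e i) = e i) ∧
      (∀ y y', P y y' = ((Fintype.card G : ℂ))⁻¹ * ∑ i, e i y * conj (e i y'))

/-- THB: `Theta` of projections and its bound. -/
def T_THB : Prop :=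
  ∀ (G : Type) [AddCommGroup G] [Fintype G] [DecidableEq G] [Module (ZMod 2) G]
    (s t : G) (DA DB DC : ℕ) (e : Fin DA → G → ℂ) (X : Fin DB → G → ℂ) (g : Fin DC → G → ℂ)
    (PA PB PC : Matrix G G ℂ),
    (∀ y y', PA y y' = ((Fintype.card G : ℂ))⁻¹ * ∑ i, e i y * conj (e i y')) →
    (∀ y y', PB y y' = ((Fintype.card G : ℂ))⁻¹ * ∑ i, X i y * conj (X i y')) →
    (∀ y y', PC y y' = ((Fintype.card G : ℂ))⁻¹ * ∑ i, g i y * conj (g i y')) →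
    (Th s t PA PB PC = ((∑ i, ∑ j, ∑ k, ‖Tri s t (e i) (X j) (g k)‖ ^ 2 : ℝ) : ℂ)) ∧
    (∀ (M : Matrix G G ℂ) (ε b : ℝ), OpLe M ε → (∀ j y, ‖X j y‖ ≤ b) →
      (∀ k, 𝔼 y, ‖g k y‖ ^ 2 ≤ 1) → ‖Th s t M PB PC‖ ≤ ε * DB * DC * b ^ 2) ∧
    (∀ (x : G → ℂ) (v : G → ℂ), qf (Rm s t x PC) v =
      (Fintype.card G : ℝ) * ∑ k, ‖Tri s t v x (g k)‖ ^ 2)

/-- FLAT: normalised elements of the range of a gap projection are flat. -/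
def T_FLAT : Prop :=
  ∀ (G : Type) [AddCommGroup G] [Fintype G] [DecidableEq G] [Module (ZMod 2) G]
    (M P : Matrix G G ℂ) (D : ℕ) (K : ℝ), 0 ≤ K → EntLe M K → Gap M P D →
    ∀ e : G → ℂ, P.mulVec e = e → 𝔼 y, ‖e y‖ ^ 2 ≤ 1 → ∀ y, ‖e y‖ ≤ 2 * K

/-- SHRP: sharpening by a cut polynomial, uniformly in the entries. -/
def T_SHRP : Prop :=
  ∀ (G : Type) [AddCommGroup G] [Fintype G] [DecidableEq G] [Module (ZMod 2) G]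
    (M P : Matrix G G ℂ) (D : ℕ) (K R τ : ℝ) (h : ℝ[X]), 0 ≤ K → K ≤ R → 1 ≤ R →
    CutPoly R (1 / 4) (3 / 4) τ h → M.IsHermitian → EntLe M K → Gap M P D →
    EntLe (aeval M h - P) (2 * τ * K ^ 2)

/-- PERT: a Hermitian matrix close to a projection has a gap projection. -/
def T_PERT : Prop :=
  ∀ (G : Type) [AddCommGroup G] [Fintype G] [DecidableEq G] [Module (ZMod 2) G]
    (L P₁ : Matrix G G ℂ) (D : ℕ) (ε : ℝ), L.IsHermitian → Proj P₁ → P₁.trace = (D : ℂ) →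
    ε ≤ 1 / 8 → OpLe (L - P₁) ε → ∃ P' : Matrix G G ℂ, Gap L P' D ∧ OpLe (P' - P₁) (2 * ε)

/-- CUT: cutting a projection by a non-scalar operator. -/
def T_CUT : Prop :=
  ∀ (D : ℕ) (B ξ ε : ℝ), 0 < B → 0 < ξ → 0 < ε → ∃ (J : ℕ) (q : Fin J → ℝ[X]),
    (∀ j, (q j).coeff 0 = 0 ∧ (q j).coeff 1 = 0) ∧
    ∀ (G : Type) [AddCommGroup G] [Fintype G] [DecidableEq G] [Module (ZMod 2) G]
      (P K : Matrix G G ℂ), Proj P → P.trace = (D : ℂ) → K.IsHermitian → P * K = K →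
      K * P = K → (∀ g, 0 ≤ qf K g) → OpLe K B →
      (∃ v v' : G → ℂ, P.mulVec v = v ∧ P.mulVec v' = v' ∧ ∑ y, ‖v y‖ ^ 2 = 1 ∧
        ∑ y, ‖v' y‖ ^ 2 = 1 ∧ ξ ≤ qf K v - qf K v') →
      ∃ (j : Fin J) (D₁ : ℕ) (P₁ : Matrix G G ℂ), 1 ≤ D₁ ∧ D₁ < D ∧ Proj P₁ ∧
        P₁.trace = (D₁ : ℂ) ∧ P * P₁ = P₁ ∧ P₁ * P = P₁ ∧ OpLe (aeval K (q j) - P₁) ε

/-- INI1: spectral cut of a positive semidefinite matrix. -/
def T_INI1 : Prop :=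
  ∀ ε : ℝ, 0 < ε → ε ≤ 1 → ∃ (J : ℕ) (q : Fin J → ℝ[X]) (Λ : ℝ),
    (∀ j, (q j).coeff 0 = 0 ∧ (q j).coeff 1 = 0) ∧
    ∀ (G : Type) [AddCommGroup G] [Fintype G] [DecidableEq G] [Module (ZMod 2) G]
      (ρ : Matrix G G ℂ), ρ.PosSemidef → ρ.trace.re ≤ 1 → EntLe ρ 1 →
      (∀ j (g : G → ℂ), ∑ y, ‖(aeval ρ (q j)).mulVec g y‖ ^ 2 ≤ Λ * qf ρ g) ∧
      ∃ (j : Fin J) (D : ℕ) (P : Matrix G G ℂ), (D : ℝ) ≤ 2 / ε ∧ Gap (aeval ρ (q j)) P D ∧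
        P * ρ = ρ * P ∧ (P - ρ * P).PosSemidef ∧ (ρ * P).PosSemidef ∧
        hsq (ρ - ρ * P) ≤ ε ∧ EntLe (ρ * P) 1

/-- THM: monotonicity and Hilbert-Schmidt bound for `Theta`. -/
def T_THM : Prop :=
  ∀ (G : Type) [AddCommGroup G] [Fintype G] [DecidableEq G] [Module (ZMod 2) G]
    (s t : G) (A A' B C : Matrix G G ℂ),
    ((A' - A).PosSemidef → B.PosSemidef → C.PosSemidef →
      (Th s t A B C).re ≤ (Th s t A' B C).re) ∧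
    (∀ b, EntLe B b → ‖Th s t A B C‖ ≤ b * Real.sqrt (hsq A) * Real.sqrt (hsq C))

/-- The anchors in `ℂ^D`, indexed by `Fin D × Fin D × Fin 3`. -/
noncomputable def xs (D : ℕ) (ι : Fin D × Fin D × Fin 3) (i : Fin D) : ℂ :=
  if ι.2.2 = 0 then (if i = ι.1 then 1 else 0)
  else if ι.2.2 = 1 then ((if i = ι.1 then 1 else 0) + (if i = ι.2.1 then 1 else 0)) / 2
  else ((if i = ι.1 then 1 else 0) + Complex.I * (if i = ι.2.1 then 1 else 0)) / 2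

/-- LA: the linear algebra lemma. -/
def T_LA : Prop :=
  ∀ (D D' D'' : ℕ) (θ : ℝ), 0 < θ → D'' < D * D' → ∃ ξ : ℝ, 0 < ξ ∧
    ∀ τ : Fin D → Fin D' → Fin D'' → ℂ, θ ≤ ∑ i, ∑ j, ∑ k, ‖τ i j k‖ ^ 2 →
    (∃ ι, ∃ v v' : Fin D → ℂ, ∑ i, ‖v i‖ ^ 2 = 1 ∧ ∑ i, ‖v' i‖ ^ 2 = 1 ∧
      ξ ≤ ∑ k, ‖∑ i, ∑ j, v i * xs D' ι j * τ i j k‖ ^ 2 -
        ∑ k, ‖∑ i, ∑ j, v' i * xs D' ι j * τ i j k‖ ^ 2) ∨
    (∃ ι, ∃ x x' : Fin D' → ℂ, ∑ i, ‖x i‖ ^ 2 = 1 ∧ ∑ i, ‖x' i‖ ^ 2 = 1 ∧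
      ξ ≤ ∑ k, ‖∑ i, ∑ j, xs D ι i * x j * τ i j k‖ ^ 2 -
        ∑ k, ‖∑ i, ∑ j, xs D ι i * x' j * τ i j k‖ ^ 2)

/-- ALT: in a configuration every good pair has an anchor with non-scalar form. -/
def T_ALT : Prop :=
  ∀ (DA DB DC : ℕ) (θ : ℝ), 0 < θ → DC < DA * DB → ∃ (ξ : ℝ) (m : ℕ), 0 < ξ ∧
    ∀ (G : Type) [AddCommGroup G] [Fintype G] [DecidableEq G] [Module (ZMod 2) G]
      (f : G → G → ℂ) (K Λ p : ℝ) (A B C : Fam G) (PA PB PC : G → Matrix G G ℂ)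
      (S : Finset (G × G)), Conf f K Λ θ p DA DB DC A B C PA PB PC S →
      ∃ XA XB : G → Fin m → G → ℂ,
        (∀ z ∈ S, ∀ i, (PA z.1).mulVec (XA z.1 i) = XA z.1 i ∧ 𝔼 y, ‖XA z.1 i y‖ ^ 2 ≤ 1) ∧
        (∀ z ∈ S, ∀ i, (PB z.2).mulVec (XB z.2 i) = XB z.2 i ∧ 𝔼 y, ‖XB z.2 i y‖ ^ 2 ≤ 1) ∧
        ∀ z ∈ S, (∃ i, Spread ξ z.1 z.2 (PA z.1) (PC (z.1 + z.2)) (XB z.2 i)) ∨
          (∃ i, Spread ξ z.2 z.1 (twist z.2 (PB z.2)) (twist (z.1 + z.2) (PC (z.1 + z.2)))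
            (fun y => conj (XA z.1 i (y + z.1))))

/-- PIG: the pigeonhole principle on pairs. -/
def T_PIG : Prop :=
  ∀ (G κ : Type) [Fintype G] [DecidableEq G] [Nonempty G] [Fintype κ] [DecidableEq κ] (S : Finset (G × G))
    (p : ℝ) (col : G × G → κ), 0 ≤ p → p * (Fintype.card G : ℝ) ^ 2 ≤ S.card →
    0 < Fintype.card κ →
    ∃ (t₀ : G) (k : κ), p ^ 2 / (Fintype.card κ : ℝ) * (Fintype.card G : ℝ) ^ 2 ≤
      ((S.filter fun z => (z.1, t₀) ∈ S ∧ col (z.1, t₀) = k).card : ℝ)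

/-- The operators that are cut: `K = P R P`, upper part `q(K)` or complement `P - q(K)`. -/
noncomputable def Lex {G : Type} [Fintype G] [DecidableEq G] (side : Bool) (q : ℝ[X])
    (P R : Matrix G G ℂ) : Matrix G G ℂ :=
  if side then aeval (P * R * P) q else P - aeval (P * R * P) q

/-- STA: one-sided step, choice of the anchor (pigeonhole and cut). -/
def T_STA : Prop :=
  ∀ (K θ p ξ ε : ℝ) (m DA DB DC : ℕ), 0 < K → 0 < θ → 0 < p → 0 < ξ → 0 < ε →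
    ∃ (p' : ℝ) (J : ℕ) (q : Fin J → ℝ[X]), 0 < p' ∧
    (∀ j, (q j).coeff 0 = 0 ∧ (q j).coeff 1 = 0) ∧
    ∀ (G : Type) [AddCommGroup G] [Fintype G] [DecidableEq G] [Module (ZMod 2) G]
      (f : G → G → ℂ) (Λ : ℝ) (A B C : Fam G) (PA PB PC : G → Matrix G G ℂ)
      (S : Finset (G × G)) (XB : G → Fin m → G → ℂ),
      Conf f K Λ θ p DA DB DC A B C PA PB PC S →
      (∀ z ∈ S, ∀ i, (PB z.2).mulVec (XB z.2 i) = XB z.2 i ∧ 𝔼 y, ‖XB z.2 i y‖ ^ 2 ≤ 1) →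
      (∀ z ∈ S, ∃ i, Spread ξ z.1 z.2 (PA z.1) (PC (z.1 + z.2)) (XB z.2 i)) →
      ∃ (t₀ : G) (X₀ : G → ℂ) (side : Bool) (j : Fin J) (D₁ : ℕ) (Pn : G → Matrix G G ℂ)
        (S' : Finset (G × G)), (∀ y, ‖X₀ y‖ ≤ 2 * K) ∧ D₁ < DA ∧ S' ⊆ S ∧
        p' * (Fintype.card G : ℝ) ^ 2 ≤ S'.card ∧
        ∀ z ∈ S', (z.1, t₀) ∈ S ∧ Proj (Pn z.1) ∧ (Pn z.1).trace = (D₁ : ℂ) ∧
          OpLe (Lex side (q j) (PA z.1) (Rm z.1 t₀ X₀ (PC (z.1 + t₀))) - Pn z.1) ε ∧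
          θ / 2 ≤ (Th z.1 z.2 (Pn z.1) (PB z.2) (PC (z.1 + z.2))).re

/-- STB: one-sided step, the new family. -/
def T_STB : Prop :=
  ∀ (K Λ ε : ℝ) (q : ℝ[X]), 0 < K → 0 < ε → q.coeff 0 = 0 → q.coeff 1 = 0 →
    ∃ (K' Λ' : ℝ), ∀ (G : Type) [AddCommGroup G] [Fintype G] [DecidableEq G]
      [Module (ZMod 2) G] (f : G → G → ℂ) (A C : Fam G) (t₀ : G) (X₀ : G → ℂ) (side : Bool),
      (∀ x y, ‖f x y‖ ≤ 1) → Sep K A → Herm A → Dom f Λ A → Sep K C → Herm C →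
      (∀ y, ‖X₀ y‖ ≤ 2 * K) →
      ∃ L : Fam G, Sep K' L ∧ Herm L ∧ Dom f Λ' L ∧
        ∀ (s : G) (P R : Matrix G G ℂ) (D D' : ℕ), Gap (mat A s) P D →
          Gap (mat C (s + t₀)) R D' → OpLe (mat L s - Lex side q P (Rm s t₀ X₀ R)) ε

/-- STEP1: one-sided step. -/
def T_STEP1 : Prop :=
  ∀ (K Λ θ p ξ : ℝ) (m DA DB DC : ℕ), 0 < K → 0 < θ → 0 < p → 0 < ξ →
    ∃ (K' Λ' p' : ℝ), 0 < K' ∧ 0 < p' ∧
    ∀ (G : Type) [AddCommGroup G] [Fintype G] [DecidableEq G] [Module (ZMod 2) G]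
      (f : G → G → ℂ) (A B C : Fam G) (PA PB PC : G → Matrix G G ℂ)
      (S : Finset (G × G)) (XB : G → Fin m → G → ℂ), (∀ x y, ‖f x y‖ ≤ 1) →
      Conf f K Λ θ p DA DB DC A B C PA PB PC S →
      (∀ z ∈ S, ∀ i, (PB z.2).mulVec (XB z.2 i) = XB z.2 i ∧ 𝔼 y, ‖XB z.2 i y‖ ^ 2 ≤ 1) →
      (∀ z ∈ S, ∃ i, Spread ξ z.1 z.2 (PA z.1) (PC (z.1 + z.2)) (XB z.2 i)) →
      ∃ D₁, D₁ < DA ∧ HasConf f K' Λ' (θ / 4) p' D₁ DB DC

/-- SYM: rotation, reflection and monotonicity of configurations. -/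
def T_SYM : Prop :=
  ∀ (G : Type) [AddCommGroup G] [Fintype G] [DecidableEq G] [Module (ZMod 2) G]
    (f : G → G → ℂ) (K Λ θ p : ℝ) (DA DB DC : ℕ),
    (HasConf f K Λ θ p DA DB DC → HasConf f K Λ θ p DB DC DA) ∧
    (HasConf f K Λ θ p DA DB DC → HasConf f K Λ θ p DB DA DC) ∧
    (∀ K' Λ' θ' p', (∀ x y, ‖f x y‖ ≤ 1) → K ≤ K' → Λ ≤ Λ' → θ' ≤ θ → p' ≤ p →
      HasConf f K Λ θ p DA DB DC → HasConf f K' Λ' θ' p' DA DB DC) ∧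
    (0 < θ → 0 < p → HasConf f K Λ θ p DA DB DC → 1 ≤ DA ∧ 1 ≤ DB ∧ 1 ≤ DC)

/-- STEP: the step of the descent. -/
def T_STEP : Prop :=
  ∀ (K Λ θ p : ℝ) (DA DB DC : ℕ), 0 < K → 0 < θ → 0 < p → DC < DA * DB →
    ∃ (K' Λ' θ' p' : ℝ), 0 < K' ∧ 0 < θ' ∧ 0 < p' ∧
    ∀ (G : Type) [AddCommGroup G] [Fintype G] [DecidableEq G] [Module (ZMod 2) G]
      (f : G → G → ℂ), (∀ x y, ‖f x y‖ ≤ 1) → HasConf f K Λ θ p DA DB DC →
      ∃ DA' DB', DA' + DB' < DA + DB ∧ HasConf f K' Λ' θ' p' DA' DB' DC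

/-- INIT: the initial configuration. -/
def T_INIT : Prop :=
  ∀ δ : ℝ, 0 < δ → ∃ (K Λ θ p : ℝ) (D : ℕ), 0 < K ∧ 0 < θ ∧ 0 < p ∧
    ∀ (G : Type) [AddCommGroup G] [Fintype G] [DecidableEq G] [Module (ZMod 2) G]
      (f : G → G → ℂ), (∀ x y, ‖f x y‖ ≤ 1) → δ ≤ U8 f →
      ∃ DA DB DC, DA ≤ D ∧ DB ≤ D ∧ DC ≤ D ∧ HasConf f K Λ θ p DA DB DC

/-- DESC: descent to rank one. -/
def T_DESC : Prop :=
  ∀ δ : ℝ, 0 < δ → ∃ (K Λ θ p : ℝ), 0 < K ∧ 0 < θ ∧ 0 < p ∧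
    ∀ (G : Type) [AddCommGroup G] [Fintype G] [DecidableEq G] [Module (ZMod 2) G]
      (f : G → G → ℂ), (∀ x y, ‖f x y‖ ≤ 1) → δ ≤ U8 f → HasConf f K Λ θ p 1 1 1

end Pool.Agent.H45.SQ
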